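import Pool.Agent.H44R3.Squeeze

/-!
Extension of a homeomorphism of the closed disc, of degree one on the circle, to a
homeomorphism of the sphere which is the identity outside the disc of radius two.
-/

open Set Filter Topology Metric
open scoped OnePoint NNReal

namespace Pool.Agent.H44R3

/-- The standard parametrisation of the circle. -/
noncomputable def E (θ : ℝ) : ℂ := Complex.exp (θ * Complex.I)

theorem continuous_E : Continuous E := by unfold E; fun_prop

theorem norm_E (θ : ℝ) : ‖E θ‖ = 1 := Complex.norm_exp_ofReal_mul_I θ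

theorem E_add_int (θ : ℝ) (n : ℤ) : E (θ + n * (2 * Real.pi)) = E θ := by
  unfold E
  rw [Complex.exp_eq_exp_iff_exists_int]
  exact ⟨n, by push_cast; ring⟩

theorem E_eq_iff {θ φ : ℝ} : E θ = E φ ↔ ∃ n : ℤ, θ = φ + n * (2 * Real.pi) := by
  constructor
  · intro h
    unfold E at h
    rw [Complex.exp_eq_exp_iff_exists_int] at h
    obtain ⟨n, hn⟩ := h
    refine ⟨n, ?_⟩
    have h1 : ((θ : ℂ)) * Complex.I = ((φ + n * (2 * Real.pi) : ℝ) : ℂ) * Complex.I := by
      rw [hn]; push_cast; ring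
    exact_mod_cast mul_right_cancel₀ Complex.I_ne_zero h1
  · rintro ⟨n, rfl⟩
    exact E_add_int φ n

theorem eq_norm_mul_E (z : ℂ) : z = ‖z‖ * E (Complex.arg z) :=
  (Complex.norm_mul_exp_arg_mul_I z).symm

theorem E_mul (θ φ : ℝ) : E θ * Complex.exp (φ * Complex.I) = E (θ + φ) := by
  unfold E
  rw [← Complex.exp_add]
  congr 1
  push_cast
  ring

section

variable {η : ℂ → ℝ}

/-- The lift of the isotopy on the circle. -/
noncomputable def Psi (η : ℂ → ℝ) (s : ℝ) (θ : ℝ) : ℝ := θ + s * η (E θ)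

theorem Psi_add_int (η : ℂ → ℝ) (s θ : ℝ) (n : ℤ) :
    Psi η s (θ + n * (2 * Real.pi)) = Psi η s θ + n * (2 * Real.pi) := by
  unfold Psi
  rw [E_add_int]
  ring

theorem continuous_Psi (hη : ContinuousOn η (sphere 0 1)) (s : ℝ) : Continuous (Psi η s) := by
  have h1 : Continuous fun θ : ℝ => η (E θ) :=
    hη.comp_continuous continuous_E fun θ => by rw [mem_sphere_zero_iff_norm, norm_E]
  exact continuous_id.add (continuous_const.mul h1)

theorem strictMono_Psi_one (hη : ContinuousOn η (sphere 0 1)) {χ : ℂ → ℂ}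
    (hinj : InjOn χ (closedBall 0 1))
    (hχη : ∀ z ∈ sphere (0 : ℂ) 1, χ z = z * Complex.exp (η z * Complex.I)) :
    StrictMono (Psi η 1) := by
  have hi : Function.Injective (Psi η 1) := by
    intro θ φ h
    have h1 : ∀ θ : ℝ, χ (E θ) = E (Psi η 1 θ) := by
      intro θ
      rw [hχη _ (by rw [mem_sphere_zero_iff_norm, norm_E]), E_mul]
      simp [Psi]
    have h2 : E θ = E φ := by
      apply hinj
      · rw [mem_closedBall_zero_iff, norm_E]
      · rw [mem_closedBall_zero_iff, norm_E]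
      · rw [h1, h1, h]
    simp only [Psi, h2] at h
    linarith
  rcases (continuous_Psi hη 1).strictMono_of_inj hi with h | h
  · exact h
  · exfalso
    have h1 := Psi_add_int η 1 0 1
    have hpi := Real.pi_pos
    have h2 : Psi η 1 (0 + ((1 : ℤ) : ℝ) * (2 * Real.pi)) < Psi η 1 0 := h (by
      push_cast; linarith)
    rw [h1] at h2
    push_cast at h2
    linarith

theorem strictMono_Psi (h1 : StrictMono (Psi η 1)) {s : ℝ} (hs0 : 0 ≤ s) (hs1 : s ≤ 1) :
    StrictMono (Psi η s) := by
  intro a b hab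
  have h2 := h1 hab
  unfold Psi at h2 ⊢
  rcases hs0.eq_or_lt with rfl | hs
  · simpa using hab
  · nlinarith

theorem surjective_Psi (hη : ContinuousOn η (sphere 0 1)) {s : ℝ} (hs0 : 0 ≤ s) (hs1 : s ≤ 1) :
    Function.Surjective (Psi η s) := by
  obtain ⟨M, hM⟩ := (isCompact_sphere (0 : ℂ) 1).exists_bound_of_continuousOn hη
  have hb : ∀ θ, |s * η (E θ)| ≤ M := by
    intro θ
    have h1 := hM (E θ) (by rw [mem_sphere_zero_iff_norm, norm_E])
    rw [Real.norm_eq_abs] at h1
    rw [abs_mul, abs_of_nonneg hs0]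
    have := abs_nonneg (η (E θ))
    nlinarith
  refine (continuous_Psi hη s).surjective ?_ ?_
  · refine tendsto_atTop_mono (f := fun θ => θ - M) (fun θ => ?_)
      (tendsto_atTop_add_const_right _ _ tendsto_id)
    have := (abs_le.1 (hb θ)).1
    unfold Psi
    linarith
  · have h0 : Tendsto (fun θ : ℝ => θ + M) atBot atBot :=
      tendsto_atBot_add_const_right _ _ tendsto_id
    refine tendsto_atBot_mono (fun θ => ?_) h0
    have := (abs_le.1 (hb θ)).2
    unfold Psi
    linarith

/-- The extension. -/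
noncomputable def VV (χ : ℂ → ℂ) (η : ℂ → ℝ) (z : ℂ) : ℂ :=
  if ‖z‖ ≤ 1 then χ z else z * Complex.exp ((cutf 1 z * η (z / ‖z‖) : ℝ) * Complex.I)

theorem VV_out {χ : ℂ → ℂ} {r : ℝ} (hr : 1 < r) (θ : ℝ) :
    VV χ η (r * E θ) = r * E (Psi η (cutf 1 (r : ℂ)) θ) := by
  have hr0 : (0 : ℝ) < r := by linarith
  have hn : ‖(r : ℂ) * E θ‖ = r := by
    rw [norm_mul, norm_E, mul_one, Complex.norm_real, Real.norm_of_nonneg hr0.le]
  have hr1 : ‖(r : ℂ)‖ = r := by rw [Complex.norm_real, Real.norm_of_nonneg hr0.le]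
  have hc : cutf 1 ((r : ℂ) * E θ) = cutf 1 (r : ℂ) := by
    unfold cutf
    rw [hn, hr1]
  have hne : (r : ℂ) ≠ 0 := by exact_mod_cast hr0.ne'
  unfold VV
  rw [if_neg (by rw [hn]; linarith), hc, hn, mul_div_cancel_left₀ _ hne, mul_assoc, E_mul]
  rfl

theorem norm_VV {χ : ℂ → ℂ} {z : ℂ} (hz : 1 < ‖z‖) : ‖VV χ η z‖ = ‖z‖ := by
  unfold VV
  rw [if_neg (by linarith), norm_mul, Complex.norm_exp_ofReal_mul_I, mul_one]

theorem exists_annulus_ext {χ : ℂ → ℂ} {η : ℂ → ℝ}
    (hχ : ContinuousOn χ (closedBall 0 1)) (hinj : InjOn χ (closedBall 0 1))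
    (himg : χ '' closedBall 0 1 = closedBall 0 1)
    (hη : ContinuousOn η (sphere 0 1))
    (hχη : ∀ z ∈ sphere (0 : ℂ) 1, χ z = z * Complex.exp (η z * Complex.I)) :
    ∃ v : RS ≃ₜ RS, (∀ z : ℂ, ‖z‖ ≤ 1 → v z = ((χ z : ℂ) : RS)) ∧
      (∀ z : ℂ, 2 ≤ ‖z‖ → v z = (z : RS)) ∧ v ∞ = ∞ := by
  have hmono := strictMono_Psi_one hη hinj hχη
  have hc01 : ∀ r : ℝ, 0 ≤ cutf 1 (r : ℂ) ∧ cutf 1 (r : ℂ) ≤ 1 := fun r =>
    ⟨cutf_nonneg _ _, cutf_le_one _ _⟩
  have hin : ∀ z : ℂ, ‖z‖ ≤ 1 → VV χ η z = χ z := fun z hz => by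
    unfold VV
    rw [if_pos hz]
  have hle : ∀ z : ℂ, ‖z‖ ≤ 1 → ‖χ z‖ ≤ 1 := by
    intro z hz
    have : χ z ∈ χ '' closedBall 0 1 := ⟨z, mem_closedBall_zero_iff.2 hz, rfl⟩
    rw [himg] at this
    exact mem_closedBall_zero_iff.1 this
  have hout : ∀ z : ℂ, 2 ≤ ‖z‖ → VV χ η z = z := by
    intro z hz
    unfold VV
    rw [if_neg (by linarith), cutf_eq_zero one_pos (by linarith)]
    simp
  have hcont : Continuous (VV χ η) := by
    unfold VV
    refine continuous_if_le continuous_norm continuous_const ?_ ?_ ?_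
    · exact hχ.mono fun z hz => mem_closedBall_zero_iff.2 hz
    · have h1 : ContinuousOn (fun z : ℂ => η (z / ‖z‖)) {x : ℂ | 1 ≤ ‖x‖} := by
        refine hη.comp (f := fun z : ℂ => z / ‖z‖) ?_ ?_
        · refine continuousOn_id.div (by fun_prop) ?_
          intro z hz
          have hz' : (1 : ℝ) ≤ ‖z‖ := hz
          have : (0 : ℝ) < ‖z‖ := by linarith
          exact_mod_cast this.ne'
        · intro z hz
          have hz' : (1 : ℝ) ≤ ‖z‖ := hz
          have h0 : (0 : ℝ) < ‖z‖ := by linarith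
          rw [mem_sphere_zero_iff_norm, norm_div, Complex.norm_real, norm_norm, div_self h0.ne']
      have h2 : Continuous (fun z : ℂ => cutf 1 z) := by
        unfold cutf
        fun_prop
      have h3 : ContinuousOn (fun z : ℂ => ((cutf 1 z * η (z / ‖z‖) : ℝ) : ℂ))
          {x : ℂ | 1 ≤ ‖x‖} :=
        Complex.continuous_ofReal.comp_continuousOn (h2.continuousOn.mul h1)
      exact continuousOn_id.mul
        (Complex.continuous_exp.comp_continuousOn (h3.mul continuousOn_const))
    · intro z hz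
      rw [hχη z (mem_sphere_zero_iff_norm.2 hz), hz, cutf_eq_one one_pos hz.le]
      simp
  have hVinj : Function.Injective (VV χ η) := by
    intro z w h
    rcases le_or_gt ‖z‖ 1 with hz | hz
    · rcases le_or_gt ‖w‖ 1 with hw | hw
      · rw [hin z hz, hin w hw] at h
        exact hinj (mem_closedBall_zero_iff.2 hz) (mem_closedBall_zero_iff.2 hw) h
      · exfalso
        have h1 := norm_VV (χ := χ) (η := η) hw
        rw [← h, hin z hz] at h1
        have := hle z hz
        linarith
    · rcases le_or_gt ‖w‖ 1 with hw | hw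
      · exfalso
        have h1 := norm_VV (χ := χ) (η := η) hz
        rw [h, hin w hw] at h1
        have := hle w hw
        linarith
      · have hn : ‖z‖ = ‖w‖ := by
          rw [← norm_VV (χ := χ) (η := η) hz, ← norm_VV (χ := χ) (η := η) hw, h]
        rw [eq_norm_mul_E z, eq_norm_mul_E w, ← hn, VV_out hz, VV_out hz] at h
        have hne : ((‖z‖ : ℝ) : ℂ) ≠ 0 := by
          have : (0 : ℝ) < ‖z‖ := by linarith
          exact_mod_cast this.ne'
        have h1 := mul_left_cancel₀ hne h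
        rw [E_eq_iff] at h1
        obtain ⟨n, hn'⟩ := h1
        rw [← Psi_add_int] at hn'
        have h2 := (strictMono_Psi hmono (hc01 ‖z‖).1 (hc01 ‖z‖).2).injective hn'
        rw [eq_norm_mul_E z, eq_norm_mul_E w, ← hn, h2, E_add_int]
  have hVsurj : Function.Surjective (VV χ η) := by
    intro w
    rcases le_or_gt ‖w‖ 1 with hw | hw
    · have : w ∈ χ '' closedBall 0 1 := by
        rw [himg]
        exact mem_closedBall_zero_iff.2 hw
      obtain ⟨z, hz, rfl⟩ := this
      exact ⟨z, hin z (mem_closedBall_zero_iff.1 hz)⟩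
    · obtain ⟨θ, hθ⟩ := surjective_Psi hη (hc01 ‖w‖).1 (hc01 ‖w‖).2 (Complex.arg w)
      refine ⟨‖w‖ * E θ, ?_⟩
      rw [VV_out hw, hθ]
      exact (eq_norm_mul_E w).symm
  have htend : Tendsto (VV χ η) (coclosedCompact ℂ) (coclosedCompact ℂ) := by
    refine tendsto_id.congr' ?_
    rw [coclosedCompact_eq_cocompact]
    filter_upwards [(isCompact_closedBall (0 : ℂ) 2).compl_mem_cocompact] with z hz
    rw [mem_compl_iff, mem_closedBall_zero_iff, not_le] at hz
    rw [hout z hz.le]
    rfl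
  have hbij : Function.Bijective (OnePoint.map (VV χ η)) := by
    constructor
    · intro z w h
      induction z using OnePoint.rec with
      | infty =>
        induction w using OnePoint.rec with
        | infty => rfl
        | coe w => exact absurd h.symm (OnePoint.coe_ne_infty _)
      | coe z =>
        induction w using OnePoint.rec with
        | infty => exact absurd h (OnePoint.coe_ne_infty _)
        | coe w =>
          rw [OnePoint.map_some, OnePoint.map_some, OnePoint.coe_eq_coe] at h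
          rw [hVinj h]
    · intro w
      induction w using OnePoint.rec with
      | infty => exact ⟨∞, rfl⟩
      | coe w =>
        obtain ⟨z, hz⟩ := hVsurj w
        exact ⟨z, by rw [OnePoint.map_some, hz]⟩
  have hcont' : Continuous (Equiv.ofBijective _ hbij) := OnePoint.continuous_map hcont htend
  refine ⟨hcont'.homeoOfEquivCompactToT2, fun z hz => ?_, fun z hz => ?_, rfl⟩
  · show OnePoint.map (VV χ η) z = _
    rw [OnePoint.map_some, hin z hz]
  · show OnePoint.map (VV χ η) z = _
    rw [OnePoint.map_some, hout z hz]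

end

end Pool.Agent.H44R3
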