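import Pool.Agent.H44R3.Cara

/-!
If the boundary extension identifies two points of the circle then it is constant on an arc.
-/

open Set Filter Topology Metric
open scoped Real

namespace Pool.Agent.H44R3

variable {χ ψ : ℂ → ℂ}

theorem E_re (θ : ℝ) : (E θ).re = Real.cos θ := by
  unfold E
  rw [Complex.exp_ofReal_mul_I_re]

theorem E_im (θ : ℝ) : (E θ).im = Real.sin θ := by
  unfold E
  rw [Complex.exp_ofReal_mul_I_im]

/-- The side function of the chord through `E θ` and `E θ'`. -/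
noncomputable def LL (θ θ' : ℝ) (x : ℂ) : ℝ :=
  (x.im - Real.sin θ) * (Real.cos θ' - Real.cos θ) -
    (x.re - Real.cos θ) * (Real.sin θ' - Real.sin θ)

theorem continuous_LL (θ θ' : ℝ) : Continuous (LL θ θ') := by
  unfold LL
  fun_prop

theorem LL_E (θ θ' β : ℝ) : LL θ θ' (E β) =
    4 * Real.sin ((β - θ) / 2) * Real.sin ((θ' - θ) / 2) * Real.sin ((β - θ') / 2) := by
  unfold LL
  rw [E_re, E_im, Real.sin_sub_sin, Real.sin_sub_sin, Real.cos_sub_cos, Real.cos_sub_cos]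
  have h : (β - θ') / 2 = (β + θ) / 2 - (θ' + θ) / 2 := by ring
  rw [h, Real.sin_sub]
  ring

theorem CD.arc (h : CD χ ψ) {a b : ℝ} (hab : a < b) (hba : b < a + 2 * π) {w : ℂ}
    (ha : bar χ (E a) = w) (hb : bar χ (E b) = w) :
    ∃ c d : ℝ, c < d ∧ ∀ θ ∈ Ioo c d, bar χ (E θ) = w := by
  by_contra H
  push Not at H
  obtain ⟨θ, hθ, hθw⟩ := H a b hab
  obtain ⟨θ', hθ', hθw'⟩ := H b (a + 2 * π) hba
  have hpi := Real.pi_pos
  have hs1 : 0 < Real.sin ((θ' - θ) / 2) :=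
    Real.sin_pos_of_pos_of_lt_pi (by linarith [hθ.2, hθ'.1]) (by linarith [hθ.1, hθ'.2])
  have hLa : 0 < LL θ θ' (E a) := by
    rw [LL_E]
    have h1 : Real.sin ((a - θ) / 2) < 0 :=
      Real.sin_neg_of_neg_of_neg_pi_lt (by linarith [hθ.1]) (by linarith [hθ.2])
    have h2 : Real.sin ((a - θ') / 2) < 0 :=
      Real.sin_neg_of_neg_of_neg_pi_lt (by linarith [hθ'.1]) (by linarith [hθ'.2])
    have h3 : 0 < Real.sin ((a - θ) / 2) * Real.sin ((a - θ') / 2) := mul_pos_of_neg_of_neg h1 h2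
    have h4 : 0 < (Real.sin ((a - θ) / 2) * Real.sin ((a - θ') / 2)) *
      Real.sin ((θ' - θ) / 2) := mul_pos h3 hs1
    linarith
  have hLb : LL θ θ' (E b) < 0 := by
    rw [LL_E]
    have h1 : 0 < Real.sin ((b - θ) / 2) :=
      Real.sin_pos_of_pos_of_lt_pi (by linarith [hθ.2]) (by linarith [hθ.1])
    have h2 : Real.sin ((b - θ') / 2) < 0 :=
      Real.sin_neg_of_neg_of_neg_pi_lt (by linarith [hθ'.1]) (by linarith [hθ'.2])
    have h3 : Real.sin ((b - θ) / 2) * Real.sin ((b - θ') / 2) < 0 := mul_neg_of_pos_of_neg h1 h2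
    have h4 : (Real.sin ((b - θ) / 2) * Real.sin ((b - θ') / 2)) *
      Real.sin ((θ' - θ) / 2) < 0 := mul_neg_of_neg_of_pos h3 hs1
    linarith
  have hw : ‖w‖ = 1 := by rw [← ha]; exact h.bar_sphere (norm_E a)
  set T : Set ℂ := closedBall 0 1 ∩ {x | LL θ θ' x = 0} with hT
  have hTc : IsCompact T :=
    (isCompact_closedBall (0 : ℂ) 1).inter_right (isClosed_eq (continuous_LL θ θ') continuous_const)
  have hTn : T.Nonempty := by
    refine ⟨E θ, mem_closedBall_zero_iff.2 (norm_E θ).le, ?_⟩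
    show LL θ θ' (E θ) = 0
    rw [LL_E]
    simp
  have hTw : ∀ x ∈ T, bar χ x ≠ w := by
    rintro x ⟨hx1, hx2⟩ hcon
    rcases (mem_closedBall_zero_iff.1 hx1).lt_or_eq with h1 | h1
    · have h2 : ‖bar χ x‖ < 1 := by
        rw [h.bar_eq (mem_ball_zero_iff.2 h1)]
        exact mem_ball_zero_iff.1 (h.mχ (mem_ball_zero_iff.2 h1))
      rw [hcon, hw] at h2
      exact lt_irrefl _ h2
    · have hxE : x = E (Complex.arg x) := by
        have := eq_norm_mul_E x
        rw [h1] at this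
        simpa using this
      have hx3 : LL θ θ' x = 0 := hx2
      rw [hxE, LL_E] at hx3
      have h4 : Real.sin ((Complex.arg x - θ) / 2) = 0 ∨ Real.sin ((Complex.arg x - θ') / 2) = 0 := by
        rcases mul_eq_zero.1 hx3 with h5 | h5
        · left
          rcases mul_eq_zero.1 h5 with h6 | h6
          · linarith
          · exact absurd h6 hs1.ne'
        · exact Or.inr h5
      have key : ∀ t : ℝ, Real.sin ((Complex.arg x - t) / 2) = 0 → x = E t := by
        intro t ht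
        rw [Real.sin_eq_zero_iff] at ht
        obtain ⟨n, hn⟩ := ht
        rw [hxE, E_eq_iff]
        exact ⟨n, by linarith⟩
      rcases h4 with h5 | h5
      · rw [key θ h5] at hcon
        exact hθw hcon
      · rw [key θ' h5] at hcon
        exact hθw' hcon
  obtain ⟨x₀, hx₀, hmin⟩ := hTc.exists_isMinOn hTn
    (((h.bar_cont.mono inter_subset_left).sub continuousOn_const).norm :
      ContinuousOn (fun x => ‖bar χ x - w‖) T)
  set s : ℝ := ‖bar χ x₀ - w‖ with hs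
  have hs0 : 0 < s := norm_pos_iff.2 (sub_ne_zero.2 (hTw x₀ hx₀))
  set V : Set ℂ := ball 0 1 ∩ ball w s with hV
  have hVp : IsPreconnected V := ((convex_ball (0 : ℂ) 1).inter (convex_ball w s)).isPreconnected
  have hVb : V ⊆ ball 0 1 := inter_subset_left
  have hR : IsPreconnected (ψ '' V) := hVp.image ψ (h.cψ.mono hVb)
  have hcover : ψ '' V ⊆ {x | LL θ θ' x < 0} ∪ {x | 0 < LL θ θ' x} := by
    rintro _ ⟨e, he, rfl⟩
    rcases lt_trichotomy (LL θ θ' (ψ e)) 0 with h1 | h1 | h1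
    · exact Or.inl h1
    · exfalso
      have h2 := h.mψ (hVb he)
      have h3 : ψ e ∈ T := ⟨ball_subset_closedBall h2, h1⟩
      have h4 : ‖bar χ x₀ - w‖ ≤ ‖bar χ (ψ e) - w‖ := hmin h3
      rw [h.bar_eq h2, h.r e (hVb he)] at h4
      have h5 := he.2
      rw [mem_ball, dist_eq_norm] at h5
      linarith
    · exact Or.inr h1
  have hnear : ∀ t : ℝ, bar χ (E t) = w → ∀ U : Set ℂ, IsOpen U → E t ∈ U →
      ∃ x ∈ ψ '' V, x ∈ U := by
    intro t ht U hU htU
    have hmem : E t ∈ closure (ball (0 : ℂ) 1) := by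
      rw [closure_ball']
      exact mem_closedBall_zero_iff.2 (norm_E t).le
    have hne : (𝓝[ball 0 1] (E t)).NeBot := mem_closure_iff_nhdsWithin_neBot.1 hmem
    have ht1 : Tendsto (bar χ) (𝓝[ball 0 1] (E t)) (𝓝 (bar χ (E t))) :=
      (h.bar_cont (E t) (mem_closedBall_zero_iff.2 (norm_E t).le)).mono ball_subset_closedBall
    rw [ht] at ht1
    have h1 : ∀ᶠ x in 𝓝[ball (0 : ℂ) 1] (E t), bar χ x ∈ ball w s :=
      ht1.eventually (ball_mem_nhds w hs0)
    have h2 : ∀ᶠ x in 𝓝[ball (0 : ℂ) 1] (E t), x ∈ U :=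
      mem_nhdsWithin_of_mem_nhds (hU.mem_nhds htU)
    have h3 : ∀ᶠ x in 𝓝[ball (0 : ℂ) 1] (E t), x ∈ ball (0 : ℂ) 1 := self_mem_nhdsWithin
    obtain ⟨x, hx1, hx2, hx3⟩ := (h1.and (h2.and h3)).exists
    refine ⟨x, ⟨χ x, ⟨h.mχ hx3, ?_⟩, h.l x hx3⟩, hx2⟩
    rw [← h.bar_eq hx3]
    exact hx1
  have ho1 : IsOpen {x : ℂ | LL θ θ' x < 0} := isOpen_lt (continuous_LL θ θ') continuous_const
  have ho2 : IsOpen {x : ℂ | 0 < LL θ θ' x} := isOpen_lt continuous_const (continuous_LL θ θ')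
  have hdisj : Disjoint {x : ℂ | LL θ θ' x < 0} {x : ℂ | 0 < LL θ θ' x} := by
    rw [Set.disjoint_left]
    intro x h1 h2
    have h1' : LL θ θ' x < 0 := h1
    have h2' : 0 < LL θ θ' x := h2
    exact lt_asymm h1' h2'
  obtain ⟨x, hx, hxU⟩ := hnear a ha _ ho2 hLa
  obtain ⟨y, hy, hyU⟩ := hnear b hb _ ho1 hLb
  have hxU' : 0 < LL θ θ' x := hxU
  have hyU' : LL θ θ' y < 0 := hyU
  rcases hR.subset_or_subset ho1 ho2 hdisj hcover with h1 | h1
  · have : LL θ θ' x < 0 := h1 hx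
    linarith
  · have : 0 < LL θ θ' y := h1 hy
    linarith

end Pool.Agent.H44R3
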