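import Mathlib

/-!
Basic homeomorphisms of the Riemann sphere `OnePoint ℂ` and germs at `0` that extend to
homeomorphisms supported in arbitrarily small neighbourhoods of `0`.
-/

open Set Filter Topology Metric
open scoped OnePoint

namespace Pool.Agent.H44R3

/-- The Riemann sphere. -/
abbrev RS : Type := OnePoint ℂ

/-- Extension of a homeomorphism of the plane to the Riemann sphere. -/
noncomputable def ext (h : ℂ ≃ₜ ℂ) : RS ≃ₜ RS := h.onePointCongr

@[simp] theorem ext_coe (h : ℂ ≃ₜ ℂ) (z : ℂ) : ext h (z : RS) = ((h z : ℂ) : RS) := rfl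

@[simp] theorem ext_infty (h : ℂ ≃ₜ ℂ) : ext h (∞ : RS) = ∞ := rfl

/-- Translation. -/
noncomputable def trans (c : ℂ) : RS ≃ₜ RS := ext (Homeomorph.addRight c)

@[simp] theorem trans_coe (c z : ℂ) : trans c (z : RS) = ((z + c : ℂ) : RS) := rfl

@[simp] theorem trans_infty (c : ℂ) : trans c (∞ : RS) = ∞ := rfl

/-- Scaling. -/
noncomputable def scal (a : ℂ) (ha : a ≠ 0) : RS ≃ₜ RS := ext (Homeomorph.mulLeft₀ a ha)

@[simp] theorem scal_coe (a : ℂ) (ha : a ≠ 0) (z : ℂ) :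
    scal a ha (z : RS) = ((a * z : ℂ) : RS) := rfl

@[simp] theorem scal_infty (a : ℂ) (ha : a ≠ 0) : scal a ha (∞ : RS) = ∞ := rfl

/-- The inversion as a function. -/
noncomputable def invFun (z : RS) : RS :=
  z.elim ((0 : ℂ) : RS) (fun w => if w = 0 then ∞ else ((w⁻¹ : ℂ) : RS))

@[simp] theorem invFun_infty : invFun ∞ = ((0 : ℂ) : RS) := rfl

theorem invFun_zero : invFun ((0 : ℂ) : RS) = ∞ := by
  simp [invFun]

theorem invFun_coe {z : ℂ} (hz : z ≠ 0) : invFun (z : RS) = ((z⁻¹ : ℂ) : RS) := by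
  simp [invFun, hz]

theorem invFun_invFun (z : RS) : invFun (invFun z) = z := by
  induction z using OnePoint.rec with
  | infty => rw [invFun_infty, invFun_zero]
  | coe z =>
    by_cases hz : z = 0
    · rw [hz, invFun_zero, invFun_infty]
    · rw [invFun_coe hz, invFun_coe (inv_ne_zero hz), inv_inv]

theorem continuous_invFun : Continuous invFun := by
  rw [continuous_iff_continuousAt]
  intro z
  induction z using OnePoint.rec with
  | infty =>
    rw [OnePoint.continuousAt_infty', invFun_infty]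
    have h1 : Tendsto (fun z : ℂ => ((z⁻¹ : ℂ) : RS)) (coclosedCompact ℂ) (𝓝 ((0 : ℂ) : RS)) := by
      rw [coclosedCompact_eq_cocompact, ← Metric.cobounded_eq_cocompact]
      exact (OnePoint.continuous_coe.tendsto (0 : ℂ)).comp tendsto_inv₀_cobounded
    refine h1.congr' ?_
    have h2 : ∀ᶠ z : ℂ in coclosedCompact ℂ, z ≠ 0 := by
      rw [coclosedCompact_eq_cocompact, ← Metric.cobounded_eq_cocompact]
      exact Bornology.eventually_ne_cobounded 0
    filter_upwards [h2] with z hz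
    simp [invFun, hz]
  | coe z =>
    rw [OnePoint.continuousAt_coe]
    by_cases hz : z = 0
    · subst hz
      have h0 : (invFun ∘ (fun x : ℂ => (x : RS))) 0 = ∞ := invFun_zero
      rw [ContinuousAt, h0]
      have key : Tendsto (fun x : ℂ => ((x⁻¹ : ℂ) : RS)) (𝓝[≠] (0 : ℂ)) (𝓝 ∞) := by
        have h3 : Tendsto (fun x : ℂ => x⁻¹) (𝓝[≠] (0 : ℂ)) (coclosedCompact ℂ) := by
          rw [coclosedCompact_eq_cocompact, ← Metric.cobounded_eq_cocompact]
          exact tendsto_inv₀_nhdsNE_zero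
        exact OnePoint.tendsto_coe_infty.comp h3
      rw [← nhdsNE_sup_pure]
      refine Tendsto.sup ?_ ?_
      · refine key.congr' ?_
        filter_upwards [self_mem_nhdsWithin] with x hx
        simp only [mem_compl_iff, mem_singleton_iff] at hx
        simp [invFun, hx]
      · rw [tendsto_pure_left]
        intro s hs
        have := mem_of_mem_nhds hs
        simpa [invFun] using this
    · have h1 : ContinuousAt (fun x : ℂ => ((x⁻¹ : ℂ) : RS)) z :=
        OnePoint.continuous_coe.continuousAt.comp (continuousAt_inv₀ hz)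
      refine h1.congr ?_
      filter_upwards [isOpen_ne.mem_nhds hz] with x hx
      have hx' : x ≠ 0 := hx
      simp [invFun, hx']

/-- The inversion `z ↦ 1 / z`. -/
noncomputable def inv : RS ≃ₜ RS where
  toFun := invFun
  invFun := invFun
  left_inv := invFun_invFun
  right_inv := invFun_invFun
  continuous_toFun := continuous_invFun
  continuous_invFun := continuous_invFun

theorem inv_infty : inv ∞ = ((0 : ℂ) : RS) := rfl
theorem inv_zero : inv ((0 : ℂ) : RS) = ∞ := invFun_zero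
theorem inv_coe {z : ℂ} (hz : z ≠ 0) : inv (z : RS) = ((z⁻¹ : ℂ) : RS) := invFun_coe hz
theorem inv_inv_apply (z : RS) : inv (inv z) = z := invFun_invFun z

/-- The point `0` of the Riemann sphere. -/
noncomputable def o : RS := ((0 : ℂ) : RS)

theorem o_def : o = ((0 : ℂ) : RS) := rfl

theorem nhds_o : 𝓝 o = map ((↑) : ℂ → RS) (𝓝 0) := OnePoint.nhds_coe_eq 0

/-- A self-map of the sphere whose germ at `0` fixes `0` and extends to homeomorphisms supported
in arbitrarily small neighbourhoods of `0`. -/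
def Germ (u : RS → RS) : Prop :=
  u o = o ∧ ∀ V ∈ 𝓝 o, ∃ κ : RS ≃ₜ RS, (κ =ᶠ[𝓝 o] u) ∧ ∀ z ∉ V, κ z = z

theorem Germ.congr {u v : RS → RS} (hu : Germ u) (h : v =ᶠ[𝓝 o] u) : Germ v := by
  refine ⟨by rw [h.self_of_nhds, hu.1], fun V hV => ?_⟩
  obtain ⟨κ, h1, h2⟩ := hu.2 V hV
  exact ⟨κ, h1.trans h.symm, h2⟩

theorem germ_id : Germ (fun z => z) := ⟨rfl, fun _ _ => ⟨1, EventuallyEq.rfl, fun _ _ => rfl⟩⟩

theorem Germ.comp {u v : RS → RS} (hu : Germ u) (hv : Germ v) : Germ (fun z => u (v z)) := by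
  refine ⟨by show u (v o) = o; rw [hv.1, hu.1], fun V hV => ?_⟩
  obtain ⟨κ, h1, h2⟩ := hu.2 V hV
  obtain ⟨μ, h3, h4⟩ := hv.2 V hV
  refine ⟨κ * μ, ?_, ?_⟩
  · have hμ : μ o = o := by rw [h3.self_of_nhds, hv.1]
    have h5 : Tendsto μ (𝓝 o) (𝓝 o) := by
      have := μ.continuous.tendsto o
      rwa [hμ] at this
    filter_upwards [h3, h5.eventually h1] with z hz1 hz2
    rw [Homeomorph.mul_apply, hz2, hz1]
  · intro z hz
    rw [Homeomorph.mul_apply, h4 z hz, h2 z hz]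

theorem Germ.inv {u : RS ≃ₜ RS} (hu : Germ u) : Germ (u⁻¹ : RS ≃ₜ RS) := by
  have h0 : (u⁻¹ : RS ≃ₜ RS) o = o := by
    have : (u⁻¹ : RS ≃ₜ RS) (u o) = o := by
      rw [← Homeomorph.mul_apply, inv_mul_cancel]; rfl
    rwa [hu.1] at this
  refine ⟨h0, fun V hV => ?_⟩
  obtain ⟨κ, h1, h2⟩ := hu.2 V hV
  refine ⟨κ⁻¹, ?_, ?_⟩
  · have h5 : Tendsto (u⁻¹ : RS ≃ₜ RS) (𝓝 o) (𝓝 o) := by
      have := (u⁻¹ : RS ≃ₜ RS).continuous.tendsto o
      rwa [h0] at this
    filter_upwards [h5.eventually h1] with z hz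
    have h6 : κ ((u⁻¹ : RS ≃ₜ RS) z) = z := by
      rw [hz, ← Homeomorph.mul_apply, mul_inv_cancel]; rfl
    calc (κ⁻¹ : RS ≃ₜ RS) z = (κ⁻¹ : RS ≃ₜ RS) (κ ((u⁻¹ : RS ≃ₜ RS) z)) := by rw [h6]
      _ = (u⁻¹ : RS ≃ₜ RS) z := by rw [← Homeomorph.mul_apply, inv_mul_cancel]; rfl
  · intro z hz
    have h6 : κ z = z := h2 z hz
    calc (κ⁻¹ : RS ≃ₜ RS) z = (κ⁻¹ : RS ≃ₜ RS) (κ z) := by rw [h6]
      _ = z := by rw [← Homeomorph.mul_apply, inv_mul_cancel]; rfl

theorem mem_nhds_o {V : Set RS} : V ∈ 𝓝 o ↔ ∃ r > 0, ∀ z : ℂ, ‖z‖ < r → (z : RS) ∈ V := by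
  rw [nhds_o, mem_map, Metric.mem_nhds_iff]
  constructor
  · rintro ⟨r, hr, h⟩
    exact ⟨r, hr, fun z hz => h (mem_ball_zero_iff.2 hz)⟩
  · rintro ⟨r, hr, h⟩
    exact ⟨r, hr, fun z hz => h z (mem_ball_zero_iff.1 hz)⟩

theorem eventually_o {p : RS → Prop} : (∀ᶠ z in 𝓝 o, p z) ↔ ∀ᶠ z : ℂ in 𝓝 0, p (z : RS) := by
  rw [nhds_o, eventually_map]

end Pool.Agent.H44R3
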