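import Pool.Agent.H44R3.Annulus

/-!
Boundary extension of self-homeomorphisms of the open disc with small crosscut oscillation.
-/

open Set Filter Topology Metric
open scoped Real

namespace Pool.Agent.H44R3

/-- A pair of inverse self-homeomorphisms of the open unit disc fixing `0`, the first of which has
small oscillation on small crosscuts. -/
structure CD (χ ψ : ℂ → ℂ) : Prop where
  cχ : ContinuousOn χ (ball 0 1)
  cψ : ContinuousOn ψ (ball 0 1)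
  mχ : MapsTo χ (ball 0 1) (ball 0 1)
  mψ : MapsTo ψ (ball 0 1) (ball 0 1)
  l : ∀ z ∈ ball (0 : ℂ) 1, ψ (χ z) = z
  r : ∀ z ∈ ball (0 : ℂ) 1, χ (ψ z) = z
  z : χ 0 = 0
  cross : ∀ ζ : ℂ, ‖ζ‖ = 1 → ∀ ε : ℝ, 0 < ε → ∀ r₀ : ℝ, 0 < r₀ → ∃ r, 0 < r ∧ r < r₀ ∧
    ∀ z ∈ ball (0 : ℂ) 1, ∀ w ∈ ball (0 : ℂ) 1, ‖z - ζ‖ = r → ‖w - ζ‖ = r → ‖χ z - χ w‖ < ε

variable {χ ψ : ℂ → ℂ}

theorem CD.z' (h : CD χ ψ) : ψ 0 = 0 := by
  have := h.l 0 (by simp)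
  rwa [h.z] at this

theorem CD.proper (h : CD χ ψ) {ρ : ℝ} (hρ0 : 0 ≤ ρ) (hρ : ρ < 1) :
    ∃ r₁ < 1, ∀ z ∈ ball (0 : ℂ) 1, r₁ < ‖z‖ → ρ < ‖χ z‖ := by
  have hsub : closedBall (0 : ℂ) ρ ⊆ ball 0 1 := closedBall_subset_ball hρ
  have hcomp : IsCompact (closedBall (0 : ℂ) ρ) := isCompact_closedBall _ _
  have hc : ContinuousOn (fun z => ‖ψ z‖) (closedBall (0 : ℂ) ρ) := (h.cψ.mono hsub).norm
  obtain ⟨x, hx, hmax⟩ := hcomp.exists_isMaxOn ⟨0, by simpa using hρ0⟩ hc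
  refine ⟨‖ψ x‖, mem_ball_zero_iff.1 (h.mψ (hsub hx)), fun z hz hr => ?_⟩
  by_contra hcon
  push Not at hcon
  have h1 := hmax (show χ z ∈ closedBall (0 : ℂ) ρ from mem_closedBall_zero_iff.2 hcon)
  simp only [h.l z hz, mem_ofPred_eq] at h1
  linarith

theorem isPreconnected_cone {ρ η : ℝ} {u : ℂ} (hρ : 0 < ρ) :
    IsPreconnected {z : ℂ | z ∈ ball (0 : ℂ) 1 ∧ (‖z‖ < ρ ∨ η < ‖z / ‖z‖ - u‖)} := by
  have h0 : (0 : ℂ) ∈ {z : ℂ | z ∈ ball (0 : ℂ) 1 ∧ (‖z‖ < ρ ∨ η < ‖z / ‖z‖ - u‖)} := by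
    refine ⟨by simp, Or.inl (by simpa using hρ)⟩
  have hs : StarConvex ℝ (0 : ℂ) {z : ℂ | z ∈ ball (0 : ℂ) 1 ∧ (‖z‖ < ρ ∨ η < ‖z / ‖z‖ - u‖)} := by
    rw [starConvex_zero_iff]
    rintro z ⟨hz1, hz2⟩ t ht0 ht1
    rw [mem_ball_zero_iff] at hz1
    have hn : ‖t • z‖ ≤ ‖z‖ := by
      rw [norm_smul, Real.norm_of_nonneg ht0]
      nlinarith [norm_nonneg z]
    refine ⟨mem_ball_zero_iff.2 (hn.trans_lt hz1), ?_⟩
    rcases hz2 with h | h
    · exact Or.inl (hn.trans_lt h)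
    · rcases ht0.eq_or_lt with rfl | ht
      · left
        simpa using hρ
      · right
        have : (t • z) / (‖t • z‖ : ℂ) = z / ‖z‖ := by
          have htc : (t : ℂ) ≠ 0 := by exact_mod_cast ht.ne'
          rw [norm_smul, Real.norm_of_nonneg ht0, Complex.real_smul]
          push_cast
          rw [mul_div_mul_left _ _ htc]
        rw [this]
        exact h
  exact (hs.isPathConnected h0).isConnected.isPreconnected

theorem CD.osc (h : CD χ ψ) {ζ : ℂ} (hζ : ‖ζ‖ = 1) {ε : ℝ} (hε : 0 < ε) :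
    ∃ r > 0, ∀ z ∈ ball (0 : ℂ) 1, ∀ w ∈ ball (0 : ℂ) 1, ‖z - ζ‖ < r → ‖w - ζ‖ < r →
      ‖χ z - χ w‖ < ε := by
  set η : ℝ := min (ε / 8) (1 / 8) with hη
  have hη0 : 0 < η := by positivity
  have hηε : η ≤ ε / 8 := min_le_left _ _
  have hη1 : η ≤ 1 / 8 := min_le_right _ _
  set ρ : ℝ := 1 - η / 4 with hρ
  have hρ0 : 0 < ρ := by linarith
  have hρ1 : ρ < 1 := by linarith
  obtain ⟨r₁, hr₁, hp⟩ := h.proper hρ0.le hρ1
  obtain ⟨r, hr0, hrr, hc⟩ := h.cross ζ hζ (η / 4) (by positivity) (min (1 - r₁) (1 / 2))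
    (lt_min (by linarith) (by norm_num))
  have hr1 : r < 1 - r₁ := hrr.trans_le (min_le_left _ _)
  have hr2 : r < 1 / 2 := hrr.trans_le (min_le_right _ _)
  have hζ0 : ζ ≠ 0 := by
    rintro rfl
    simp at hζ
  -- the base point of the crosscut
  set z₀ : ℂ := (1 - r : ℝ) * ζ with hz₀
  have hz₀b : z₀ ∈ ball (0 : ℂ) 1 := by
    rw [mem_ball_zero_iff, hz₀, norm_mul, hζ, mul_one, Complex.norm_real,
      Real.norm_of_nonneg (by linarith)]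
    linarith
  have hz₀r : ‖z₀ - ζ‖ = r := by
    have : z₀ - ζ = ((-r : ℝ) : ℂ) * ζ := by rw [hz₀]; push_cast; ring
    rw [this, norm_mul, hζ, mul_one, Complex.norm_real, norm_neg, Real.norm_of_nonneg hr0.le]
  set c : ℂ := χ z₀ with hcdef
  set u : ℂ := c / ‖c‖ with hu
  have hbig : ∀ z ∈ ball (0 : ℂ) 1, ‖z - ζ‖ = r → ρ < ‖χ z‖ := by
    intro z hz hzr
    apply hp z hz
    have : ‖ζ‖ ≤ ‖z‖ + ‖z - ζ‖ := by
      calc ‖ζ‖ = ‖z - (z - ζ)‖ := by congr 1; ring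
        _ ≤ _ := norm_sub_le _ _
    rw [hζ, hzr] at this
    linarith
  have hnorm : ∀ x : ℂ, x ≠ 0 → ‖x‖ ≤ 1 → ‖x - x / ‖x‖‖ = 1 - ‖x‖ := by
    intro x hx hx1
    have hxn : (0 : ℝ) < ‖x‖ := norm_pos_iff.2 hx
    have hxc : ((‖x‖ : ℝ) : ℂ) ≠ 0 := by exact_mod_cast hxn.ne'
    have : x - x / ‖x‖ = ((‖x‖ - 1 : ℝ) : ℂ) * (x / ‖x‖) := by
      push_cast
      field_simp
    rw [this, norm_mul, norm_div, Complex.norm_real, Complex.norm_real, norm_norm,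
      div_self hxn.ne', mul_one, Real.norm_eq_abs, abs_of_nonpos (by linarith)]
    ring
  have hcb : ‖c‖ < 1 := mem_ball_zero_iff.1 (h.mχ hz₀b)
  have hcρ : ρ < ‖c‖ := hbig z₀ hz₀b hz₀r
  have hc0 : c ≠ 0 := by
    rw [← norm_pos_iff]
    linarith
  have hU : ∀ z ∈ ball (0 : ℂ) 1, ‖z - ζ‖ = r → ‖χ z / ‖χ z‖ - u‖ ≤ η := by
    intro z hz hzr
    have h1 := hbig z hz hzr
    have h2 : ‖χ z‖ < 1 := mem_ball_zero_iff.1 (h.mχ hz)
    have h3 : χ z ≠ 0 := by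
      rw [← norm_pos_iff]
      linarith
    have h4 := hc z hz z₀ hz₀b hzr hz₀r
    have h5 := hnorm (χ z) h3 h2.le
    have h6 := hnorm c hc0 hcb.le
    have h7 : χ z / ‖χ z‖ - u = -(χ z - χ z / ‖χ z‖) + (χ z - c) + (c - c / ‖c‖) := by
      rw [hu]; ring
    rw [h7]
    calc ‖-(χ z - χ z / ‖χ z‖) + (χ z - c) + (c - c / ‖c‖)‖
        ≤ ‖-(χ z - χ z / ‖χ z‖)‖ + ‖χ z - c‖ + ‖c - c / ‖c‖‖ := norm_add₃_le
      _ ≤ η := by
          rw [norm_neg, h5, h6]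
          linarith
  set S : Set ℂ := {z : ℂ | z ∈ ball (0 : ℂ) 1 ∧ (‖z‖ < ρ ∨ η < ‖z / ‖z‖ - u‖)} with hS
  have hSb : S ⊆ ball (0 : ℂ) 1 := fun z hz => hz.1
  have hpre : IsPreconnected (ψ '' S) := (isPreconnected_cone hρ0).image ψ (h.cψ.mono hSb)
  have h0S : (0 : ℂ) ∈ S := ⟨by simp, Or.inl (by simpa using hρ0)⟩
  have hcover : ψ '' S ⊆ {z | ‖z - ζ‖ < r} ∪ {z | r < ‖z - ζ‖} := by
    rintro _ ⟨e, he, rfl⟩
    rcases lt_trichotomy ‖ψ e - ζ‖ r with h1 | h1 | h1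
    · exact Or.inl h1
    · exfalso
      have h2 := h.mψ (hSb he)
      have h3 := hbig _ h2 h1
      have h4 := hU _ h2 h1
      rw [h.r e (hSb he)] at h3 h4
      rcases he.2 with h5 | h5 <;> linarith
    · exact Or.inr h1
  have hsub : ψ '' S ⊆ {z | r < ‖z - ζ‖} := by
    have ho1 : IsOpen {z : ℂ | ‖z - ζ‖ < r} := isOpen_lt (by fun_prop) continuous_const
    have ho2 : IsOpen {z : ℂ | r < ‖z - ζ‖} := isOpen_lt continuous_const (by fun_prop)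
    have hdisj : Disjoint {z : ℂ | ‖z - ζ‖ < r} {z : ℂ | r < ‖z - ζ‖} := by
      rw [Set.disjoint_left]
      intro z h1 h2
      have h1' : ‖z - ζ‖ < r := h1
      have h2' : r < ‖z - ζ‖ := h2
      exact lt_asymm h1' h2'
    rcases hpre.subset_or_subset ho1 ho2 hdisj hcover with h1 | h1
    · exfalso
      have h2 : (0 : ℂ) ∈ ψ '' S := ⟨0, h0S, h.z'⟩
      have h3 := h1 h2
      simp only [mem_ofPred_eq, zero_sub, norm_neg, hζ] at h3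
      linarith
    · exact h1
  have hloc : ∀ z ∈ ball (0 : ℂ) 1, ‖z - ζ‖ < r → ‖χ z - u‖ ≤ 2 * η := by
    intro z hz hzr
    have h1 : χ z ∉ S := by
      intro hcon
      have h2 : z ∈ ψ '' S := ⟨χ z, hcon, h.l z hz⟩
      have h3 : r < ‖z - ζ‖ := hsub h2
      linarith
    have h2 : χ z ∈ ball (0 : ℂ) 1 := h.mχ hz
    have h3 : ρ ≤ ‖χ z‖ ∧ ‖χ z / ‖χ z‖ - u‖ ≤ η := by
      constructor
      · by_contra hcon
        exact h1 ⟨h2, Or.inl (not_le.1 hcon)⟩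
      · by_contra hcon
        exact h1 ⟨h2, Or.inr (not_le.1 hcon)⟩
    have h4 : χ z ≠ 0 := by
      rw [← norm_pos_iff]
      linarith [h3.1]
    have h5 := hnorm (χ z) h4 (mem_ball_zero_iff.1 h2).le
    have h6 : χ z - u = (χ z - χ z / ‖χ z‖) + (χ z / ‖χ z‖ - u) := by ring
    rw [h6]
    refine (norm_add_le _ _).trans ?_
    rw [h5]
    linarith [h3.1, h3.2]
  refine ⟨r, hr0, fun z hz w hw hzr hwr => ?_⟩
  have h1 := hloc z hz hzr
  have h2 := hloc w hw hwr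
  have h3 : χ z - χ w = (χ z - u) - (χ w - u) := by ring
  rw [h3]
  refine (norm_sub_le _ _).trans_lt ?_
  linarith

theorem closure_ball' : closure (ball (0 : ℂ) 1) = closedBall 0 1 := closure_ball 0 one_ne_zero

theorem CD.exists_lim (h : CD χ ψ) {ζ : ℂ} (hζ : ζ ∈ closedBall (0 : ℂ) 1) :
    ∃ y, Tendsto χ (𝓝[ball 0 1] ζ) (𝓝 y) := by
  rcases (mem_closedBall_zero_iff.1 hζ).lt_or_eq with h1 | h1
  · exact ⟨χ ζ, h.cχ ζ (mem_ball_zero_iff.2 h1)⟩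
  · have hne : (𝓝[ball 0 1] ζ).NeBot := by
      rw [← mem_closure_iff_nhdsWithin_neBot, closure_ball']
      exact hζ
    have hcau : Cauchy (map χ (𝓝[ball 0 1] ζ)) := by
      rw [Metric.cauchy_iff]
      refine ⟨hne.map χ, fun ε hε => ?_⟩
      obtain ⟨r, hr, hosc⟩ := h.osc h1 hε
      refine ⟨χ '' (ball 0 1 ∩ ball ζ r), image_mem_map
        (inter_mem_nhdsWithin _ (ball_mem_nhds ζ hr)), ?_⟩
      rintro _ ⟨z, hz, rfl⟩ _ ⟨w, hw, rfl⟩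
      rw [dist_eq_norm]
      exact hosc z hz.1 w hw.1 (mem_ball_iff_norm.1 hz.2) (mem_ball_iff_norm.1 hw.2)
    obtain ⟨y, hy⟩ := CompleteSpace.complete hcau
    exact ⟨y, hy⟩

/-- The boundary extension. -/
noncomputable def bar (χ : ℂ → ℂ) : ℂ → ℂ := extendFrom (ball 0 1) χ

theorem CD.bar_cont (h : CD χ ψ) : ContinuousOn (bar χ) (closedBall 0 1) :=
  continuousOn_extendFrom closure_ball'.ge fun _ hx => h.exists_lim hx

theorem CD.bar_eq (h : CD χ ψ) {z : ℂ} (hz : z ∈ ball (0 : ℂ) 1) : bar χ z = χ z :=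
  extendFrom_extends h.cχ z hz

theorem CD.bar_le (h : CD χ ψ) {z : ℂ} (hz : z ∈ closedBall (0 : ℂ) 1) : ‖bar χ z‖ ≤ 1 := by
  have h1 : MapsTo (bar χ) (closure (ball 0 1)) (closedBall 0 1) := by
    rw [← isClosed_closedBall.closure_eq]
    refine MapsTo.closure_of_continuousOn ?_ ?_
    · intro z hz
      rw [h.bar_eq hz]
      exact ball_subset_closedBall (h.mχ hz)
    · rw [closure_ball']
      exact h.bar_cont
  rw [closure_ball'] at h1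
  exact mem_closedBall_zero_iff.1 (h1 hz)

theorem CD.bar_sphere (h : CD χ ψ) {z : ℂ} (hz : ‖z‖ = 1) : ‖bar χ z‖ = 1 := by
  refine le_antisymm (h.bar_le (mem_closedBall_zero_iff.2 hz.le)) ?_
  by_contra hcon
  push Not at hcon
  obtain ⟨ρ, hρ1, hρ2⟩ := exists_between hcon
  obtain ⟨r₁, hr₁, hp⟩ := h.proper ((norm_nonneg _).trans hρ1.le) hρ2
  have hmem : z ∈ closure (ball (0 : ℂ) 1) := by
    rw [closure_ball']
    exact mem_closedBall_zero_iff.2 hz.le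
  have hne : (𝓝[ball 0 1] z).NeBot := mem_closure_iff_nhdsWithin_neBot.1 hmem
  have ht : Tendsto (fun x => ‖bar χ x‖) (𝓝[ball 0 1] z) (𝓝 ‖bar χ z‖) :=
    ((h.bar_cont z (mem_closedBall_zero_iff.2 hz.le)).mono ball_subset_closedBall).norm
  have h1 : ∀ᶠ x in 𝓝[ball (0 : ℂ) 1] z, ‖bar χ x‖ < ρ := ht.eventually (gt_mem_nhds hρ1)
  have h2 : ∀ᶠ x in 𝓝[ball (0 : ℂ) 1] z, r₁ < ‖x‖ := by
    apply mem_nhdsWithin_of_mem_nhds
    apply (isOpen_lt continuous_const continuous_norm).mem_nhds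
    show r₁ < ‖z‖
    rw [hz]
    exact hr₁
  have h3 : ∀ᶠ x in 𝓝[ball (0 : ℂ) 1] z, x ∈ ball (0 : ℂ) 1 := self_mem_nhdsWithin
  obtain ⟨x, hx1, hx2, hx3⟩ := (h1.and (h2.and h3)).exists
  have := hp x hx3 hx2
  rw [h.bar_eq hx3] at hx1
  linarith

theorem CD.bar_image (h : CD χ ψ) : bar χ '' closedBall 0 1 = closedBall 0 1 := by
  apply Subset.antisymm
  · rintro _ ⟨z, hz, rfl⟩
    exact mem_closedBall_zero_iff.2 (h.bar_le hz)
  · have hcl : IsClosed (bar χ '' closedBall 0 1) :=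
      ((isCompact_closedBall (0 : ℂ) 1).image_of_continuousOn h.bar_cont).isClosed
    rw [← closure_ball']
    refine closure_minimal ?_ (by rwa [closure_ball'])
    intro z hz
    refine ⟨ψ z, ?_, ?_⟩
    · exact subset_closure (h.mψ hz)
    · rw [h.bar_eq (h.mψ hz), h.r z hz]

end Pool.Agent.H44R3
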