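import Pool.Agent.H44R3.Loc

/-!
Every homeomorphism of the sphere in the path component of the identity has good local germs.
-/

open Set Filter Topology Metric
open scoped Real OnePoint unitInterval

namespace Pool.Agent.H44R3

/-- The compact-open topology on the homeomorphism group of a space. -/
@[instance_reducible] def homeoTop (X : Type*) [TopologicalSpace X] : TopologicalSpace (X ≃ₜ X) :=
  TopologicalSpace.induced (fun h : X ≃ₜ X => (h : C(X, X))) inferInstance

/-- The homeomorphism `h` lies in the path component of the identity. -/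
def InIdComp {X : Type*} [TopologicalSpace X] (h : X ≃ₜ X) : Prop :=
  @Joined (X ≃ₜ X) (homeoTop X) 1 h

/-- A homeomorphism of the sphere moving `p` to `0`. -/
noncomputable def mv (p : RS) : RS ≃ₜ RS := p.elim inv (fun c => trans (-c))

@[simp] theorem mv_coe (c : ℂ) : mv (c : RS) = trans (-c) := rfl
@[simp] theorem mv_infty : mv ∞ = inv := rfl

theorem mv_self (p : RS) : mv p p = o := by
  induction p using OnePoint.rec with
  | infty => rw [mv_infty, inv_infty, o_def]
  | coe c => rw [mv_coe, trans_coe, add_neg_cancel, o_def]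

theorem mv_symm_o (p : RS) : (mv p)⁻¹ o = p := by
  rw [← mv_self p, ← Homeomorph.mul_apply, inv_mul_cancel]
  rfl

/-- The germ of `h` at `p`, moved to `0` at both ends, is good. -/
def Loc (h : RS ≃ₜ RS) (p : RS) : Prop := Germ ((mv (h p)) * h * (mv p)⁻¹ : RS ≃ₜ RS)

theorem loc_one (p : RS) : Loc 1 p := by
  unfold Loc
  have : mv ((1 : RS ≃ₜ RS) p) * 1 * (mv p)⁻¹ = 1 := by
    rw [Homeomorph.one_apply, mul_one, mul_inv_cancel]
  rw [this]
  exact germ_id

theorem Loc.comp {h₁ h₂ : RS ≃ₜ RS} {p : RS} (H1 : Loc h₁ (h₂ p)) (H2 : Loc h₂ p) :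
    Loc (h₁ * h₂) p := by
  unfold Loc at *
  have : mv ((h₁ * h₂) p) * (h₁ * h₂) * (mv p)⁻¹ =
      (mv (h₁ (h₂ p)) * h₁ * (mv (h₂ p))⁻¹) * (mv (h₂ p) * h₂ * (mv p)⁻¹) := by
    rw [Homeomorph.mul_apply]
    group
  rw [this]
  exact H1.comp H2

theorem Loc.inv {h : RS ≃ₜ RS} {p : RS} (H : Loc h p) : Loc h⁻¹ (h p) := by
  unfold Loc at *
  have h1 : (h⁻¹ : RS ≃ₜ RS) (h p) = p := by
    rw [← Homeomorph.mul_apply, inv_mul_cancel]; rfl
  have : mv ((h⁻¹ : RS ≃ₜ RS) (h p)) * h⁻¹ * (mv (h p))⁻¹ =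
      (mv (h p) * h * (mv p)⁻¹)⁻¹ := by
    rw [h1]
    group
  rw [this]
  exact Germ.inv H

/-- Closeness to the identity on the unit disc. -/
def Close (g : RS ≃ₜ RS) : Prop :=
  ∀ z : ℂ, ‖z‖ ≤ 1 → ∃ w : ℂ, g z = (w : RS) ∧ ‖w - z‖ < 1 / 4

theorem loc_of_close {g : RS ≃ₜ RS} {q : RS} (hc : Close (mv q * g * (mv q)⁻¹)) : Loc g q := by
  obtain ⟨c, hc0, -⟩ := hc 0 (by simp)
  have hgerm := germ_near (mv q * g * (mv q)⁻¹) hc (c := c) hc0
  have hc1 : mv q (g q) = (c : RS) := by
    have h1 := hc0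
    rw [Homeomorph.mul_apply, Homeomorph.mul_apply, ← o_def, mv_symm_o] at h1
    exact h1
  unfold Loc
  induction q using OnePoint.rec with
  | infty =>
    rw [mv_infty] at hc1 hgerm ⊢
    have hg : g ∞ = inv (c : RS) := by rw [← hc1, inv_inv_apply]
    by_cases h0 : c = 0
    · subst h0
      rw [inv_zero] at hg
      rw [hg, mv_infty]
      refine hgerm.congr (Eventually.of_forall fun z => ?_)
      show (inv * g * inv⁻¹ : RS ≃ₜ RS) z = trans (-0) ((inv * g * inv⁻¹ : RS ≃ₜ RS) z)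
      rw [neg_zero]
      generalize (inv * g * inv⁻¹ : RS ≃ₜ RS) z = y
      induction y using OnePoint.rec with
      | infty => rfl
      | coe y => rw [trans_coe, add_zero]
    · rw [inv_coe h0] at hg
      rw [hg, mv_coe]
      have hder : HasStrictDerivAt (fun w : ℂ => (w + c)⁻¹ - c⁻¹) (-(1 / c ^ 2)) 0 := by
        have h1 : HasStrictDerivAt (fun w : ℂ => w + c) 1 0 := (hasStrictDerivAt_id 0).add_const c
        have h2 : HasStrictDerivAt (fun y : ℂ => y⁻¹) (-(c ^ 2)⁻¹) (0 + c) := by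
          rw [zero_add]
          exact hasStrictDerivAt_inv h0
        have h3 := (h2.comp (0 : ℂ) h1).sub_const c⁻¹
        rw [mul_one] at h3
        rw [one_div]
        exact h3
      have hG : Germ (lift (fun w : ℂ => (w + c)⁻¹ - c⁻¹)) :=
        germ_of_strictDeriv (neg_ne_zero.2 (one_div_ne_zero (pow_ne_zero 2 h0))) (by simp) hder
      refine (hG.comp hgerm).congr ?_
      have hev : ∀ᶠ z in 𝓝 o, (inv * g * inv⁻¹ : RS ≃ₜ RS) z ≠ ∞ ∧
          (inv * g * inv⁻¹ : RS ≃ₜ RS) z ≠ ((0 : ℂ) : RS) := by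
        have hcont := (inv * g * inv⁻¹ : RS ≃ₜ RS).continuous.tendsto o
        have hval : (inv * g * inv⁻¹ : RS ≃ₜ RS) o = (c : RS) := hc0
        rw [hval] at hcont
        refine hcont.eventually (IsOpen.mem_nhds (isOpen_ne.inter isOpen_ne) ⟨?_, ?_⟩)
        · exact OnePoint.coe_ne_infty c
        · rw [mem_ofPred_eq, Ne, OnePoint.coe_eq_coe]
          exact h0
      filter_upwards [hev] with z hz
      obtain ⟨y, hy⟩ := OnePoint.ne_infty_iff_exists.1 hz.1
      have hy0 : y ≠ 0 := by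
        rintro rfl
        exact hz.2 hy.symm
      have h5 : (trans (-c⁻¹) * g * inv⁻¹ : RS ≃ₜ RS) z =
          trans (-c⁻¹) (inv ((inv * g * inv⁻¹ : RS ≃ₜ RS) z)) := by
        simp only [Homeomorph.mul_apply]
        rw [inv_inv_apply]
      rw [h5, ← hy, inv_coe hy0, trans_coe, trans_coe, lift_coe, neg_add_cancel_right,
        sub_eq_add_neg]
  | coe a =>
    rw [mv_coe] at hc1 hgerm ⊢
    have hg : g (a : RS) = ((c + a : ℂ) : RS) := by
      have h1 : trans a (trans (-a) (g (a : RS))) = trans a (c : RS) := by rw [hc1]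
      rw [trans_coe] at h1
      rw [← h1]
      generalize g (a : RS) = y
      induction y using OnePoint.rec with
      | infty => rfl
      | coe y => rw [trans_coe, trans_coe, neg_add_cancel_right]
    rw [hg, mv_coe]
    refine hgerm.congr (Eventually.of_forall fun z => ?_)
    simp only [Homeomorph.mul_apply]
    generalize g ((trans (-a))⁻¹ z) = y
    induction y using OnePoint.rec with
    | infty => rfl
    | coe y =>
      rw [trans_coe, trans_coe, trans_coe]
      congr 1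
      ring

theorem isOpen_closeSet : IsOpen {p : ℂ × RS | ∃ w : ℂ, p.2 = (w : RS) ∧ ‖w - p.1‖ < 1 / 4} := by
  have h1 : IsOpen {p : ℂ × ℂ | ‖p.2 - p.1‖ < 1 / 4} := isOpen_lt (by fun_prop) continuous_const
  have h2 : IsOpenMap (fun p : ℂ × ℂ => (p.1, (p.2 : RS))) :=
    IsOpenMap.id.prodMap OnePoint.isOpenMap_coe
  have h3 : {p : ℂ × RS | ∃ w : ℂ, p.2 = (w : RS) ∧ ‖w - p.1‖ < 1 / 4} =
      (fun p : ℂ × ℂ => (p.1, (p.2 : RS))) '' {p : ℂ × ℂ | ‖p.2 - p.1‖ < 1 / 4} := by
    ext ⟨z, y⟩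
    constructor
    · rintro ⟨w, hw1, hw2⟩
      exact ⟨(z, w), hw2, by simp only [Prod.mk.injEq, true_and]; exact hw1.symm⟩
    · rintro ⟨⟨z', w⟩, hw, h⟩
      simp only [Prod.mk.injEq] at h
      obtain ⟨rfl, rfl⟩ := h
      exact ⟨w, rfl, hw⟩
  rw [h3]
  exact h2 _ h1

/-- A family of homeomorphisms depending continuously on a parameter is close to the identity near
a parameter where it is the identity. -/
theorem eventually_loc {T : Type*} [TopologicalSpace T] (g : T → (RS ≃ₜ RS)) (t₀ : T)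
    (hcont : Continuous fun p : T × RS => g p.1 p.2) (h1 : g t₀ = 1) (q : RS) :
    ∀ᶠ t in 𝓝 t₀, Loc (g t) q := by
  have h2 : ∀ᶠ t in 𝓝 t₀, ∀ z ∈ closedBall (0 : ℂ) 1,
      ∃ w : ℂ, (mv q * g t * (mv q)⁻¹ : RS ≃ₜ RS) (z : RS) = (w : RS) ∧ ‖w - z‖ < 1 / 4 := by
    apply (isCompact_closedBall (0 : ℂ) 1).eventually_forall_of_forall_eventually
    intro z _
    have hc : Continuous (fun p : T × ℂ => (p.2, (mv q * g p.1 * (mv q)⁻¹ : RS ≃ₜ RS) (p.2 : RS))) := by
      refine continuous_snd.prodMk ?_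
      have : (fun p : T × ℂ => (mv q * g p.1 * (mv q)⁻¹ : RS ≃ₜ RS) (p.2 : RS)) =
          fun p : T × ℂ => mv q (g p.1 ((mv q)⁻¹ (p.2 : RS))) := rfl
      rw [this]
      refine (mv q).continuous.comp ?_
      exact hcont.comp (continuous_fst.prodMk ((mv q)⁻¹.continuous.comp
        (OnePoint.continuous_coe.comp continuous_snd)))
    have ho := isOpen_closeSet.preimage hc
    refine ho.mem_nhds ?_
    refine ⟨z, ?_, by simp⟩
    show (mv q * g t₀ * (mv q)⁻¹ : RS ≃ₜ RS) (z : RS) = (z : RS)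
    rw [h1, mul_one, mul_inv_cancel]
    rfl
  filter_upwards [h2] with t ht
  exact loc_of_close fun z hz => ht z (mem_closedBall_zero_iff.2 hz)

theorem continuous_of_path {X : Type*} [TopologicalSpace X] [LocallyCompactSpace X] {h : X ≃ₜ X}
    (γ : @Path (X ≃ₜ X) (homeoTop X) 1 h) :
    Continuous fun p : I × X => (@DFunLike.coe _ _ _ (@Path.instFunLike _ (homeoTop X) 1 h) γ p.1) p.2 := by
  let _ := homeoTop X
  have h1 : Continuous (fun h : X ≃ₜ X => (h : C(X, X))) := continuous_induced_dom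
  have h2 : Continuous (fun t : I => ((γ t : X ≃ₜ X) : C(X, X))) := h1.comp γ.continuous
  have h3 : Continuous (fun p : I × X => ((γ p.1 : X ≃ₜ X) : C(X, X)) p.2) :=
    (h2.comp continuous_fst).eval continuous_snd
  exact h3

theorem loc_of_inIdComp {h : RS ≃ₜ RS} (hh : InIdComp h) (p : RS) : Loc h p := by
  let _ := homeoTop RS
  obtain ⟨γ⟩ := hh
  have hF : Continuous fun q : I × RS => (γ q.1) q.2 := continuous_of_path γ
  set S : Set I := {t | Loc (γ t) p} with hS
  have key : ∀ t₀ : I, ∀ᶠ t in 𝓝 t₀, (Loc (γ t) p ↔ Loc (γ t₀) p) := by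
    intro t₀
    have h1 : Continuous fun q : I × RS => (γ q.1 * (γ t₀)⁻¹ : RS ≃ₜ RS) q.2 := by
      have : (fun q : I × RS => (γ q.1 * (γ t₀)⁻¹ : RS ≃ₜ RS) q.2) =
          fun q : I × RS => γ q.1 ((γ t₀)⁻¹ q.2) := rfl
      rw [this]
      exact hF.comp (continuous_fst.prodMk ((γ t₀)⁻¹.continuous.comp continuous_snd))
    have h2 := eventually_loc (fun t => γ t * (γ t₀)⁻¹) t₀ h1 (mul_inv_cancel _) (γ t₀ p)
    filter_upwards [h2] with t ht
    constructor
    · intro h3
      have h4 := ht.inv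
      have e1 : (γ t * (γ t₀)⁻¹ : RS ≃ₜ RS) (γ t₀ p) = γ t p := by
        rw [← Homeomorph.mul_apply, inv_mul_cancel_right]
      rw [e1] at h4
      have h5 := h4.comp h3
      rwa [mul_inv_rev, inv_inv, mul_assoc, inv_mul_cancel, mul_one] at h5
    · intro h3
      have h5 := ht.comp h3
      rwa [inv_mul_cancel_right] at h5
  have hclopen : IsClopen S := by
    constructor
    · rw [← isOpen_compl_iff, isOpen_iff_mem_nhds]
      intro t₀ ht₀
      filter_upwards [key t₀] with t ht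
      intro hcon
      exact ht₀ (ht.1 hcon)
    · rw [isOpen_iff_mem_nhds]
      intro t₀ ht₀
      filter_upwards [key t₀] with t ht
      exact ht.2 ht₀
  have huniv := hclopen.eq_univ ⟨0, by
    show Loc (γ 0) p
    rw [γ.source]
    exact loc_one p⟩
  have h1 : (1 : I) ∈ S := by rw [huniv]; trivial
  have h2 : Loc (γ 1) p := h1
  rwa [γ.target] at h2

end Pool.Agent.H44R3
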