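import Pool.Agent.H44R3.Basic

/-!
Small Lipschitz perturbations of the identity, cut-offs, and the germs they provide.
-/

open Set Filter Topology Metric
open scoped OnePoint NNReal

namespace Pool.Agent.H44R3

/-- A perturbation of the identity by a contraction is a homeomorphism. -/
theorem exists_homeo_of_lip {e : ℂ → ℂ} {c : ℝ} (hc0 : 0 ≤ c) (hc : c < 1)
    (he : ∀ z w, ‖e z - e w‖ ≤ c * ‖z - w‖) : ∃ κ : ℂ ≃ₜ ℂ, ∀ z, κ z = z + e z := by
  have h : ApproximatesLinearOn (fun z => z + e z)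
      ((ContinuousLinearEquiv.refl ℂ ℂ : ℂ ≃L[ℂ] ℂ) : ℂ →L[ℂ] ℂ) univ (⟨c, hc0⟩ : ℝ≥0) := by
    intro x _ y _
    have : x + e x - (y + e y) - ((ContinuousLinearEquiv.refl ℂ ℂ : ℂ ≃L[ℂ] ℂ) : ℂ →L[ℂ] ℂ) (x - y)
        = e x - e y := by
      simp
      ring
    rw [this]
    exact he x y
  refine ⟨h.toHomeomorph _ (Or.inr ?_), fun z => rfl⟩
  have h1 : ‖((ContinuousLinearEquiv.refl ℂ ℂ).symm : ℂ →L[ℂ] ℂ)‖₊ = 1 := by
    apply NNReal.eq
    have : ((ContinuousLinearEquiv.refl ℂ ℂ).symm : ℂ →L[ℂ] ℂ) = ContinuousLinearMap.id ℂ ℂ := rfl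
    rw [this]
    simp
  rw [h1, inv_one]
  exact_mod_cast hc

/-- The cut-off factor. -/
noncomputable def cutf (δ : ℝ) (z : ℂ) : ℝ := max 0 (min 1 (2 - ‖z‖ / δ))

theorem cutf_nonneg (δ : ℝ) (z : ℂ) : 0 ≤ cutf δ z := le_max_left _ _
theorem cutf_le_one (δ : ℝ) (z : ℂ) : cutf δ z ≤ 1 := max_le zero_le_one (min_le_left _ _)

theorem cutf_eq_one {δ : ℝ} (hδ : 0 < δ) {z : ℂ} (hz : ‖z‖ ≤ δ) : cutf δ z = 1 := by
  have h1 : ‖z‖ / δ ≤ 1 := (div_le_one hδ).2 hz
  rw [cutf, min_eq_left (by linarith), max_eq_right zero_le_one]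

theorem cutf_eq_zero {δ : ℝ} (hδ : 0 < δ) {z : ℂ} (hz : 2 * δ ≤ ‖z‖) : cutf δ z = 0 := by
  have h1 : 2 ≤ ‖z‖ / δ := (le_div_iff₀ hδ).2 hz
  exact max_eq_left ((min_le_right _ _).trans (by linarith))

theorem cutf_sub_le {δ : ℝ} (hδ : 0 < δ) (z w : ℂ) : |cutf δ z - cutf δ w| ≤ ‖z - w‖ / δ := by
  have h1 : |‖z‖ - ‖w‖| ≤ ‖z - w‖ := abs_norm_sub_norm_le z w
  have h2 : |cutf δ z - cutf δ w| ≤ |(2 - ‖z‖ / δ) - (2 - ‖w‖ / δ)| := by
    unfold cutf
    refine (abs_max_sub_max_le_max 0 (min 1 (2 - ‖z‖ / δ)) 0 (min 1 (2 - ‖w‖ / δ))).trans ?_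
    rw [sub_self, abs_zero]
    refine max_le (abs_nonneg _) ?_
    refine (abs_min_sub_min_le_max 1 (2 - ‖z‖ / δ) 1 (2 - ‖w‖ / δ)).trans ?_
    rw [sub_self, abs_zero]
    exact max_le (abs_nonneg _) le_rfl
  refine h2.trans ?_
  have h3 : (2 - ‖z‖ / δ) - (2 - ‖w‖ / δ) = (‖w‖ - ‖z‖) / δ := by ring
  rw [h3, abs_div, abs_of_pos hδ, abs_sub_comm]
  gcongr

/-- Cut-off of a map that is a small Lipschitz perturbation of the identity near `0`. -/
theorem exists_cut {u : ℂ → ℂ} {η δ : ℝ} (hη0 : 0 ≤ η) (hη : 3 * η < 1) (hδ : 0 < δ)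
    (hu0 : u 0 = 0)
    (hL : ∀ z w : ℂ, ‖z‖ ≤ 2 * δ → ‖w‖ ≤ 2 * δ → ‖(u z - z) - (u w - w)‖ ≤ η * ‖z - w‖) :
    ∃ κ : ℂ ≃ₜ ℂ, (∀ z, ‖z‖ ≤ δ → κ z = u z) ∧ ∀ z, 2 * δ ≤ ‖z‖ → κ z = z := by
  set e : ℂ → ℂ := fun z => (cutf δ z : ℂ) * (u z - z) with he
  have hw : ∀ z : ℂ, ‖z‖ ≤ 2 * δ → ‖u z - z‖ ≤ η * ‖z‖ := by
    intro z hz
    have := hL z 0 hz (by rw [norm_zero]; positivity)
    simpa [hu0] using this
  have hout : ∀ z : ℂ, 2 * δ ≤ ‖z‖ → e z = 0 := by
    intro z hz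
    simp only [he, cutf_eq_zero hδ hz]
    simp
  have hn : ∀ z : ℂ, ‖((cutf δ z : ℝ) : ℂ)‖ = cutf δ z := fun z => by
    rw [Complex.norm_real, Real.norm_of_nonneg (cutf_nonneg δ z)]
  have hcase : ∀ z w : ℂ, ‖z‖ ≤ 2 * δ → 2 * δ ≤ ‖w‖ → ‖e z - e w‖ ≤ 3 * η * ‖z - w‖ := by
    intro z w hz hww
    rw [hout w hww, sub_zero]
    simp only [he]
    rw [norm_mul, hn]
    have h1 : cutf δ z ≤ ‖z - w‖ / δ := by
      have := cutf_sub_le hδ z w
      rw [cutf_eq_zero hδ hww, sub_zero, abs_of_nonneg (cutf_nonneg δ z)] at this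
      exact this
    have h2 : ‖u z - z‖ ≤ η * (2 * δ) := (hw z hz).trans (by gcongr)
    calc cutf δ z * ‖u z - z‖ ≤ (‖z - w‖ / δ) * (η * (2 * δ)) := by
          gcongr
      _ = 2 * η * ‖z - w‖ := by field_simp
      _ ≤ 3 * η * ‖z - w‖ := by
          have := norm_nonneg (z - w)
          nlinarith
  have hlip : ∀ z w, ‖e z - e w‖ ≤ 3 * η * ‖z - w‖ := by
    intro z w
    rcases le_total ‖z‖ (2 * δ) with hz | hz
    · rcases le_total ‖w‖ (2 * δ) with hww | hww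
      · have h0 : e z - e w = (cutf δ z : ℂ) * ((u z - z) - (u w - w)) +
            ((cutf δ z - cutf δ w : ℝ) : ℂ) * (u w - w) := by
          simp only [he]
          push_cast
          ring
        rw [h0]
        refine (norm_add_le _ _).trans ?_
        rw [norm_mul, norm_mul, hn, Complex.norm_real, Real.norm_eq_abs]
        have h1 := cutf_sub_le hδ z w
        have h2 : ‖u w - w‖ ≤ η * (2 * δ) := (hw w hww).trans (by gcongr)
        have h3 := hL z w hz hww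
        calc cutf δ z * ‖(u z - z) - (u w - w)‖ + |cutf δ z - cutf δ w| * ‖u w - w‖
            ≤ 1 * (η * ‖z - w‖) + (‖z - w‖ / δ) * (η * (2 * δ)) := by
              gcongr
              exact cutf_le_one δ z
          _ = 3 * η * ‖z - w‖ := by field_simp; ring
      · exact hcase z w hz hww
    · rcases le_total ‖w‖ (2 * δ) with hww | hww
      · rw [norm_sub_rev, norm_sub_rev z w]
        exact hcase w z hww hz
      · rw [hout z hz, hout w hww, sub_self, norm_zero]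
        positivity
  obtain ⟨κ, hκ⟩ := exists_homeo_of_lip (by positivity) hη hlip
  refine ⟨κ, fun z hz => ?_, fun z hz => ?_⟩
  · rw [hκ]
    simp only [he, cutf_eq_one hδ hz]
    push_cast
    ring
  · rw [hκ, hout z hz, add_zero]

/-- The map of the sphere induced by a map of the plane. -/
noncomputable def lift (u : ℂ → ℂ) : RS → RS := OnePoint.map u

@[simp] theorem lift_coe (u : ℂ → ℂ) (z : ℂ) : lift u (z : RS) = ((u z : ℂ) : RS) := rfl

/-- A Lipschitz-small perturbation of the identity near `0` is a good germ. -/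
theorem germ_of_lip {u : ℂ → ℂ} {η : ℝ} (hη0 : 0 ≤ η) (hη : 3 * η < 1)
    (hu0 : u 0 = 0) (hL : ∃ r > 0, ∀ z w : ℂ, ‖z‖ < r → ‖w‖ < r →
      ‖(u z - z) - (u w - w)‖ ≤ η * ‖z - w‖) : Germ (lift u) := by
  obtain ⟨r, hr, hL⟩ := hL
  refine ⟨by rw [o_def, lift_coe, hu0], fun V hV => ?_⟩
  obtain ⟨s, hs, hsV⟩ := mem_nhds_o.1 hV
  set δ : ℝ := min r s / 3 with hδ
  have hm : 0 < min r s := lt_min hr hs
  have hδ0 : 0 < δ := by positivity
  have h2δr : 2 * δ < r := by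
    have : min r s ≤ r := min_le_left _ _
    rw [hδ]; linarith
  have h2δs : 2 * δ < s := by
    have : min r s ≤ s := min_le_right _ _
    rw [hδ]; linarith
  obtain ⟨κ, h1, h2⟩ := exists_cut hη0 hη hδ0 hu0
    (fun z w hz hw => hL z w (hz.trans_lt h2δr) (hw.trans_lt h2δr))
  refine ⟨ext κ, ?_, ?_⟩
  · rw [EventuallyEq, eventually_o]
    filter_upwards [Metric.ball_mem_nhds (0 : ℂ) hδ0] with z hz
    rw [ext_coe, lift_coe, h1 z (mem_ball_zero_iff.1 hz).le]
  · intro z hz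
    induction z using OnePoint.rec with
    | infty => rfl
    | coe z =>
      rw [ext_coe, h2 z]
      by_contra hcon
      push Not at hcon
      exact hz (hsV z (hcon.trans h2δs))

theorem germ_mul_near {a : ℂ} (ha : ‖a - 1‖ ≤ 1 / 4) : Germ (lift (fun z => a * z)) := by
  refine germ_of_lip (η := 1 / 4) (by norm_num) (by norm_num) (by simp) ⟨1, one_pos, ?_⟩
  intro z w _ _
  have : a * z - z - (a * w - w) = (a - 1) * (z - w) := by ring
  rw [this, norm_mul]
  gcongr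

theorem germ_mul {a : ℂ} (ha : a ≠ 0) : Germ (lift (fun z => a * z)) := by
  have h1 : Tendsto (fun n : ℕ => Complex.exp (Complex.log a * ((n : ℂ) + 1)⁻¹)) atTop (𝓝 1) := by
    have h2 : Tendsto (fun n : ℕ => Complex.log a * ((n : ℂ) + 1)⁻¹) atTop
        (𝓝 (Complex.log a * 0)) := by
      refine Tendsto.const_mul _ ?_
      have h3 : Tendsto (fun n : ℕ => (((n : ℝ) + 1)⁻¹ : ℝ)) atTop (𝓝 0) := by
        simpa using tendsto_one_div_add_atTop_nhds_zero_nat (𝕜 := ℝ)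
      have h4 := (Complex.continuous_ofReal.tendsto 0).comp h3
      refine (h4.congr fun n => ?_)
      simp
    rw [mul_zero] at h2
    have h5 := (Complex.continuous_exp.tendsto 0).comp h2
    rwa [Complex.exp_zero] at h5
  obtain ⟨n, hn⟩ := (h1.eventually (Metric.closedBall_mem_nhds (1 : ℂ)
    (show (0 : ℝ) < 1 / 4 by norm_num))).exists
  rw [dist_eq_norm] at hn
  set b : ℂ := Complex.exp (Complex.log a * ((n : ℂ) + 1)⁻¹) with hb
  have hbn : b ^ (n + 1) = a := by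
    rw [hb, ← Complex.exp_nat_mul]
    have hne : ((n : ℂ) + 1) ≠ 0 := by exact_mod_cast n.succ_ne_zero
    rw [show ((n + 1 : ℕ) : ℂ) * (Complex.log a * ((n : ℂ) + 1)⁻¹) = Complex.log a by
      push_cast; field_simp, Complex.exp_log ha]
  have hg : ∀ m : ℕ, Germ (lift (fun z => b ^ m * z)) := by
    intro m
    induction m with
    | zero =>
      refine germ_id.congr ?_
      rw [EventuallyEq, eventually_o]
      exact Eventually.of_forall fun z => by simp
    | succ m ih =>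
      refine ((germ_mul_near hn).comp ih).congr ?_
      rw [EventuallyEq, eventually_o]
      refine Eventually.of_forall fun z => ?_
      simp only [lift_coe]
      rw [← mul_assoc, ← pow_succ']
  have := hg (n + 1)
  rwa [hbn] at this

/-- A map with a nonzero strict derivative at `0` fixing `0` gives a good germ. -/
theorem germ_of_strictDeriv {f : ℂ → ℂ} {a : ℂ} (ha : a ≠ 0) (hf0 : f 0 = 0)
    (hf : HasStrictDerivAt f a 0) : Germ (lift f) := by
  have h1 : HasStrictDerivAt (fun z => a⁻¹ * f z) 1 0 := by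
    have := hf.const_mul a⁻¹
    rwa [inv_mul_cancel₀ ha] at this
  have h2 : Germ (lift (fun z => a⁻¹ * f z)) := by
    refine germ_of_lip (η := 1 / 4) (by norm_num) (by norm_num) (by simp [hf0]) ?_
    have h3 := (h1.hasStrictFDerivAt.isLittleO).def (show (0 : ℝ) < 1 / 4 by norm_num)
    rw [Metric.eventually_nhds_iff] at h3
    obtain ⟨ε, hε, h3⟩ := h3
    refine ⟨ε, hε, fun z w hz hw => ?_⟩
    have h4 := @h3 (z, w) (by
      rw [Prod.dist_eq, max_lt_iff]
      simpa using ⟨hz, hw⟩)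
    have h5 : a⁻¹ * f z - z - (a⁻¹ * f w - w) = a⁻¹ * f z - a⁻¹ * f w - (z - w) := by ring
    rw [h5]
    simpa using h4
  refine ((germ_mul ha).comp h2).congr ?_
  rw [EventuallyEq, eventually_o]
  refine Eventually.of_forall fun z => ?_
  simp only [lift_coe]
  rw [mul_inv_cancel_left₀ ha]

end Pool.Agent.H44R3
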