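import Pool.Agent.H44R3.Basic

/-!
A homeomorphism of the sphere with north-south dynamics, linearisable near the attracting fixed
point, is conjugate to a linear contraction.
-/

open Set Filter Topology Metric
open scoped Real OnePoint

namespace Pool.Agent.H44R3

theorem scal_pow_coe (l : ℂ) (hl : l ≠ 0) (n : ℕ) (z : ℂ) :
    ((scal l hl) ^ n : RS ≃ₜ RS) (z : RS) = ((l ^ n * z : ℂ) : RS) := by
  induction n with
  | zero => simp
  | succ n ih =>
    rw [pow_succ', Homeomorph.mul_apply, ih, scal_coe, pow_succ']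
    congr 1
    ring

theorem scal_pow_infty (l : ℂ) (hl : l ≠ 0) (n : ℕ) :
    ((scal l hl) ^ n : RS ≃ₜ RS) ∞ = ∞ := by
  induction n with
  | zero => rfl
  | succ n ih => rw [pow_succ', Homeomorph.mul_apply, ih, scal_infty]

theorem conj_lin {f c : RS ≃ₜ RS} {l : ℂ} (hl : l ≠ 0) (hl1 : ‖l‖ < 1) {U : Set RS} {r : RS}
    (hU : IsOpen U) (h1 : ∀ z ∈ U, f z ∈ U) (h2 : ∀ z ∈ U, c (f z) = scal l hl (c z))
    (h3 : ∀ z ∈ U, c z ≠ ∞) (h4 : c⁻¹ o ∈ U)
    (h5 : ∀ z, z ≠ r → ∃ n : ℕ, (f ^ n : RS ≃ₜ RS) z ∈ U)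
    (h6 : ∀ n : ℕ, (f ^ n : RS ≃ₜ RS) r ∉ U) :
    ∃ Φ : RS ≃ₜ RS, Φ * f * Φ⁻¹ = scal l hl := by
  classical
  set s : RS ≃ₜ RS := scal l hl with hs
  set Ψ : ℕ → (RS ≃ₜ RS) := fun n => (s⁻¹) ^ n * c * f ^ n with hΨ
  have hΨval : ∀ n z, Ψ n z = ((s⁻¹) ^ n : RS ≃ₜ RS) (c ((f ^ n : RS ≃ₜ RS) z)) := fun n z => rfl
  have hfs : ∀ (n : ℕ) z, (f ^ (n + 1) : RS ≃ₜ RS) z = f ((f ^ n : RS ≃ₜ RS) z) := fun n z => by
    rw [pow_succ', Homeomorph.mul_apply]
  have hfs' : ∀ (n : ℕ) z, (f ^ (n + 1) : RS ≃ₜ RS) z = (f ^ n : RS ≃ₜ RS) (f z) := fun n z => by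
    rw [pow_succ, Homeomorph.mul_apply]
  have hstep : ∀ n z, (f ^ n : RS ≃ₜ RS) z ∈ U → Ψ (n + 1) z = Ψ n z := by
    intro n z hz
    rw [hΨval, hΨval, hfs, h2 _ hz, pow_succ, Homeomorph.mul_apply, ← Homeomorph.mul_apply (s⁻¹) s,
      inv_mul_cancel, Homeomorph.one_apply]
  have hUn : ∀ n z, (f ^ n : RS ≃ₜ RS) z ∈ U → ∀ m, n ≤ m → (f ^ m : RS ≃ₜ RS) z ∈ U := by
    intro n z hz m hm
    induction m, hm using Nat.le_induction with
    | base => exact hz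
    | succ m _ ih => rw [hfs]; exact h1 _ ih
  have hmono : ∀ n z, (f ^ n : RS ≃ₜ RS) z ∈ U → ∀ m, n ≤ m → Ψ m z = Ψ n z := by
    intro n z hz m hm
    induction m, hm using Nat.le_induction with
    | base => rfl
    | succ m hm ih => rw [hstep m z (hUn n z hz m hm), ih]
  -- the conjugacy
  set Φ : RS → RS := fun z => if h : ∃ n : ℕ, (f ^ n : RS ≃ₜ RS) z ∈ U then Ψ (Nat.find h) z else ∞
    with hΦ
  have hΦeq : ∀ n z, (f ^ n : RS ≃ₜ RS) z ∈ U → Φ z = Ψ n z := by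
    intro n z hz
    have hex : ∃ n : ℕ, (f ^ n : RS ≃ₜ RS) z ∈ U := ⟨n, hz⟩
    simp only [hΦ, dif_pos hex]
    exact (hmono _ z (Nat.find_spec hex) n (Nat.find_min' hex hz)).symm
  have hΦr : Φ r = ∞ := by
    simp only [hΦ]
    rw [dif_neg]
    rintro ⟨n, hn⟩
    exact h6 n hn
  have hfr : f r = r := by
    by_contra hcon
    obtain ⟨n, hn⟩ := h5 (f r) hcon
    apply h6 (n + 1)
    rw [hfs']
    exact hn
  have hsinf : ∀ (n : ℕ) (z : RS), ((s⁻¹) ^ n : RS ≃ₜ RS) z = ∞ → z = ∞ := by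
    intro n z hz
    have h7 : (s ^ n : RS ≃ₜ RS) (((s⁻¹) ^ n : RS ≃ₜ RS) z) = z := by
      rw [← Homeomorph.mul_apply, inv_pow, mul_inv_cancel, Homeomorph.one_apply]
    rw [← h7, hz, hs, scal_pow_infty]
  have hΦfin : ∀ z, z ≠ r → Φ z ≠ ∞ := by
    intro z hz h
    obtain ⟨n, hn⟩ := h5 z hz
    rw [hΦeq n z hn, hΨval] at h
    exact h3 _ hn (hsinf n _ h)
  -- inverse description on bounded sets
  have hbdd : ∀ R : ℝ, ∃ n : ℕ, ∀ w : ℂ, ‖w‖ ≤ R → (f ^ n : RS ≃ₜ RS) ((Ψ n)⁻¹ (w : RS)) ∈ U := by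
    intro R
    have hc : ∀ᶠ w in 𝓝 o, c⁻¹ w ∈ U :=
      (c⁻¹ : RS ≃ₜ RS).continuous.tendsto o (hU.mem_nhds h4)
    obtain ⟨ρ, hρ, hcρ⟩ := mem_nhds_o.1 hc
    have ht : Tendsto (fun n : ℕ => ‖l‖ ^ n * R) atTop (𝓝 (0 * R)) :=
      (tendsto_pow_atTop_nhds_zero_of_lt_one (norm_nonneg _) hl1).mul_const R
    rw [zero_mul] at ht
    obtain ⟨n, hn⟩ := (ht.eventually (gt_mem_nhds hρ)).exists
    refine ⟨n, fun w hw => ?_⟩
    have e1 : (f ^ n : RS ≃ₜ RS) ((Ψ n)⁻¹ (w : RS)) = c⁻¹ ((s ^ n : RS ≃ₜ RS) (w : RS)) := by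
      have : (f ^ n : RS ≃ₜ RS) * (Ψ n)⁻¹ = c⁻¹ * s ^ n := by
        simp only [hΨ]
        group
      have h8 := congrArg (fun h : RS ≃ₜ RS => h (w : RS)) this
      simpa only [Homeomorph.mul_apply] using h8
    rw [e1, hs, scal_pow_coe]
    apply hcρ
    rw [norm_mul, norm_pow]
    calc ‖l‖ ^ n * ‖w‖ ≤ ‖l‖ ^ n * R := by gcongr
      _ < ρ := hn
  have hinj : Function.Injective Φ := by
    intro z w h
    by_cases hz : z = r
    · by_cases hw : w = r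
      · rw [hz, hw]
      · exfalso
        rw [hz, hΦr] at h
        exact hΦfin w hw h.symm
    · by_cases hw : w = r
      · exfalso
        rw [hw, hΦr] at h
        exact hΦfin z hz h
      · obtain ⟨n, hn⟩ := h5 z hz
        obtain ⟨m, hm⟩ := h5 w hw
        have hn' := hUn n z hn (max n m) (le_max_left _ _)
        have hm' := hUn m w hm (max n m) (le_max_right _ _)
        rw [hΦeq _ z hn', hΦeq _ w hm'] at h
        exact (Ψ (max n m)).injective h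
  have hval : ∀ (R : ℝ) (n : ℕ), (∀ w : ℂ, ‖w‖ ≤ R → (f ^ n : RS ≃ₜ RS) ((Ψ n)⁻¹ (w : RS)) ∈ U) →
      ∀ w : ℂ, ‖w‖ ≤ R → Φ ((Ψ n)⁻¹ (w : RS)) = (w : RS) := by
    intro R n hn w hw
    rw [hΦeq n _ (hn w hw), ← Homeomorph.mul_apply, mul_inv_cancel, Homeomorph.one_apply]
  have hsurj : Function.Surjective Φ := by
    intro w
    induction w using OnePoint.rec with
    | infty => exact ⟨r, hΦr⟩
    | coe w =>
      obtain ⟨n, hn⟩ := hbdd ‖w‖
      exact ⟨_, hval _ n hn w le_rfl⟩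
  have hcont : Continuous Φ := by
    rw [continuous_iff_continuousAt]
    intro z
    by_cases hz : z = r
    · subst hz
      rw [ContinuousAt, hΦr]
      intro W hW
      rw [mem_map]
      have hW' : (↑) ⁻¹' W ∈ coclosedCompact ℂ := by
        have := OnePoint.tendsto_coe_infty (X := ℂ) hW
        exact this
      rw [coclosedCompact_eq_cocompact, mem_cocompact] at hW'
      obtain ⟨K, hK, hKW⟩ := hW'
      obtain ⟨R, hR⟩ := hK.isBounded.subset_closedBall (0 : ℂ)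
      obtain ⟨n, hn⟩ := hbdd R
      have hcl : IsClosed (⇑((Ψ n)⁻¹ : RS ≃ₜ RS) '' ((↑) '' closedBall (0 : ℂ) R)) :=
        (((isCompact_closedBall (0 : ℂ) R).image OnePoint.continuous_coe).image
          ((Ψ n)⁻¹ : RS ≃ₜ RS).continuous).isClosed
      have hr : z ∉ ⇑((Ψ n)⁻¹ : RS ≃ₜ RS) '' ((↑) '' closedBall (0 : ℂ) R) := by
        rintro ⟨_, ⟨w, hw, rfl⟩, hwr⟩
        have h9 := hn w (mem_closedBall_zero_iff.1 hw)
        rw [hwr] at h9
        exact h6 n h9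
      filter_upwards [hcl.isOpen_compl.mem_nhds hr] with y hy
      show Φ y ∈ W
      by_contra hcon
      apply hy
      have hyinf : Φ y ≠ ∞ := by
        intro h
        rw [h] at hcon
        exact hcon (mem_of_mem_nhds hW)
      obtain ⟨w, hw⟩ := OnePoint.ne_infty_iff_exists.1 hyinf
      have hwK : w ∈ K := by
        by_contra h
        apply hcon
        rw [← hw]
        exact hKW h
      have hwR := mem_closedBall_zero_iff.1 (hR hwK)
      refine ⟨(w : RS), ⟨w, hR hwK, rfl⟩, ?_⟩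
      apply hinj
      rw [hval R n hn w hwR, hw]
    · obtain ⟨n, hn⟩ := h5 z hz
      have hev : Φ =ᶠ[𝓝 z] Ψ n := by
        filter_upwards [(f ^ n : RS ≃ₜ RS).continuous.tendsto z (hU.mem_nhds hn)] with y hy
        exact hΦeq n y hy
      exact (Ψ n).continuous.continuousAt.congr hev.symm
  have hcont' : Continuous (Equiv.ofBijective Φ ⟨hinj, hsurj⟩) := hcont
  refine ⟨hcont'.homeoOfEquivCompactToT2, ?_⟩
  have hconj : ∀ z, Φ (f z) = s (Φ z) := by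
    intro z
    by_cases hz : z = r
    · rw [hz, hfr, hΦr, hs, scal_infty]
    · obtain ⟨n, hn⟩ := h5 z hz
      have hn' : (f ^ n : RS ≃ₜ RS) (f z) ∈ U := by
        rw [← hfs', hfs]
        exact h1 _ hn
      rw [hΦeq n _ hn', hΦeq n _ hn, hΨval, hΨval, ← hfs', hfs, h2 _ hn]
      have : (s⁻¹) ^ n * s = s * (s⁻¹) ^ n := by group
      have h8 := congrArg (fun h : RS ≃ₜ RS => h (c ((f ^ n : RS ≃ₜ RS) z))) this
      simpa only [Homeomorph.mul_apply] using h8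
  rw [mul_inv_eq_iff_eq_mul]
  ext z
  exact hconj z

end Pool.Agent.H44R3
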