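import Pool.Agent.H44R3.NF
import Pool.Agent.H44R3.Lin

/-!
For nontrivial `A`, `B` in the component of the identity some `B * (g A g⁻¹)` has north-south
dynamics with a prescribed multiplier.
-/

open Set Filter Topology Metric
open scoped Real OnePoint

namespace Pool.Agent.H44R3

/-- The homeomorphism `z ↦ k / z`. -/
noncomputable def gk (k : ℂ) (hk : k ≠ 0) : RS ≃ₜ RS := scal k hk * inv

theorem gk_coe {k : ℂ} (hk : k ≠ 0) {z : ℂ} (hz : z ≠ 0) :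
    gk k hk (z : RS) = ((k / z : ℂ) : RS) := by
  unfold gk
  rw [Homeomorph.mul_apply, inv_coe hz, scal_coe, div_eq_mul_inv]

theorem gk_infty {k : ℂ} (hk : k ≠ 0) : gk k hk ∞ = ((0 : ℂ) : RS) := by
  unfold gk
  rw [Homeomorph.mul_apply, inv_infty, scal_coe, mul_zero]

theorem gk_zero {k : ℂ} (hk : k ≠ 0) : gk k hk ((0 : ℂ) : RS) = ∞ := by
  unfold gk
  rw [Homeomorph.mul_apply, inv_zero, scal_infty]

theorem gk_inv {k : ℂ} (hk : k ≠ 0) : (gk k hk)⁻¹ = gk k hk := by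
  rw [inv_eq_iff_mul_eq_one]
  ext z
  rw [Homeomorph.mul_apply, Homeomorph.one_apply]
  induction z using OnePoint.rec with
  | infty => rw [gk_infty, gk_zero]
  | coe z =>
    by_cases hz : z = 0
    · rw [hz, gk_zero, gk_infty]
    · rw [gk_coe hk hz, gk_coe hk (div_ne_zero hk hz)]
      congr 1
      field_simp

/-- The linearising Möbius map `z ↦ (z - a) / (z - a')`. -/
noncomputable def cc (a a' : ℂ) (h : a' - a ≠ 0) : RS ≃ₜ RS :=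
  trans 1 * scal (a' - a) h * inv * trans (-a')

theorem cc_coe {a a' : ℂ} (h : a' - a ≠ 0) {z : ℂ} (hz : z - a' ≠ 0) :
    cc a a' h (z : RS) = (((z - a) / (z - a') : ℂ) : RS) := by
  unfold cc
  simp only [Homeomorph.mul_apply]
  rw [trans_coe, inv_coe (by rwa [← sub_eq_add_neg]), scal_coe, trans_coe, ← sub_eq_add_neg]
  congr 1
  field_simp
  ring

theorem cc_infty {a a' : ℂ} (h : a' - a ≠ 0) : cc a a' h ∞ = ((1 : ℂ) : RS) := by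
  unfold cc
  simp only [Homeomorph.mul_apply]
  rw [trans_infty, inv_infty, scal_coe, trans_coe, mul_zero, zero_add]

theorem escape {f : RS ≃ₜ RS} {F : ℂ → ℂ} {ε : ℝ} (hε : 0 < ε)
    (hF : ∀ z : ℂ, ‖z‖ ≤ ε → f⁻¹ (z : RS) = (F z : RS))
    (hFm : ∀ z : ℂ, ‖z‖ ≤ ε → ‖F z‖ ≤ ε)
    (hFl : ∀ z w : ℂ, ‖z‖ ≤ ε → ‖w‖ ≤ ε → ‖F z - F w‖ ≤ 1 / 2 * ‖z - w‖) :
    ∃ r : ℂ, ‖r‖ ≤ ε ∧ f (r : RS) = (r : RS) ∧ ∀ z : RS, z ≠ (r : RS) →
      ∃ n : ℕ, (f ^ n : RS ≃ₜ RS) z ∉ ((↑) '' closedBall (0 : ℂ) ε : Set RS) := by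
  have hmaps : MapsTo F (closedBall 0 ε) (closedBall 0 ε) := fun z hz =>
    mem_closedBall_zero_iff.2 (hFm z (mem_closedBall_zero_iff.1 hz))
  have hcw : ContractingWith (1 / 2) (hmaps.restrict F (closedBall 0 ε) (closedBall 0 ε)) := by
    refine ⟨by rw [← NNReal.coe_lt_coe]; norm_num, LipschitzWith.of_dist_le_mul ?_⟩
    rintro ⟨z, hz⟩ ⟨w, hw⟩
    have := hFl z w (mem_closedBall_zero_iff.1 hz) (mem_closedBall_zero_iff.1 hw)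
    rw [Subtype.dist_eq, Subtype.dist_eq, dist_eq_norm, dist_eq_norm]
    simpa using this
  obtain ⟨r, hr, hfix, -⟩ := hcw.exists_fixedPoint' isClosed_closedBall.isComplete hmaps
    (x := 0) (by simpa using hε.le) (edist_ne_top _ _)
  have hr' : ‖r‖ ≤ ε := mem_closedBall_zero_iff.1 hr
  have hFr : F r = r := hfix
  refine ⟨r, hr', ?_, ?_⟩
  · have h1 := hF r hr'
    rw [hFr] at h1
    have h2 : f (f⁻¹ (r : RS)) = (r : RS) := by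
      rw [← Homeomorph.mul_apply, mul_inv_cancel, Homeomorph.one_apply]
    rwa [h1] at h2
  · intro z hz
    by_contra hcon
    push Not at hcon
    have h1 : ∀ n : ℕ, ∃ w : ℂ, ‖w‖ ≤ ε ∧ (f ^ n : RS ≃ₜ RS) z = (w : RS) := by
      intro n
      obtain ⟨w, hw, hwz⟩ := hcon n
      exact ⟨w, mem_closedBall_zero_iff.1 hw, hwz.symm⟩
    choose w hw hwz using h1
    have hstep : ∀ n, w n = F (w (n + 1)) := by
      intro n
      have h2 := hF (w (n + 1)) (hw (n + 1))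
      rw [← hwz (n + 1), pow_succ', Homeomorph.mul_apply, hwz n] at h2
      have h3 : f⁻¹ (f (w n : RS)) = (w n : RS) := by
        rw [← Homeomorph.mul_apply, inv_mul_cancel, Homeomorph.one_apply]
      rw [h3, OnePoint.coe_eq_coe] at h2
      exact h2
    have hest : ∀ n, ‖w 0 - r‖ ≤ (1 / 2) ^ n * ‖w n - r‖ := by
      intro n
      induction n with
      | zero => simp
      | succ n ih =>
        refine ih.trans ?_
        have h4 := hFl (w (n + 1)) r (hw (n + 1)) hr'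
        rw [← hstep n, hFr] at h4
        rw [pow_succ]
        have : (0 : ℝ) < (1 / 2) ^ n := by positivity
        nlinarith
    have hest' : ∀ n, ‖w 0 - r‖ ≤ (1 / 2) ^ n * (2 * ε) := by
      intro n
      refine (hest n).trans ?_
      gcongr
      refine (norm_sub_le _ _).trans ?_
      linarith [hw n]
    have hlim : Tendsto (fun n : ℕ => (1 / 2 : ℝ) ^ n * (2 * ε)) atTop (𝓝 (0 * (2 * ε))) :=
      (tendsto_pow_atTop_nhds_zero_of_lt_one (by norm_num) (by norm_num)).mul_const _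
    rw [zero_mul] at hlim
    have h0 : ‖w 0 - r‖ ≤ 0 := ge_of_tendsto' hlim hest'
    rw [norm_le_zero_iff, sub_eq_zero] at h0
    apply hz
    have := hwz 0
    rw [pow_zero, Homeomorph.one_apply, h0] at this
    exact this

theorem alg_lip {a₂ v u : ℂ} (k : ℂ) (n1 : v ≠ 0) (n3 : u ≠ 0) (n2 : k / v + a₂ ≠ 0)
    (n4 : k / u + a₂ ≠ 0) : k / (k / v + a₂) - k / (k / u + a₂) =
      k ^ 2 * (v - u) / (v * u * (k / v + a₂) * (k / u + a₂)) := by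
  have hPQ : (k / u + a₂) - (k / v + a₂) = k * (v - u) / (v * u) := by
    field_simp
    ring
  generalize k / v + a₂ = P at *
  generalize k / u + a₂ = Q at *
  have : k / P - k / Q = k * (Q - P) / (P * Q) := by
    field_simp
  rw [this, hPQ]
  field_simp

theorem alg_inf {a₁ b₁ M m k a a' : ℂ} (ha₁ : a₁ ≠ 0) (hM : M ≠ 0) (hm : m = 1 - M)
    (hk : k = a₁ * b₁ * m / M ^ 2) (ha : a = b₁ / M) (ha' : a' = -(m * b₁ / M))
    (hn : k / a₁ + b₁ - a' ≠ 0) :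
    (k / a₁ + b₁ - a) / (k / a₁ + b₁ - a') = m ^ 2 := by
  rw [div_eq_iff hn, hk, ha, ha']
  field_simp
  rw [hm]
  ring

theorem alg_coe {a₁ b₁ M m k a a' z : ℂ} (hM : M ≠ 0) (hm : m = 1 - M)
    (hk : k = a₁ * b₁ * m / M ^ 2) (ha : a = b₁ / M) (ha' : a' = -(m * b₁ / M))
    (hz : z ≠ 0) (hn2 : k / z + a₁ ≠ 0) (hn3 : k / (k / z + a₁) + b₁ - a' ≠ 0)
    (hn1 : z - a' ≠ 0) :
    (k / (k / z + a₁) + b₁ - a) / (k / (k / z + a₁) + b₁ - a') = m ^ 2 * ((z - a) / (z - a')) := by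
  have h0 : k / z + a₁ = (k + a₁ * z) / z := by field_simp
  have hd : k + a₁ * z ≠ 0 := by
    rw [h0] at hn2
    intro h
    rw [h, zero_div] at hn2
    exact hn2 rfl
  have hw2 : (k / (k / z + a₁) + b₁) * (k + a₁ * z) = k * z + b₁ * (k + a₁ * z) := by
    rw [h0]
    field_simp
  generalize k / (k / z + a₁) + b₁ = w at *
  have hA : (w - a') * (k + a₁ * z) * M ^ 2 = a₁ * b₁ * (z - a') := by
    have : (w - a') * (k + a₁ * z) * M ^ 2 =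
        (w * (k + a₁ * z)) * M ^ 2 - a' * (k + a₁ * z) * M ^ 2 := by ring
    rw [this, hw2, hk, ha']
    field_simp
    rw [hm]
    ring
  have hB : (w - a) * (k + a₁ * z) * M ^ 2 = a₁ * b₁ * m ^ 2 * (z - a) := by
    have : (w - a) * (k + a₁ * z) * M ^ 2 =
        (w * (k + a₁ * z)) * M ^ 2 - a * (k + a₁ * z) * M ^ 2 := by ring
    rw [this, hw2, hk, ha]
    field_simp
    rw [hm]
    ring
  have hMM : (k + a₁ * z) * M ^ 2 ≠ 0 := mul_ne_zero hd (pow_ne_zero 2 hM)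
  rw [← mul_div_assoc, div_eq_div_iff hn3 hn1]
  apply mul_right_cancel₀ hMM
  calc (w - a) * (z - a') * ((k + a₁ * z) * M ^ 2)
      = ((w - a) * (k + a₁ * z) * M ^ 2) * (z - a') := by ring
    _ = a₁ * b₁ * m ^ 2 * (z - a) * (z - a') := by rw [hB]
    _ = m ^ 2 * (z - a) * (a₁ * b₁ * (z - a')) := by ring
    _ = m ^ 2 * (z - a) * ((w - a') * (k + a₁ * z) * M ^ 2) := by rw [hA]
    _ = m ^ 2 * (z - a) * (w - a') * ((k + a₁ * z) * M ^ 2) := by ring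

/-- The local data used in the construction. -/
structure LD (A B : RS ≃ₜ RS) (a₁ a₂ b₁ b₂ k : ℂ) (ε : ℝ) : Prop where
  ε0 : 0 < ε
  kn : ‖k‖ = ε ^ 2
  k0 : k ≠ 0
  e1 : 4 * ε ≤ ‖a₁‖
  e2 : 4 * ε ≤ ‖a₂‖
  e3 : 4 * ε ≤ ‖b₁‖
  e4 : 4 * ε ≤ ‖b₂‖
  lA : ∀ z : ℂ, ‖z‖ ≤ ε → A (z : RS) = ((z + a₁ : ℂ) : RS)
  lA' : ∀ z : ℂ, ‖z‖ ≤ ε → A⁻¹ (z : RS) = ((z + a₂ : ℂ) : RS)
  lB : ∀ z : ℂ, ‖z‖ ≤ ε → B (z : RS) = ((z + b₁ : ℂ) : RS)
  lB' : ∀ z : ℂ, ‖z‖ ≤ ε → B⁻¹ (z : RS) = ((z + b₂ : ℂ) : RS)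

section

variable {A B : RS ≃ₜ RS} {a₁ a₂ b₁ b₂ k : ℂ} {ε : ℝ}

theorem norm_low {u v : ℂ} (hu : ‖u‖ ≤ ε) (hv : 4 * ε ≤ ‖v‖) : 3 * ε ≤ ‖u + v‖ := by
  have : ‖v‖ ≤ ‖u + v‖ + ‖u‖ := by
    calc ‖v‖ = ‖(u + v) - u‖ := by congr 1; ring
      _ ≤ _ := norm_sub_le _ _
  linarith

theorem LD.div (h : LD A B a₁ a₂ b₁ b₂ k ε) {v : ℂ} (hv : ε ≤ ‖v‖) : ‖k / v‖ ≤ ε := by
  have h0 := h.ε0
  rw [norm_div, h.kn, div_le_iff₀ (by linarith)]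
  nlinarith

theorem LD.ne (h : LD A B a₁ a₂ b₁ b₂ k ε) {v : ℂ} (hv : ε ≤ ‖v‖) : v ≠ 0 := by
  have h0 := h.ε0
  rintro rfl
  rw [norm_zero] at hv
  linarith

theorem LD.f_coe (h : LD A B a₁ a₂ b₁ b₂ k ε) {f : RS ≃ₜ RS}
    (hf : f = B * (gk k h.k0 * A * (gk k h.k0)⁻¹)) {z : ℂ} (hz : ε < ‖z‖) :
    f (z : RS) = ((k / (k / z + a₁) + b₁ : ℂ) : RS) ∧
      3 * ε ≤ ‖k / z + a₁‖ ∧ 3 * ε ≤ ‖k / (k / z + a₁) + b₁‖ := by
  have h0 := h.ε0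
  have h1 : ‖k / z‖ ≤ ε := h.div hz.le
  have h2 : 3 * ε ≤ ‖k / z + a₁‖ := norm_low h1 h.e1
  have h3 : ‖k / (k / z + a₁)‖ ≤ ε := h.div (by linarith)
  refine ⟨?_, h2, norm_low h3 h.e3⟩
  rw [hf, Homeomorph.mul_apply, Homeomorph.mul_apply, Homeomorph.mul_apply, gk_inv,
    gk_coe h.k0 (h.ne hz.le), h.lA _ h1, gk_coe h.k0 (h.ne (by linarith)), h.lB _ h3]

theorem LD.f_inf (h : LD A B a₁ a₂ b₁ b₂ k ε) {f : RS ≃ₜ RS}
    (hf : f = B * (gk k h.k0 * A * (gk k h.k0)⁻¹)) :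
    f ∞ = ((k / a₁ + b₁ : ℂ) : RS) ∧ 3 * ε ≤ ‖k / a₁ + b₁‖ := by
  have h0 := h.ε0
  have h3 : ‖k / a₁‖ ≤ ε := h.div (by linarith [h.e1])
  refine ⟨?_, norm_low h3 h.e3⟩
  rw [hf, Homeomorph.mul_apply, Homeomorph.mul_apply, Homeomorph.mul_apply, gk_inv,
    gk_infty h.k0, h.lA 0 (by simpa using h0.le), zero_add,
    gk_coe h.k0 (h.ne (by linarith [h.e1])), h.lB _ h3]

theorem LD.f_inv (h : LD A B a₁ a₂ b₁ b₂ k ε) {f : RS ≃ₜ RS}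
    (hf : f = B * (gk k h.k0 * A * (gk k h.k0)⁻¹)) {z : ℂ} (hz : ‖z‖ ≤ ε) :
    f⁻¹ (z : RS) = ((k / (k / (z + b₂) + a₂) : ℂ) : RS) := by
  have h0 := h.ε0
  have q1 : 3 * ε ≤ ‖z + b₂‖ := norm_low hz h.e4
  have q2 : ‖k / (z + b₂)‖ ≤ ε := h.div (by linarith)
  have q3 : 3 * ε ≤ ‖k / (z + b₂) + a₂‖ := norm_low q2 h.e2
  have hfinv : f⁻¹ = gk k h.k0 * A⁻¹ * (gk k h.k0)⁻¹ * B⁻¹ := by rw [hf]; group
  rw [hfinv, Homeomorph.mul_apply, Homeomorph.mul_apply, Homeomorph.mul_apply, gk_inv,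
    h.lB' z hz, gk_coe h.k0 (h.ne (by linarith)), h.lA' _ q2, gk_coe h.k0 (h.ne (by linarith))]

theorem LD.lip (h : LD A B a₁ a₂ b₁ b₂ k ε) {z w : ℂ} (hz : ‖z‖ ≤ ε) (hw : ‖w‖ ≤ ε) :
    ‖k / (k / (z + b₂) + a₂) - k / (k / (w + b₂) + a₂)‖ ≤ 1 / 2 * ‖z - w‖ := by
  have h0 := h.ε0
  have q1 : 3 * ε ≤ ‖z + b₂‖ := norm_low hz h.e4
  have q2 : 3 * ε ≤ ‖k / (z + b₂) + a₂‖ := norm_low (h.div (by linarith)) h.e2
  have p1 : 3 * ε ≤ ‖w + b₂‖ := norm_low hw h.e4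
  have p2 : 3 * ε ≤ ‖k / (w + b₂) + a₂‖ := norm_low (h.div (by linarith)) h.e2
  rw [alg_lip k (h.ne (by linarith)) (h.ne (by linarith)) (h.ne (by linarith))
    (h.ne (by linarith)), norm_div, norm_mul, norm_mul, norm_mul, norm_mul, norm_pow, h.kn,
    add_sub_add_right_eq_sub]
  generalize k / (z + b₂) + a₂ = P at *
  generalize k / (w + b₂) + a₂ = Q at *
  have hprod : (3 * ε) * (3 * ε) * (3 * ε) * (3 * ε) ≤
      ‖z + b₂‖ * ‖w + b₂‖ * ‖P‖ * ‖Q‖ := by gcongr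
  have hpos : 0 < (3 * ε) * (3 * ε) * (3 * ε) * (3 * ε) := by positivity
  rw [div_le_iff₀ (hpos.trans_le hprod)]
  have hn := norm_nonneg (z - w)
  have h5 : (ε ^ 2) ^ 2 * ‖z - w‖ ≤
      1 / 2 * ‖z - w‖ * ((3 * ε) * (3 * ε) * (3 * ε) * (3 * ε)) := by
    have : 0 ≤ ε ^ 4 * ‖z - w‖ := by positivity
    nlinarith
  refine h5.trans ?_
  gcongr

theorem LD.conj (h : LD A B a₁ a₂ b₁ b₂ k ε) {m M : ℂ} (hMne : M ≠ 0) (hm : m = 1 - M)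
    (hk : k = a₁ * b₁ * m / M ^ 2) (hma : ‖m * b₁ / M‖ ≤ ε) (hbM : ε < ‖b₁ / M‖)
    (hl : m ^ 2 ≠ 0) (hl1 : ‖m ^ 2‖ < 1) :
    ∃ g Φ : RS ≃ₜ RS, Φ * (B * (g * A * g⁻¹)) * Φ⁻¹ = scal (m ^ 2) hl := by
  have h0 := h.ε0
  obtain ⟨f, hf⟩ : ∃ f, f = B * (gk k h.k0 * A * (gk k h.k0)⁻¹) := ⟨_, rfl⟩
  obtain ⟨U, hU⟩ : ∃ U : Set RS, U = ((↑) '' closedBall (0 : ℂ) ε : Set RS)ᶜ := ⟨_, rfl⟩
  have hUo : IsOpen U := by
    rw [hU]
    exact ((isCompact_closedBall (0 : ℂ) ε).image OnePoint.continuous_coe).isClosed.isOpen_compl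
  have hUc : ∀ z : ℂ, (z : RS) ∈ U ↔ ε < ‖z‖ := by
    intro z
    rw [hU, mem_compl_iff]
    constructor
    · intro h1
      by_contra h2
      exact h1 ⟨z, mem_closedBall_zero_iff.2 (not_lt.1 h2), rfl⟩
    · rintro h1 ⟨w, hw, hwz⟩
      rw [OnePoint.coe_eq_coe] at hwz
      subst hwz
      rw [mem_closedBall_zero_iff] at hw
      linarith
  have hUi : (∞ : RS) ∈ U := by
    rw [hU]
    rintro ⟨w, -, hw⟩
    exact OnePoint.coe_ne_infty w hw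
  have h1 : ∀ z ∈ U, f z ∈ U := by
    intro z hz
    induction z using OnePoint.rec with
    | infty =>
      rw [(h.f_inf hf).1, hUc]
      linarith [(h.f_inf hf).2]
    | coe z =>
      obtain ⟨p1, p2, p3⟩ := h.f_coe hf ((hUc z).1 hz)
      rw [p1, hUc]
      linarith
  obtain ⟨r, hr1, hr2, hr3⟩ := escape (f := f) (F := fun z => k / (k / (z + b₂) + a₂)) h0
    (fun z hz => h.f_inv hf hz)
    (fun z hz => h.div (by
      have := norm_low (h.div (v := z + b₂) (by linarith [norm_low hz h.e4])) h.e2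
      linarith))
    (fun z w hz hw => h.lip hz hw)
  obtain ⟨a, ha⟩ : ∃ a, a = b₁ / M := ⟨_, rfl⟩
  obtain ⟨a', ha'⟩ : ∃ a', a' = -(m * b₁ / M) := ⟨_, rfl⟩
  have ha'n : ‖a'‖ ≤ ε := by rw [ha', norm_neg]; exact hma
  have hana : ε < ‖a‖ := by rw [ha]; exact hbM
  have haa : a' - a ≠ 0 := by
    intro hcon
    rw [sub_eq_zero] at hcon
    rw [hcon] at ha'n
    linarith
  have hcne : ∀ z : ℂ, ε < ‖z‖ → z - a' ≠ 0 := by
    intro z hz h0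
    rw [sub_eq_zero] at h0
    rw [h0] at hz
    linarith
  have ha₁ : a₁ ≠ 0 := h.ne (by linarith [h.e1])
  refine ⟨gk k h.k0, ?_⟩
  rw [← hf]
  refine conj_lin (f := f) (c := cc a a' haa) (U := U) (r := (r : RS)) hl hl1 hUo h1
    ?_ ?_ ?_ ?_ ?_
  · intro z hz
    induction z using OnePoint.rec with
    | infty =>
      have h4 : ε < ‖k / a₁ + b₁‖ := by linarith [(h.f_inf hf).2]
      rw [(h.f_inf hf).1, cc_infty, cc_coe haa (hcne _ h4), scal_coe, mul_one]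
      congr 1
      exact alg_inf ha₁ hMne hm hk ha ha' (hcne _ h4)
    | coe z =>
      have hz' := (hUc z).1 hz
      obtain ⟨p1, p2, p3⟩ := h.f_coe hf hz'
      have h4 : ε < ‖k / (k / z + a₁) + b₁‖ := by linarith
      rw [p1, cc_coe haa (hcne _ h4), cc_coe haa (hcne _ hz'), scal_coe]
      congr 1
      exact alg_coe hMne hm hk ha ha' (h.ne hz'.le) (h.ne (by linarith)) (hcne _ h4)
        (hcne _ hz')
  · intro z hz
    induction z using OnePoint.rec with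
    | infty =>
      rw [cc_infty]
      exact OnePoint.coe_ne_infty _
    | coe z =>
      rw [cc_coe haa (hcne _ ((hUc z).1 hz))]
      exact OnePoint.coe_ne_infty _
  · have : cc a a' haa (a : RS) = o := by
      rw [cc_coe haa (hcne _ hana), sub_self, zero_div, o_def]
    rw [← this, inv_apply_self', hUc]
    exact hana
  · intro z hz
    obtain ⟨n, hn⟩ := hr3 z hz
    exact ⟨n, by rw [hU]; exact hn⟩
  · intro n
    have hfix : (f ^ n : RS ≃ₜ RS) (r : RS) = (r : RS) := by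
      induction n with
      | zero => rfl
      | succ n ih => rw [pow_succ', Homeomorph.mul_apply, ih, hr2]
    rw [hfix, hUc]
    linarith

end

theorem north_south {A B : RS ≃ₜ RS} {a₁ a₂ b₁ b₂ : ℂ} (ha₁ : a₁ ≠ 0) (ha₂ : a₂ ≠ 0)
    (hb₁ : b₁ ≠ 0) (hb₂ : b₂ ≠ 0) (hA : NForm A a₁ a₂) (hB : NForm B b₁ b₂) :
    ∃ μ₀ > 0, ∀ μ : ℝ, 0 < μ → μ < μ₀ → ∀ h : (μ : ℂ) ^ 2 ≠ 0,
      ∃ g Φ : RS ≃ₜ RS, Φ * (B * (g * A * g⁻¹)) * Φ⁻¹ = scal ((μ : ℂ) ^ 2) h := by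
  obtain ⟨hA1, hA2⟩ := hA
  obtain ⟨hB1, hB2⟩ := hB
  obtain ⟨ε₀, hε₀, hall⟩ := Metric.eventually_nhds_iff.1 (hA1.and (hA2.and (hB1.and hB2)))
  have na₁ : 0 < ‖a₁‖ := norm_pos_iff.2 ha₁
  have na₂ : 0 < ‖a₂‖ := norm_pos_iff.2 ha₂
  have nb₁ : 0 < ‖b₁‖ := norm_pos_iff.2 hb₁
  have nb₂ : 0 < ‖b₂‖ := norm_pos_iff.2 hb₂
  obtain ⟨δ, hδ0, hδ1, hδ2, hδ3, hδ4, hδ5⟩ : ∃ δ > 0, δ ≤ ε₀ / 2 ∧ δ ≤ ‖a₁‖ / 4 ∧
      δ ≤ ‖a₂‖ / 4 ∧ δ ≤ ‖b₁‖ / 4 ∧ δ ≤ ‖b₂‖ / 4 := by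
    refine ⟨min (min (ε₀ / 2) (min (‖a₁‖ / 4) (‖a₂‖ / 4))) (min (‖b₁‖ / 4) (‖b₂‖ / 4)),
      by positivity, (min_le_left _ _).trans (min_le_left _ _),
      (min_le_left _ _).trans ((min_le_right _ _).trans (min_le_left _ _)),
      (min_le_left _ _).trans ((min_le_right _ _).trans (min_le_right _ _)),
      (min_le_right _ _).trans (min_le_left _ _), (min_le_right _ _).trans (min_le_right _ _)⟩
  refine ⟨min (1 / 2) (min (‖a₁‖ / ‖b₁‖) (δ ^ 2 / (4 * (‖a₁‖ * ‖b₁‖)))), by positivity, ?_⟩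
  intro μ hμ0 hμ h
  have hμ1 : μ < 1 / 2 := hμ.trans_le (min_le_left _ _)
  have hμ2 : μ < ‖a₁‖ / ‖b₁‖ := hμ.trans_le ((min_le_right _ _).trans (min_le_left _ _))
  have hμ3 : μ < δ ^ 2 / (4 * (‖a₁‖ * ‖b₁‖)) :=
    hμ.trans_le ((min_le_right _ _).trans (min_le_right _ _))
  rw [lt_div_iff₀ nb₁] at hμ2
  rw [lt_div_iff₀ (by positivity)] at hμ3
  have hM0 : 0 < 1 - μ := by linarith
  obtain ⟨M, hM⟩ : ∃ M : ℂ, M = 1 - (μ : ℂ) := ⟨_, rfl⟩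
  have hMn : ‖M‖ = 1 - μ := by
    have : M = ((1 - μ : ℝ) : ℂ) := by rw [hM]; push_cast; ring
    rw [this, Complex.norm_real, Real.norm_of_nonneg hM0.le]
  have hMne : M ≠ 0 := by rw [← norm_pos_iff, hMn]; exact hM0
  have hμne : (μ : ℂ) ≠ 0 := by exact_mod_cast hμ0.ne'
  have hμn : ‖(μ : ℂ)‖ = μ := by rw [Complex.norm_real, Real.norm_of_nonneg hμ0.le]
  obtain ⟨k, hk⟩ : ∃ k : ℂ, k = a₁ * b₁ * μ / M ^ 2 := ⟨_, rfl⟩
  have hkne : k ≠ 0 := by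
    rw [hk]
    exact div_ne_zero (mul_ne_zero (mul_ne_zero ha₁ hb₁) hμne) (pow_ne_zero 2 hMne)
  have hkn : ‖k‖ = ‖a₁‖ * ‖b₁‖ * μ / (1 - μ) ^ 2 := by
    rw [hk, norm_div, norm_mul, norm_mul, norm_pow, hMn, hμn]
  have hkpos : 0 < ‖k‖ := norm_pos_iff.2 hkne
  obtain ⟨ε, hε0, hεk⟩ : ∃ ε : ℝ, 0 < ε ∧ ‖k‖ = ε ^ 2 :=
    ⟨Real.sqrt ‖k‖, Real.sqrt_pos.2 hkpos, (Real.sq_sqrt hkpos.le).symm⟩
  have hkδ : ‖k‖ < δ ^ 2 := by
    rw [hkn, div_lt_iff₀ (by positivity)]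
    have h1 : (1 / 4 : ℝ) < (1 - μ) ^ 2 := by nlinarith
    have h2 : 0 < δ ^ 2 := by positivity
    nlinarith
  have hεδ : ε < δ := by
    rw [hεk] at hkδ
    exact lt_of_pow_lt_pow_left₀ 2 hδ0.le hkδ
  have hLD : LD A B a₁ a₂ b₁ b₂ k ε := by
    have hloc : ∀ z : ℂ, ‖z‖ ≤ ε → dist z 0 < ε₀ := by
      intro z hz
      rw [dist_zero_right]
      linarith
    exact ⟨hε0, hεk, hkne, by linarith, by linarith, by linarith, by linarith,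
      fun z hz => (hall (hloc z hz)).1, fun z hz => (hall (hloc z hz)).2.1,
      fun z hz => (hall (hloc z hz)).2.2.1, fun z hz => (hall (hloc z hz)).2.2.2⟩
  refine hLD.conj hMne (by rw [hM]; ring) hk ?_ ?_ h ?_
  · rw [norm_div, norm_mul, hμn, hMn]
    have h2 : (μ * ‖b₁‖ / (1 - μ)) ^ 2 ≤ ε ^ 2 := by
      rw [← hεk, hkn, div_pow]
      gcongr
      calc (μ * ‖b₁‖) ^ 2 = (μ * ‖b₁‖) * (‖b₁‖ * μ) := by ring
        _ ≤ ‖a₁‖ * (‖b₁‖ * μ) := by gcongr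
        _ = ‖a₁‖ * ‖b₁‖ * μ := by ring
    exact le_of_sq_le_sq h2 hε0.le
  · rw [norm_div, hMn, lt_div_iff₀ hM0]
    nlinarith
  · rw [norm_pow, hμn]
    nlinarith

end Pool.Agent.H44R3
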