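import Mathlib

/-!
Wolff's lemma (length-area principle): an injective holomorphic function on the unit disc with
image of finite area has small oscillation on arbitrarily small crosscuts at each boundary point.
-/

open Set Filter Topology Metric MeasureTheory
open scoped Real ENNReal

namespace Pool.Agent.H44R3

theorem det_restrict' (c : ℂ) :
    |((ContinuousLinearMap.toSpanSingleton ℂ c).restrictScalars ℝ).det| = ‖c‖ ^ 2 := by
  simp [ContinuousLinearMap.det, LinearMap.det_restrictScalars, Algebra.norm_complex_eq,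
    Complex.normSq_eq_norm_sq]

/-- Area formula for injective holomorphic maps. -/
theorem vol_image_eq' {φ : ℂ → ℂ} {U : Set ℂ} (hU : IsOpen U) (hφ : DifferentiableOn ℂ φ U)
    (hi : InjOn φ U) :
    ∫⁻ z in U, ENNReal.ofReal (‖deriv φ z‖ ^ 2) = volume (φ '' U) := by
  have h := lintegral_abs_det_fderiv_eq_addHaar_image (f := φ) volume hU.measurableSet
    (f' := fun x => (ContinuousLinearMap.toSpanSingleton ℂ (deriv φ x)).restrictScalars ℝ)
    (fun x hx => (((hφ.differentiableAt (hU.mem_nhds hx)).hasDerivAt).hasFDerivAt.restrictScalars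
      ℝ).hasFDerivWithinAt) hi
  simpa only [det_restrict'] using h

/-- The region of logarithmic coordinates at a boundary point. -/
def RR : Set ℂ := {w | |w.im| < π / 2 ∧ ‖1 - Complex.exp w‖ < 1}

theorem isOpen_RR : IsOpen RR := by
  have h1 : IsOpen {w : ℂ | |w.im| < π / 2} := isOpen_lt (by fun_prop) continuous_const
  have h2 : IsOpen {w : ℂ | ‖1 - Complex.exp w‖ < 1} := isOpen_lt (by fun_prop) continuous_const
  exact h1.inter h2

theorem mem_RR_iff (s θ : ℝ) : (⟨s, θ⟩ : ℂ) ∈ RR ↔ |θ| < π / 2 ∧ Real.exp s < 2 * Real.cos θ := by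
  unfold RR
  rw [mem_ofPred_eq]
  refine and_congr Iff.rfl ?_
  have h1 : ‖1 - Complex.exp (⟨s, θ⟩ : ℂ)‖ ^ 2 =
      1 - 2 * Real.exp s * Real.cos θ + Real.exp s ^ 2 := by
    rw [← Complex.normSq_eq_norm_sq, Complex.normSq_apply]
    have hre : (Complex.exp (⟨s, θ⟩ : ℂ)).re = Real.exp s * Real.cos θ := Complex.exp_re _
    have him : (Complex.exp (⟨s, θ⟩ : ℂ)).im = Real.exp s * Real.sin θ := Complex.exp_im _
    rw [Complex.sub_re, Complex.sub_im, hre, him, Complex.one_re, Complex.one_im]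
    nlinarith [Real.sin_sq_add_cos_sq θ]
  have h2 : ‖1 - Complex.exp (⟨s, θ⟩ : ℂ)‖ < 1 ↔ ‖1 - Complex.exp (⟨s, θ⟩ : ℂ)‖ ^ 2 < 1 := by
    rw [sq_lt_one_iff₀ (norm_nonneg _)]
  rw [h2, h1]
  have hs := Real.exp_pos s
  constructor
  · intro h
    by_contra hcon
    push Not at hcon
    nlinarith
  · intro h
    nlinarith

theorem RR_convex_slice {s θ₁ θ₂ θ : ℝ} (h1 : (⟨s, θ₁⟩ : ℂ) ∈ RR) (h2 : (⟨s, θ₂⟩ : ℂ) ∈ RR)
    (hθ1 : θ₁ ≤ θ) (hθ2 : θ ≤ θ₂) : (⟨s, θ⟩ : ℂ) ∈ RR := by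
  rw [mem_RR_iff] at h1 h2 ⊢
  have hpi := Real.pi_pos
  have key : ∀ φ : ℝ, |φ| < π / 2 → |θ| ≤ |φ| → Real.cos φ ≤ Real.cos θ := by
    intro φ hφ h
    rw [← Real.cos_abs φ, ← Real.cos_abs θ]
    exact Real.cos_le_cos_of_nonneg_of_le_pi (abs_nonneg _) (by linarith) h
  rcases le_total 0 θ with h0 | h0
  · have h3 : |θ| ≤ |θ₂| := abs_le_abs_of_nonneg h0 hθ2
    exact ⟨h3.trans_lt h2.1, h2.2.trans_le (by linarith [key θ₂ h2.1 h3])⟩
  · have h3 : |θ| ≤ |θ₁| := abs_le_abs_of_nonpos h0 hθ1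
    exact ⟨h3.trans_lt h1.1, h1.2.trans_le (by linarith [key θ₁ h1.1 h3])⟩

theorem slice_estimate {F : ℂ → ℂ} (hF : DifferentiableOn ℂ F RR) {s θ₁ θ₂ ε : ℝ} (hε : 0 < ε)
    (h1 : (⟨s, θ₁⟩ : ℂ) ∈ RR) (h2 : (⟨s, θ₂⟩ : ℂ) ∈ RR) (hθ : θ₁ ≤ θ₂)
    (hd : ε ≤ ‖F ⟨s, θ₂⟩ - F ⟨s, θ₁⟩‖) :
    ENNReal.ofReal (ε ^ 2 / π) ≤
      ∫⁻ θ : ℝ, RR.indicator (fun w => ENNReal.ofReal (‖deriv F w‖ ^ 2)) ⟨s, θ⟩ := by
  have hpi := Real.pi_pos
  have hin : ∀ θ ∈ Icc θ₁ θ₂, (⟨s, θ⟩ : ℂ) ∈ RR := fun θ hθ => RR_convex_slice h1 h2 hθ.1 hθ.2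
  have hcD : ContinuousOn (deriv F) RR := (hF.deriv isOpen_RR).continuousOn
  have hline : Continuous (fun θ : ℝ => (⟨s, θ⟩ : ℂ)) := by
    have : (fun θ : ℝ => (⟨s, θ⟩ : ℂ)) = fun θ : ℝ => (s : ℂ) + θ * Complex.I := by
      funext θ
      rw [Complex.mk_eq_add_mul_I]
    rw [this]
    fun_prop
  have hcd : ContinuousOn (fun θ : ℝ => deriv F ⟨s, θ⟩) (Icc θ₁ θ₂) :=
    hcD.comp hline.continuousOn hin
  have hder : ∀ θ ∈ Icc θ₁ θ₂, HasDerivAt (fun t : ℝ => F ⟨s, t⟩)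
      (deriv F ⟨s, θ⟩ * Complex.I) θ := by
    intro θ hθ'
    have hFd : HasDerivAt F (deriv F ⟨s, θ⟩) ⟨s, θ⟩ :=
      (hF.differentiableAt (isOpen_RR.mem_nhds (hin θ hθ'))).hasDerivAt
    have hl : HasDerivAt (fun t : ℝ => (⟨s, t⟩ : ℂ)) Complex.I θ := by
      have : (fun θ : ℝ => (⟨s, θ⟩ : ℂ)) = fun θ : ℝ => (s : ℂ) + θ * Complex.I := by
        funext θ
        rw [Complex.mk_eq_add_mul_I]
      rw [this]
      have h := ((Complex.ofRealCLM.hasDerivAt (x := θ)).mul_const Complex.I).const_add (s : ℂ)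
      simpa using h
    exact hFd.comp θ hl
  have hint : IntervalIntegrable (fun θ : ℝ => deriv F ⟨s, θ⟩ * Complex.I) volume θ₁ θ₂ := by
    apply ContinuousOn.intervalIntegrable
    rw [uIcc_of_le hθ]
    exact hcd.mul continuousOn_const
  have hftc := intervalIntegral.integral_eq_sub_of_hasDerivAt
    (fun θ hθ' => hder θ (by rwa [uIcc_of_le hθ] at hθ')) hint
  have hle1 : ε ≤ ∫ θ in θ₁..θ₂, ‖deriv F ⟨s, θ⟩‖ := by
    calc ε ≤ ‖F ⟨s, θ₂⟩ - F ⟨s, θ₁⟩‖ := hd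
      _ = ‖∫ θ in θ₁..θ₂, deriv F ⟨s, θ⟩ * Complex.I‖ := by rw [hftc]
      _ ≤ ∫ θ in θ₁..θ₂, ‖deriv F ⟨s, θ⟩ * Complex.I‖ :=
          intervalIntegral.norm_integral_le_integral_norm hθ
      _ = ∫ θ in θ₁..θ₂, ‖deriv F ⟨s, θ⟩‖ := by simp
  have hcn : ContinuousOn (fun θ : ℝ => ‖deriv F ⟨s, θ⟩‖) (Icc θ₁ θ₂) := hcd.norm
  have hi1 : IntervalIntegrable (fun θ : ℝ => ‖deriv F ⟨s, θ⟩‖) volume θ₁ θ₂ := by
    apply ContinuousOn.intervalIntegrable
    rwa [uIcc_of_le hθ]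
  have hi2 : IntervalIntegrable (fun θ : ℝ => ‖deriv F ⟨s, θ⟩‖ ^ 2) volume θ₁ θ₂ := by
    apply ContinuousOn.intervalIntegrable
    rw [uIcc_of_le hθ]
    exact hcn.pow 2
  set c : ℝ := ε / π with hc
  have hc0 : 0 < c := by positivity
  have hlen : θ₂ - θ₁ ≤ π := by
    rw [mem_RR_iff] at h1 h2
    have a1 := (abs_lt.1 h1.1).1
    have a2 := (abs_lt.1 h2.1).2
    linarith
  have hle2 : ∫ θ in θ₁..θ₂, ‖deriv F ⟨s, θ⟩‖ ≤
      ∫ θ in θ₁..θ₂, (c / 2 + (1 / (2 * c)) * ‖deriv F ⟨s, θ⟩‖ ^ 2) := by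
    apply intervalIntegral.integral_mono_on hθ hi1
    · exact intervalIntegrable_const.add (hi2.const_mul _)
    · intro θ _
      have hx : 0 ≤ (c - ‖deriv F ⟨s, θ⟩‖) ^ 2 := sq_nonneg _
      have : c / 2 + 1 / (2 * c) * ‖deriv F ⟨s, θ⟩‖ ^ 2 - ‖deriv F ⟨s, θ⟩‖ =
          (1 / (2 * c)) * (c - ‖deriv F ⟨s, θ⟩‖) ^ 2 := by
        field_simp
        ring
      have h3 : 0 ≤ (1 / (2 * c)) * (c - ‖deriv F ⟨s, θ⟩‖) ^ 2 := by positivity
      linarith
  have hle3 : ε ^ 2 / π ≤ ∫ θ in θ₁..θ₂, ‖deriv F ⟨s, θ⟩‖ ^ 2 := by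
    rw [intervalIntegral.integral_add intervalIntegrable_const (hi2.const_mul _),
      intervalIntegral.integral_const, intervalIntegral.integral_const_mul, smul_eq_mul] at hle2
    have h4 : (θ₂ - θ₁) * (c / 2) ≤ ε / 2 := by
      calc (θ₂ - θ₁) * (c / 2) ≤ π * (c / 2) := by gcongr
        _ = ε / 2 := by rw [hc]; field_simp
    have h5 : ε / 2 ≤ 1 / (2 * c) * ∫ θ in θ₁..θ₂, ‖deriv F ⟨s, θ⟩‖ ^ 2 := by linarith
    have h6 : ε ^ 2 / π = 2 * c * (ε / 2) := by rw [hc]; field_simp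
    rw [h6]
    calc 2 * c * (ε / 2) ≤ 2 * c * (1 / (2 * c) * ∫ θ in θ₁..θ₂, ‖deriv F ⟨s, θ⟩‖ ^ 2) := by
          gcongr
      _ = ∫ θ in θ₁..θ₂, ‖deriv F ⟨s, θ⟩‖ ^ 2 := by field_simp
  calc ENNReal.ofReal (ε ^ 2 / π) ≤ ENNReal.ofReal (∫ θ in θ₁..θ₂, ‖deriv F ⟨s, θ⟩‖ ^ 2) :=
        ENNReal.ofReal_le_ofReal hle3
    _ = ∫⁻ θ in Ioc θ₁ θ₂, ENNReal.ofReal (‖deriv F ⟨s, θ⟩‖ ^ 2) := by
        rw [intervalIntegral.integral_of_le hθ]
        rw [ofReal_integral_eq_lintegral_ofReal]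
        · exact (intervalIntegrable_iff_integrableOn_Ioc_of_le hθ).1 hi2
        · exact Eventually.of_forall fun θ => by positivity
    _ ≤ ∫⁻ θ in Ioc θ₁ θ₂, RR.indicator (fun w => ENNReal.ofReal (‖deriv F w‖ ^ 2)) ⟨s, θ⟩ := by
        apply setLIntegral_mono' measurableSet_Ioc
        intro θ hθ'
        rw [indicator_of_mem (hin θ (Ioc_subset_Icc_self hθ'))]
    _ ≤ _ := setLIntegral_le_lintegral _ _

theorem wolff {f : ℂ → ℂ} (hf : DifferentiableOn ℂ f (ball 0 1)) (hinj : InjOn f (ball 0 1))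
    (hvol : volume (f '' ball 0 1) < ⊤) {ζ : ℂ} (hζ : ‖ζ‖ = 1) {ε r₀ : ℝ} (hε : 0 < ε)
    (hr₀ : 0 < r₀) : ∃ r, 0 < r ∧ r < r₀ ∧ ∀ z ∈ ball (0 : ℂ) 1, ∀ w ∈ ball (0 : ℂ) 1,
      ‖z - ζ‖ = r → ‖w - ζ‖ = r → ‖f z - f w‖ < ε := by
  by_contra H
  push Not at H
  have hpi := Real.pi_pos
  have hζ0 : ζ ≠ 0 := by
    rintro rfl
    simp at hζ
  set F : ℂ → ℂ := fun w => f (ζ * (1 - Complex.exp w)) with hFdef
  have hmaps : MapsTo (fun w => ζ * (1 - Complex.exp w)) RR (ball 0 1) := by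
    intro w hw
    rw [mem_ball_zero_iff, norm_mul, hζ, one_mul]
    exact hw.2
  have hFd : DifferentiableOn ℂ F RR := by
    refine hf.comp (f := fun w => ζ * (1 - Complex.exp w)) ?_ hmaps
    fun_prop
  have hFi : InjOn F RR := by
    intro w hw w' hw' h
    have h1 := hinj (hmaps hw) (hmaps hw') h
    have h2 : Complex.exp w = Complex.exp w' := by
      have := mul_left_cancel₀ hζ0 h1
      linear_combination -this
    have a1 := abs_lt.1 hw.1
    have a2 := abs_lt.1 hw'.1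
    exact Complex.exp_inj_of_neg_pi_lt_of_le_pi (by linarith) (by linarith) (by linarith)
      (by linarith) h2
  have harea := vol_image_eq' isOpen_RR hFd hFi
  have hfin : ∫⁻ z in RR, ENNReal.ofReal (‖deriv F z‖ ^ 2) < ⊤ := by
    rw [harea]
    refine lt_of_le_of_lt (measure_mono ?_) hvol
    rintro _ ⟨w, hw, rfl⟩
    exact ⟨_, hmaps hw, rfl⟩
  rw [← lintegral_indicator isOpen_RR.measurableSet] at hfin
  set h : ℂ → ℝ≥0∞ := RR.indicator (fun w => ENNReal.ofReal (‖deriv F w‖ ^ 2)) with hh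
  have hmeas : Measurable h := by
    apply Measurable.indicator _ isOpen_RR.measurableSet
    exact ((measurable_deriv F).norm.pow_const 2).ennreal_ofReal
  rw [← (Complex.volume_preserving_equiv_real_prod.symm).lintegral_comp hmeas] at hfin
  have hm2 : Measurable (fun p : ℝ × ℝ => h (Complex.measurableEquivRealProd.symm p)) :=
    hmeas.comp Complex.measurableEquivRealProd.symm.measurable
  have hprod := lintegral_prod (μ := (volume : Measure ℝ)) (ν := (volume : Measure ℝ)) _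
    hm2.aemeasurable
  have hfin' : ∫⁻ s : ℝ, ∫⁻ θ : ℝ, h (Complex.measurableEquivRealProd.symm (s, θ)) < ⊤ := by
    rw [← hprod]
    exact hfin
  have hslice : ∀ s : ℝ, s < Real.log (min r₀ 1) → ENNReal.ofReal (ε ^ 2 / π) ≤
      ∫⁻ θ : ℝ, h (Complex.measurableEquivRealProd.symm (s, θ)) := by
    intro s hs
    have hm0 : 0 < min r₀ 1 := lt_min hr₀ one_pos
    have hrs : Real.exp s < min r₀ 1 := by rwa [← Real.lt_log_iff_exp_lt hm0]
    obtain ⟨z, hz, w, hw, hzr, hwr, hzw⟩ := H (Real.exp s) (Real.exp_pos s)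
      (hrs.trans_le (min_le_left _ _))
    have key : ∀ z ∈ ball (0 : ℂ) 1, ‖z - ζ‖ = Real.exp s →
        ∃ θ : ℝ, (⟨s, θ⟩ : ℂ) ∈ RR ∧ z = ζ * (1 - Complex.exp ⟨s, θ⟩) := by
      intro z hz hzr
      set u : ℂ := 1 - z / ζ with hu
      have hzu : z = ζ * (1 - u) := by rw [hu]; field_simp; ring
      have hun : ‖u‖ = Real.exp s := by
        have : u = -((z - ζ) / ζ) := by rw [hu]; field_simp; ring
        rw [this, norm_neg, norm_div, hzr, hζ, div_one]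
      have h1u : ‖1 - u‖ < 1 := by
        have h5 : ‖z‖ < 1 := mem_ball_zero_iff.1 hz
        rw [hzu, norm_mul, hζ, one_mul] at h5
        exact h5
      have hre : 0 < u.re := by
        have h6 : ‖1 - u‖ ^ 2 < 1 := by
          rw [sq_lt_one_iff₀ (norm_nonneg _)]
          exact h1u
        rw [← Complex.normSq_eq_norm_sq, Complex.normSq_apply, Complex.sub_re, Complex.sub_im,
          Complex.one_re, Complex.one_im] at h6
        nlinarith [sq_nonneg u.re, sq_nonneg u.im]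
      have hu0 : u ≠ 0 := by
        rintro h7
        rw [h7] at hre
        simp at hre
      have hexp : Complex.exp ⟨s, u.arg⟩ = u := by
        have h8 : (⟨s, u.arg⟩ : ℂ) = Complex.log u := by
          apply Complex.ext
          · rw [Complex.log_re, hun, Real.log_exp]
          · rw [Complex.log_im]
        rw [h8, Complex.exp_log hu0]
      refine ⟨u.arg, ⟨?_, ?_⟩, ?_⟩
      · exact Complex.abs_arg_lt_pi_div_two_iff.2 (Or.inl hre)
      · rw [hexp]; exact h1u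
      · rw [hexp]; exact hzu
    obtain ⟨θ₁, hθ1, hz1⟩ := key z hz hzr
    obtain ⟨θ₂, hθ2, hw1⟩ := key w hw hwr
    have hFz : F ⟨s, θ₁⟩ = f z := by simp only [hFdef]; rw [← hz1]
    have hFw : F ⟨s, θ₂⟩ = f w := by simp only [hFdef]; rw [← hw1]
    rcases le_total θ₁ θ₂ with hle | hle
    · exact slice_estimate hFd hε hθ1 hθ2 hle (by rw [hFz, hFw, norm_sub_rev]; exact hzw)
    · exact slice_estimate hFd hε hθ2 hθ1 hle (by rw [hFz, hFw]; exact hzw)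
  have htop : (⊤ : ℝ≥0∞) ≤ ∫⁻ s : ℝ, ∫⁻ θ : ℝ, h (Complex.measurableEquivRealProd.symm (s, θ)) := by
    calc (⊤ : ℝ≥0∞) = ENNReal.ofReal (ε ^ 2 / π) * volume (Iio (Real.log (min r₀ 1))) := by
          rw [Real.volume_Iio, ENNReal.mul_top]
          rw [Ne, ENNReal.ofReal_eq_zero, not_le]
          positivity
      _ = ∫⁻ s in Iio (Real.log (min r₀ 1)), ENNReal.ofReal (ε ^ 2 / π) := by
          rw [setLIntegral_const]
      _ ≤ ∫⁻ s in Iio (Real.log (min r₀ 1)),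
            ∫⁻ θ : ℝ, h (Complex.measurableEquivRealProd.symm (s, θ)) := by
          apply setLIntegral_mono' measurableSet_Iio
          intro s hs
          exact hslice s hs
      _ ≤ _ := setLIntegral_le_lintegral _ _
  exact absurd (htop.trans_lt hfin') (lt_irrefl _)

end Pool.Agent.H44R3
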