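import Pool.Agent.H44R3.Arc
import Pool.Agent.H44R3.Wolff

/-!
The boundary extension of a Riemann map onto the image of the disc under a plane homeomorphism
is injective.
-/

open Set Filter Topology Metric
open scoped Real

namespace Pool.Agent.H44R3

/-- A function continuous on the closed disc, holomorphic inside, with constant value `p` on an
arc of the circle has the value `p` at the centre. -/
theorem eq_of_arc {f : ℂ → ℂ} {p : ℂ} (hc : ContinuousOn f (closedBall 0 1))
    (hd : DifferentiableOn ℂ f (ball 0 1)) {c d : ℝ} (hcd : c < d)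
    (harc : ∀ θ ∈ Ioo c d, f (E θ) = p) : f 0 = p := by
  have hpi := Real.pi_pos
  obtain ⟨n, hn⟩ := exists_nat_gt (2 * π / (d - c))
  have hdc : 0 < d - c := by linarith
  have hn0 : (0 : ℝ) < n := lt_trans (by positivity) hn
  have hn0' : 0 < n := by exact_mod_cast hn0
  have hnd : 2 * π / n < d - c := by
    rw [div_lt_iff₀ hn0]
    rw [div_lt_iff₀ hdc] at hn
    linarith
  set H : ℂ → ℂ := fun x => ∏ k ∈ Finset.range n, (f (E (2 * π * k / n) * x) - p) with hH
  have hrot : ∀ t : ℝ, MapsTo (fun x => E t * x) (ball 0 1) (ball 0 1) := by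
    intro t x hx
    rw [mem_ball_zero_iff] at hx ⊢
    rwa [norm_mul, norm_E, one_mul]
  have hrot' : ∀ t : ℝ, MapsTo (fun x => E t * x) (closedBall 0 1) (closedBall 0 1) := by
    intro t x hx
    rw [mem_closedBall_zero_iff] at hx ⊢
    rwa [norm_mul, norm_E, one_mul]
  have hHd : DifferentiableOn ℂ H (ball 0 1) := by
    apply DifferentiableOn.fun_finsetProd
    intro k _
    refine DifferentiableOn.sub_const ?_ p
    exact hd.comp (f := fun x => E (2 * π * k / n) * x) (by fun_prop) (hrot _)
  have hHc : ContinuousOn H (closedBall 0 1) := by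
    apply continuousOn_finsetProd
    intro k _
    refine ContinuousOn.sub ?_ continuousOn_const
    exact hc.comp (f := fun x => E (2 * π * k / n) * x) (by fun_prop) (hrot' _)
  have hDC : DiffContOnCl ℂ H (ball 0 1) := ⟨hHd, by rwa [closure_ball']⟩
  have hzero : ∀ x ∈ frontier (ball (0 : ℂ) 1), ‖H x‖ ≤ 0 := by
    intro x hx
    rw [frontier_ball (0 : ℂ) one_ne_zero, mem_sphere_zero_iff_norm] at hx
    have hxE : x = E (Complex.arg x) := by
      have := eq_norm_mul_E x
      rw [hx] at this
      simpa using this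
    set β : ℝ := Complex.arg x with hβ
    set m : ℤ := ⌊(c - β) * n / (2 * π)⌋ + 1 with hm
    have h1 : (c - β) * n / (2 * π) < m := by
      rw [hm]; push_cast; exact Int.lt_floor_add_one _
    have h2 : (m : ℝ) ≤ (c - β) * n / (2 * π) + 1 := by
      rw [hm]; push_cast
      have := Int.floor_le ((c - β) * n / (2 * π))
      linarith
    have h3 : c < β + 2 * π * m / n := by
      rw [div_lt_iff₀ (by positivity)] at h1
      have : c - β < 2 * π * m / n := by
        rw [lt_div_iff₀ hn0]; linarith
      linarith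
    have h4 : β + 2 * π * m / n < d := by
      have h5 : 2 * π * m / n ≤ (c - β) + 2 * π / n := by
        have : 2 * π * m / n ≤ 2 * π * ((c - β) * n / (2 * π) + 1) / n := by gcongr
        refine this.trans (le_of_eq ?_)
        field_simp
      linarith
    have h5 : H x = 0 := by
      simp only [hH]
      set k : ℕ := (m % (n : ℤ)).toNat with hk
      have hnz : (n : ℤ) ≠ 0 := by exact_mod_cast hn0'.ne'
      have hk0 : 0 ≤ m % (n : ℤ) := Int.emod_nonneg _ hnz
      have hk1 : m % (n : ℤ) < n := Int.emod_lt_of_pos _ (by exact_mod_cast hn0')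
      have hkc : (k : ℤ) = m % (n : ℤ) := Int.toNat_of_nonneg hk0
      apply Finset.prod_eq_zero (i := k)
      · rw [Finset.mem_range]
        have : (k : ℤ) < n := by rw [hkc]; exact hk1
        exact_mod_cast this
      · have h6 : m = k + n * (m / (n : ℤ)) := by
          rw [hkc]; exact (Int.emod_add_mul_ediv m n).symm
        have h7 : (m : ℝ) = k + n * ((m / (n : ℤ) : ℤ) : ℝ) := by exact_mod_cast h6
        have h8 : E (2 * π * k / n) * x = E (β + 2 * π * m / n) := by
          rw [hxE]
          have h9 : E (2 * π * k / n) * E β = E (2 * π * k / n + β) := by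
            have := E_mul (2 * π * k / n) β
            rw [← this]
            rfl
          rw [h9, E_eq_iff]
          refine ⟨-(m / (n : ℤ)), ?_⟩
          rw [h7]
          push_cast
          field_simp
          ring
        rw [h8, harc _ ⟨h3, h4⟩, sub_self]
    rw [h5, norm_zero]
  have h0 := Complex.norm_le_of_forall_mem_frontier_norm_le isBounded_ball hDC hzero
    (subset_closure (mem_ball_self one_pos))
  have h1 : H 0 = (f 0 - p) ^ n := by
    simp only [hH, mul_zero, Finset.prod_const, Finset.card_range]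
  rw [norm_le_zero_iff, h1] at h0
  have := pow_eq_zero_iff hn0'.ne' |>.1 h0
  exact sub_eq_zero.1 this

theorem CD.injOn {χ ψ G : ℂ → ℂ} (h : CD χ ψ) (hG : ContinuousOn G (closedBall 0 1))
    (hGi : InjOn G (closedBall 0 1))
    (hd : DifferentiableOn ℂ (fun z => G (χ z)) (ball 0 1)) : InjOn (bar χ) (closedBall 0 1) := by
  have hc : ContinuousOn (fun z => G (bar χ z)) (closedBall 0 1) :=
    hG.comp h.bar_cont fun z hz => mem_closedBall_zero_iff.2 (h.bar_le hz)
  have hd' : DifferentiableOn ℂ (fun z => G (bar χ z)) (ball 0 1) :=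
    hd.congr fun z hz => by rw [h.bar_eq hz]
  have key : ∀ a b : ℝ, a < b → b < a + 2 * π → bar χ (E a) ≠ bar χ (E b) := by
    intro a b hab hba hcon
    obtain ⟨c, d, hcd, harc⟩ := h.arc hab hba rfl hcon.symm
    have h1 := eq_of_arc hc hd' hcd (p := G (bar χ (E a))) (fun θ hθ => by rw [harc θ hθ])
    have h2 : bar χ (0 : ℂ) = 0 := by rw [h.bar_eq (by simp), h.z]
    simp only [h2] at h1
    have hn : ‖bar χ (E a)‖ = 1 := h.bar_sphere (norm_E a)
    have h3 := hGi (by simp) (mem_closedBall_zero_iff.2 hn.le) h1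
    rw [← h3, norm_zero] at hn
    exact zero_ne_one hn
  have hin : ∀ z ∈ closedBall (0 : ℂ) 1, ‖bar χ z‖ < 1 → ‖z‖ < 1 := by
    intro z hz hlt
    rcases (mem_closedBall_zero_iff.1 hz).lt_or_eq with h1 | h1
    · exact h1
    · rw [h.bar_sphere h1] at hlt
      exact absurd hlt (lt_irrefl _)
  intro z hz w hw hzw
  rcases (mem_closedBall_zero_iff.1 hz).lt_or_eq with h1 | h1
  · have h2 : z ∈ ball (0 : ℂ) 1 := mem_ball_zero_iff.2 h1
    have h3 : ‖bar χ w‖ < 1 := by
      rw [← hzw, h.bar_eq h2]
      exact mem_ball_zero_iff.1 (h.mχ h2)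
    have h4 : w ∈ ball (0 : ℂ) 1 := mem_ball_zero_iff.2 (hin w hw h3)
    rw [h.bar_eq h2, h.bar_eq h4] at hzw
    rw [← h.l z h2, ← h.l w h4, hzw]
  · have h2 : ‖bar χ w‖ = 1 := by
      rw [← hzw]
      exact h.bar_sphere h1
    have h3 : ‖w‖ = 1 := by
      rcases (mem_closedBall_zero_iff.1 hw).lt_or_eq with h4 | h4
      · have h5 : w ∈ ball (0 : ℂ) 1 := mem_ball_zero_iff.2 h4
        rw [h.bar_eq h5] at h2
        have := mem_ball_zero_iff.1 (h.mχ h5)
        linarith
      · exact h4
    have hzE : z = E (Complex.arg z) := by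
      have := eq_norm_mul_E z
      rw [h1] at this
      simpa using this
    have hwE : w = E (Complex.arg w) := by
      have := eq_norm_mul_E w
      rw [h3] at this
      simpa using this
    have hz1 := Complex.neg_pi_lt_arg z
    have hz2 := Complex.arg_le_pi z
    have hw1 := Complex.neg_pi_lt_arg w
    have hw2 := Complex.arg_le_pi w
    rcases lt_trichotomy (Complex.arg z) (Complex.arg w) with h4 | h4 | h4
    · exfalso
      apply key _ _ h4 (by linarith)
      rw [← hzE, ← hwE, hzw]
    · rw [hzE, hwE, h4]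
    · exfalso
      apply key _ _ h4 (by linarith)
      rw [← hzE, ← hwE, hzw]

end Pool.Agent.H44R3
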