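import Pool.Agent.H44R3.Inj
import Pool.Agent.Helper202.Riemann

/-!
The local lemma: a homeomorphism of the sphere close to the identity on the unit disc has, after
a translation, a good germ at `0`.
-/

open Set Filter Topology Metric MeasureTheory
open scoped Real OnePoint

namespace Pool.Agent.H44R3

/-- The finite part of a point of the sphere. -/
noncomputable def fin (z : RS) : ℂ := z.elim 0 id

@[simp] theorem fin_coe (z : ℂ) : fin (z : RS) = z := rfl

theorem isSimplyConnected_ball : IsSimplyConnected (ball (0 : ℂ) 1) := by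
  have : ContractibleSpace (ball (0 : ℂ) 1) :=
    (convex_ball (0 : ℂ) 1).contractibleSpace ⟨0, by simp⟩
  show SimplyConnectedSpace (ball (0 : ℂ) 1)
  infer_instance

theorem isSimplyConnected_univ : IsSimplyConnected (univ : Set ℂ) := by
  have : ContractibleSpace (univ : Set ℂ) :=
    (convex_univ (𝕜 := ℝ) (E := ℂ)).contractibleSpace ⟨0, by simp⟩
  show SimplyConnectedSpace (univ : Set ℂ)
  infer_instance

/-- The inverse of an injective continuous function on a compact set is continuous. -/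
theorem continuousOn_inv {G : ℂ → ℂ} {K : Set ℂ} (hK : IsCompact K) (hG : ContinuousOn G K)
    (hGi : InjOn G K) : ContinuousOn (Function.invFunOn G K) (G '' K) := by
  rw [continuousOn_iff_isClosed]
  intro C hC
  refine ⟨G '' (K ∩ C), ?_, ?_⟩
  · exact ((hK.inter_right hC).image_of_continuousOn (hG.mono inter_subset_left)).isClosed
  · ext y
    constructor
    · rintro ⟨hy1, x, hx, rfl⟩
      refine ⟨⟨x, ⟨hx, ?_⟩, rfl⟩, x, hx, rfl⟩
      have : Function.invFunOn G K (G x) ∈ C := hy1
      rwa [hGi.leftInvOn_invFunOn hx] at this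
    · rintro ⟨⟨x, ⟨hx, hxC⟩, rfl⟩, -⟩
      refine ⟨?_, x, hx, rfl⟩
      show Function.invFunOn G K (G x) ∈ C
      rwa [hGi.leftInvOn_invFunOn hx]

theorem germ_near (g : RS ≃ₜ RS)
    (hg : ∀ z : ℂ, ‖z‖ ≤ 1 → ∃ w : ℂ, g z = (w : RS) ∧ ‖w - z‖ < 1 / 4) {c : ℂ}
    (hgc : g o = (c : RS)) : Germ (fun z => trans (-c) (g z)) := by
  set G : ℂ → ℂ := fun z => fin (g z) with hGdef
  have hG1 : ∀ z : ℂ, ‖z‖ ≤ 1 → g z = (G z : RS) ∧ ‖G z - z‖ < 1 / 4 := by
    intro z hz
    obtain ⟨w, h1, h2⟩ := hg z hz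
    have : G z = w := by rw [hGdef]; simp only [h1, fin_coe]
    rw [this]
    exact ⟨h1, h2⟩
  have hG0 : G 0 = c := by
    have := (hG1 0 (by simp)).1
    rw [← o_def, hgc, OnePoint.coe_eq_coe] at this
    exact this.symm
  have hGc : ContinuousOn G (closedBall 0 1) := by
    rw [OnePoint.isOpenEmbedding_coe.isInducing.continuousOn_iff]
    refine (g.continuous.comp OnePoint.continuous_coe).continuousOn.congr ?_
    intro z hz
    exact ((hG1 z (mem_closedBall_zero_iff.1 hz)).1).symm
  have hGi : InjOn G (closedBall 0 1) := by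
    intro z hz w hw h
    have h1 := (hG1 z (mem_closedBall_zero_iff.1 hz)).1
    have h2 := (hG1 w (mem_closedBall_zero_iff.1 hw)).1
    rw [h, ← h2] at h1
    exact OnePoint.coe_injective (g.injective h1)
  set Ω : Set ℂ := G '' ball 0 1 with hΩ
  have himg : (↑) '' Ω = g '' ((↑) '' ball (0 : ℂ) 1) := by
    rw [hΩ, image_image, image_image]
    apply image_congr
    intro z hz
    exact ((hG1 z (mem_ball_zero_iff.1 hz).le).1).symm
  have hΩo : IsOpen Ω := by
    rw [← OnePoint.isOpen_image_coe, himg]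
    exact g.isOpenMap _ (OnePoint.isOpenMap_coe _ isOpen_ball)
  have hΩs : IsSimplyConnected Ω := by
    rw [← OnePoint.isOpenEmbedding_coe.isEmbedding.isSimplyConnected_image, himg,
      g.isSimplyConnected_image, OnePoint.isOpenEmbedding_coe.isEmbedding.isSimplyConnected_image]
    exact isSimplyConnected_ball
  have hK : IsCompact (G '' closedBall 0 1) :=
    (isCompact_closedBall (0 : ℂ) 1).image_of_continuousOn hGc
  have hΩK : Ω ⊆ G '' closedBall 0 1 := image_mono ball_subset_closedBall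
  have hΩne : Ω ≠ univ := by
    intro h
    have h1 : IsCompact (univ : Set ℂ) :=
      hK.of_isClosed_subset isClosed_univ (by rw [← h]; exact hΩK)
    exact noncompact_univ ℂ h1
  obtain ⟨f, φ, hf1, hf2, hf3, hf4, hφ1, hφ2, hφ3, hφ4⟩ :=
    Helper202.Riemann.riemann_inv hΩo hΩs hΩne (a := G 0) ⟨0, by simp, rfl⟩
  set J : ℂ → ℂ := Function.invFunOn G (closedBall 0 1) with hJ
  have hJG : ∀ z ∈ closedBall (0 : ℂ) 1, J (G z) = z := fun z hz => hGi.leftInvOn_invFunOn hz
  have hJc : ContinuousOn J (G '' closedBall 0 1) :=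
    continuousOn_inv (isCompact_closedBall (0 : ℂ) 1) hGc hGi
  set χ : ℂ → ℂ := fun z => J (f z) with hχ
  set ψ : ℂ → ℂ := fun z => φ (G z) with hψ
  have hGχ : ∀ z ∈ ball (0 : ℂ) 1, G (χ z) = f z := by
    intro z hz
    obtain ⟨w, hw, hwz⟩ := hf2.mapsTo hz
    rw [hχ]
    simp only
    rw [← hwz, hJG w (ball_subset_closedBall hw)]
  have hJu : UniformContinuousOn J (G '' closedBall 0 1) :=
    hK.uniformContinuousOn_of_continuous hJc
  have hvol : volume (f '' ball 0 1) < ⊤ := by
    rw [hf2.image_eq]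
    exact (measure_mono hΩK).trans_lt hK.measure_lt_top
  have hCD : CD χ ψ := by
    refine ⟨?_, ?_, ?_, ?_, ?_, ?_, ?_, ?_⟩
    · exact hJc.comp hf1.continuousOn fun z hz => hΩK (hf2.mapsTo hz)
    · exact hφ1.continuousOn.comp (hGc.mono ball_subset_closedBall) fun z hz => ⟨z, hz, rfl⟩
    · intro z hz
      obtain ⟨w, hw, hwz⟩ := hf2.mapsTo hz
      rw [hχ]
      simp only
      rw [← hwz, hJG w (ball_subset_closedBall hw)]
      exact hw
    · intro z hz
      exact hφ2 ⟨z, hz, rfl⟩
    · intro z hz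
      show φ (G (χ z)) = z
      rw [hGχ z hz, hφ4 z hz]
    · intro z hz
      show J (f (φ (G z))) = z
      rw [hφ3 _ ⟨z, hz, rfl⟩, hJG z (ball_subset_closedBall hz)]
    · show J (f 0) = 0
      rw [hf4, hJG 0 (by simp)]
    · intro ζ hζ ε hε r₀ hr₀
      rw [Metric.uniformContinuousOn_iff] at hJu
      obtain ⟨δ, hδ, hJu⟩ := hJu ε hε
      obtain ⟨r, hr1, hr2, hr3⟩ := wolff hf1 hf2.injOn hvol hζ hδ hr₀
      refine ⟨r, hr1, hr2, fun z hz w hw hzr hwr => ?_⟩
      have h1 := hr3 z hz w hw hzr hwr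
      rw [← dist_eq_norm] at h1 ⊢
      exact hJu _ (hΩK (hf2.mapsTo hz)) _ (hΩK (hf2.mapsTo hw)) h1
  have hGd : DifferentiableOn ℂ (fun z => G (χ z)) (ball 0 1) :=
    hf1.congr fun z hz => hGχ z hz
  have hbi : InjOn (bar χ) (closedBall 0 1) := hCD.injOn hGc hGi hGd
  -- the extended Riemann map
  set F : ℂ → ℂ := fun z => G (bar χ z) with hF
  have hFc : ContinuousOn F (closedBall 0 1) :=
    hGc.comp hCD.bar_cont fun z hz => mem_closedBall_zero_iff.2 (hCD.bar_le hz)
  have hFi : InjOn F (closedBall 0 1) := by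
    intro z hz w hw h
    apply hbi hz hw
    exact hGi (mem_closedBall_zero_iff.2 (hCD.bar_le hz))
      (mem_closedBall_zero_iff.2 (hCD.bar_le hw)) h
  have hFf : ∀ z ∈ ball (0 : ℂ) 1, F z = f z := fun z hz => by
    simp only [hF]
    rw [hCD.bar_eq hz, hGχ z hz]
  have hF0 : F 0 = G 0 := by rw [hFf 0 (by simp), hf4]
  have hFe : F =ᶠ[𝓝 0] f := by
    filter_upwards [ball_mem_nhds (0 : ℂ) one_pos] with z hz
    exact hFf z hz
  have hfda : DifferentiableAt ℂ f 0 := hf1.differentiableAt (ball_mem_nhds (0 : ℂ) one_pos)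
  have hFda : DifferentiableAt ℂ F 0 := hfda.congr_of_eventuallyEq hFe
  have hFd0 : deriv F 0 ≠ 0 := by
    rw [hFe.deriv_eq]
    exact hf3 0 (by simp)
  have hqc : ContinuousOn (dslope F 0) (closedBall 0 1) := by
    rw [continuousOn_dslope (closedBall_mem_nhds (0 : ℂ) one_pos)]
    exact ⟨hFc, hFda⟩
  have hqne : ∀ z ∈ closedBall (0 : ℂ) 1, dslope F 0 z ≠ 0 := by
    intro z hz
    by_cases h0 : z = 0
    · rw [h0, dslope_same]
      exact hFd0
    · rw [dslope_of_ne _ h0, slope_def_field]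
      refine div_ne_zero (sub_ne_zero.2 fun h => h0 ?_) (by simpa using h0)
      exact hFi hz (by simp) h
  set ret : ℂ → ℂ := fun z => z / (max 1 ‖z‖ : ℝ) with hret
  have hretc : Continuous ret := by
    rw [hret]
    refine continuous_id.div (by fun_prop) ?_
    intro z
    have : (0 : ℝ) < max 1 ‖z‖ := lt_max_of_lt_left one_pos
    exact_mod_cast this.ne'
  have hretm : ∀ z, ret z ∈ closedBall (0 : ℂ) 1 := by
    intro z
    have h1 : (0 : ℝ) < max 1 ‖z‖ := lt_max_of_lt_left one_pos
    rw [mem_closedBall_zero_iff, hret]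
    simp only
    rw [norm_div, Complex.norm_real, Real.norm_of_nonneg h1.le, div_le_one h1]
    exact le_max_right _ _
  have hret1 : ∀ z : ℂ, ‖z‖ = 1 → ret z = z := by
    intro z hz
    rw [hret]
    simp only [hz, max_self]
    simp
  obtain ⟨L, hLc, hLe⟩ := Complex.exists_continuousOn_eqOn_exp_comp isSimplyConnected_univ
    isOpen_univ (g := fun z => dslope F 0 (ret z))
    (hqc.comp hretc.continuousOn fun z _ => hretm z) (by
      rintro ⟨z, -, hz⟩
      exact hqne _ (hretm z) hz)
  set η : ℂ → ℝ := fun ζ => (L ζ - Complex.log ((G (bar χ ζ) - G 0) / bar χ ζ)).im with hη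
  have hm : ∀ ω : ℂ, ‖ω‖ = 1 → (G ω - G 0) / ω ∈ Complex.slitPlane := by
    intro ω hω
    have hω0 : ω ≠ 0 := by
      rintro rfl
      simp at hω
    have h1 : ‖(G ω - G 0) / ω - 1‖ < 1 := by
      have h2 : (G ω - G 0) / ω - 1 = ((G ω - ω) - (G 0 - 0)) / ω := by
        field_simp
        ring
      rw [h2, norm_div, hω, div_one]
      refine (norm_sub_le _ _).trans_lt ?_
      have h3 := (hG1 ω hω.le).2
      have h4 := (hG1 0 (by simp)).2
      linarith
    left
    have h2 := Complex.abs_re_le_norm ((G ω - G 0) / ω - 1)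
    rw [Complex.sub_re, Complex.one_re] at h2
    have := (abs_lt.1 (h2.trans_lt h1)).1
    linarith
  have hηc : ContinuousOn η (sphere 0 1) := by
    rw [hη]
    refine Complex.continuous_im.comp_continuousOn ?_
    refine (hLc.mono (subset_univ _)).sub ?_
    have hb : ContinuousOn (bar χ) (sphere 0 1) := hCD.bar_cont.mono sphere_subset_closedBall
    have hq : ContinuousOn (fun ζ => (G (bar χ ζ) - G 0) / bar χ ζ) (sphere 0 1) := by
      refine ((hFc.mono sphere_subset_closedBall).sub continuousOn_const).div hb ?_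
      intro z hz h0
      have := hCD.bar_sphere (mem_sphere_zero_iff_norm.1 hz)
      rw [h0, norm_zero] at this
      exact zero_ne_one this
    intro z hz
    exact (hq z hz).clog (hm _ (hCD.bar_sphere (mem_sphere_zero_iff_norm.1 hz)))
  have hχη : ∀ z ∈ sphere (0 : ℂ) 1, bar χ z = z * Complex.exp (η z * Complex.I) := by
    intro z hz
    have hz1 : ‖z‖ = 1 := mem_sphere_zero_iff_norm.1 hz
    have hω1 : ‖bar χ z‖ = 1 := hCD.bar_sphere hz1
    have hz0 : z ≠ 0 := by
      rintro rfl
      simp at hz1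
    have hω0 : bar χ z ≠ 0 := by
      intro h
      rw [h] at hω1
      simp at hω1
    set ω : ℂ := bar χ z with hω
    have e1 : Complex.exp (L z) = (G ω - G 0) / z := by
      have h1 := hLe (mem_univ z)
      simp only [Function.comp] at h1
      rw [h1, hret1 z hz1, dslope_of_ne _ hz0, slope_def_field, sub_zero, hF0]
    have hne : (G ω - G 0) / ω ≠ 0 := Complex.slitPlane_ne_zero (hm ω hω1)
    have hne' : G ω - G 0 ≠ 0 := by
      intro h
      rw [h, zero_div] at hne
      exact hne rfl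
    have e2 : Complex.exp (L z - Complex.log ((G ω - G 0) / ω)) = ω / z := by
      rw [Complex.exp_sub, e1, Complex.exp_log hne]
      field_simp
    set q : ℂ := L z - Complex.log ((G ω - G 0) / ω) with hq
    have hre : q.re = 0 := by
      have h1 : ‖Complex.exp q‖ = 1 := by
        rw [e2, norm_div, hω1, hz1, div_one]
      rw [Complex.norm_exp] at h1
      exact (Real.exp_eq_one_iff _).1 h1
    have hηz : (η z : ℂ) * Complex.I = q := by
      apply Complex.ext
      · simp [hre]
      · simp [hη, hq, hω]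
    rw [hηz, e2]
    field_simp
  obtain ⟨v, hv1, hv2, hv3⟩ := exists_annulus_ext hCD.bar_cont hbi hCD.bar_image hηc hχη
  have hv0 : v o = o := by
    rw [o_def, hv1 0 (by simp), hCD.bar_eq (by simp), hCD.z]
  have hvg : Germ v := germ_of_support (R := 2) hv0 hv2 hv3
  have hgf : Germ (lift (fun z => f z - c)) := by
    have h1 : HasStrictDerivAt f (deriv f 0) 0 :=
      (hf1.analyticAt (ball_mem_nhds (0 : ℂ) one_pos)).hasStrictDerivAt
    refine germ_of_strictDeriv (hf3 0 (by simp)) ?_ (h1.sub_const c)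
    rw [hf4, hG0, sub_self]
  refine (hgf.comp hvg.inv).congr ?_
  rw [EventuallyEq, eventually_o]
  filter_upwards [ball_mem_nhds (0 : ℂ) one_pos] with z hz
  have hψz : ψ z ∈ ball (0 : ℂ) 1 := hCD.mψ hz
  have h1 : v (ψ z : RS) = (z : RS) := by
    rw [hv1 _ (mem_ball_zero_iff.1 hψz).le, hCD.bar_eq hψz, hCD.r z hz]
  have h2 : (v⁻¹ : RS ≃ₜ RS) (z : RS) = (ψ z : RS) := by
    rw [← h1, ← Homeomorph.mul_apply, inv_mul_cancel]
    rfl
  have h3 : f (ψ z) = G z := hφ3 _ ⟨z, hz, rfl⟩
  rw [h2, lift_coe, h3, (hG1 z (mem_ball_zero_iff.1 hz).le).1, trans_coe, sub_eq_add_neg]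

end Pool.Agent.H44R3
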