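import Pool.Agent.H44R3.Comp

/-!
Lower bound: two conjugates do not suffice.
-/

open Set Filter Topology Metric
open scoped Real OnePoint unitInterval

namespace Pool.Agent.H44R3

/-- Joint continuity of a family of maps of the sphere fixing infinity and not decreasing norms. -/
theorem joint_cont {T : Type*} [TopologicalSpace T] {F : T → RS → RS} {φ : T → ℂ → ℂ}
    (hφ : Continuous fun p : T × ℂ => φ p.1 p.2) (hF : ∀ t (z : ℂ), F t (z : RS) = (φ t z : RS))
    (hFi : ∀ t, F t ∞ = ∞) (hn : ∀ t z, ‖z‖ ≤ ‖φ t z‖) :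
    Continuous fun p : T × RS => F p.1 p.2 := by
  rw [continuous_iff_continuousAt]
  rintro ⟨t, z⟩
  induction z using OnePoint.rec with
  | infty =>
    rw [ContinuousAt]
    show Tendsto _ _ (𝓝 (F t ∞))
    rw [hFi]
    intro W hW
    have hW' : (↑) ⁻¹' W ∈ coclosedCompact ℂ := OnePoint.tendsto_coe_infty (X := ℂ) hW
    rw [coclosedCompact_eq_cocompact, mem_cocompact] at hW'
    obtain ⟨K, hK, hKW⟩ := hW'
    obtain ⟨R, hR⟩ := hK.isBounded.subset_closedBall (0 : ℂ)
    have hcl : IsClosed ((↑) '' closedBall (0 : ℂ) R : Set RS) :=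
      ((isCompact_closedBall (0 : ℂ) R).image OnePoint.continuous_coe).isClosed
    have hmem : (∞ : RS) ∈ ((↑) '' closedBall (0 : ℂ) R : Set RS)ᶜ := by
      rintro ⟨w, -, hw⟩
      exact OnePoint.coe_ne_infty w hw
    have hnh : (univ : Set T) ×ˢ ((↑) '' closedBall (0 : ℂ) R : Set RS)ᶜ ∈ 𝓝 (t, (∞ : RS)) :=
      prod_mem_nhds univ_mem (hcl.isOpen_compl.mem_nhds hmem)
    rw [mem_map]
    filter_upwards [hnh] with p hp
    obtain ⟨s, y⟩ := p
    have hy : y ∉ ((↑) '' closedBall (0 : ℂ) R : Set RS) := hp.2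
    show F s y ∈ W
    induction y using OnePoint.rec with
    | infty => rw [hFi]; exact mem_of_mem_nhds hW
    | coe y =>
      rw [hF]
      apply hKW
      intro hcon
      apply hy
      refine ⟨y, ?_, rfl⟩
      rw [mem_closedBall_zero_iff]
      exact (hn s y).trans (mem_closedBall_zero_iff.1 (hR hcon))
  | coe z =>
    have he : IsOpenEmbedding (fun p : T × ℂ => (p.1, (p.2 : RS))) :=
      IsOpenEmbedding.id.prodMap OnePoint.isOpenEmbedding_coe
    have h1 : ContinuousAt ((fun p : T × RS => F p.1 p.2) ∘ (fun p : T × ℂ => (p.1, (p.2 : RS))))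
        (t, z) := by
      have h2 : Continuous ((fun p : T × RS => F p.1 p.2) ∘
          (fun p : T × ℂ => (p.1, (p.2 : RS)))) := by
        have h3 : ((fun p : T × RS => F p.1 p.2) ∘ (fun p : T × ℂ => (p.1, (p.2 : RS)))) =
            fun p : T × ℂ => ((φ p.1 p.2 : ℂ) : RS) := by
          funext p
          exact hF p.1 p.2
        rw [h3]
        exact OnePoint.continuous_coe.comp hφ
      exact h2.continuousAt
    exact (he.continuousAt_iff (x := (t, z))).1 h1

/-- A jointly continuous family of homeomorphisms starting at the identity stays in its path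
component. -/
theorem inIdComp_of_family {X : Type*} [TopologicalSpace X] {F : I → (X ≃ₜ X)}
    (hF : Continuous fun p : I × X => F p.1 p.2) (h0 : F 0 = 1) : InIdComp (F 1) := by
  let _ := homeoTop X
  have hc : Continuous F := by
    rw [continuous_induced_rng]
    apply ContinuousMap.continuous_of_continuous_uncurry
    exact hF
  exact ⟨{ toFun := F, continuous_toFun := hc, source' := h0, target' := rfl }⟩

theorem inIdComp_neg : InIdComp (scal (-1) (by norm_num)) := by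
  have hne : ∀ t : I, Complex.exp ((t : ℝ) * π * Complex.I) ≠ 0 := fun t => Complex.exp_ne_zero _
  have h := inIdComp_of_family (F := fun t : I => scal _ (hne t)) (by
    refine joint_cont (F := fun t : I => scal _ (hne t))
      (φ := fun (t : I) (z : ℂ) => Complex.exp ((t : ℝ) * π * Complex.I) * z) (by fun_prop)
      (fun t z => rfl) (fun t => rfl) ?_
    intro t z
    rw [norm_mul]
    have : ‖Complex.exp ((t : ℝ) * π * Complex.I)‖ = 1 := by
      rw [show ((t : ℝ) : ℂ) * π * Complex.I = (((t : ℝ) * π : ℝ) : ℂ) * Complex.I by push_cast; ring,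
        Complex.norm_exp_ofReal_mul_I]
    rw [this, one_mul]) (by
      ext z
      induction z using OnePoint.rec with
      | infty => rfl
      | coe z => simp)
  have he : scal (Complex.exp (((1 : I) : ℝ) * π * Complex.I)) (hne 1) = scal (-1) (by norm_num) := by
    ext z
    induction z using OnePoint.rec with
    | infty => rfl
    | coe z => simp
  rw [he] at h
  exact h

/-- The radial maps `z ↦ z * max 1 ‖z‖ ^ (p - 1)`. -/
noncomputable def be (p : ℝ) (z : ℂ) : ℂ := z * ((max 1 ‖z‖ ^ (p - 1) : ℝ) : ℂ)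

theorem one_le_mx (z : ℂ) : (1 : ℝ) ≤ max 1 ‖z‖ := le_max_left _ _

theorem norm_be (p : ℝ) (z : ℂ) : ‖be p z‖ = ‖z‖ * max 1 ‖z‖ ^ (p - 1) := by
  unfold be
  rw [norm_mul, Complex.norm_real, Real.norm_of_nonneg (by positivity)]

theorem max_be {p : ℝ} (hp : 0 < p) (z : ℂ) : max 1 ‖be p z‖ = max 1 ‖z‖ ^ p := by
  rw [norm_be]
  rcases le_or_gt ‖z‖ 1 with h | h
  · rw [max_eq_left h, Real.one_rpow, Real.one_rpow, mul_one, max_eq_left h]
  · rw [max_eq_right h.le]
    have h0 : 0 < ‖z‖ := by linarith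
    have : ‖z‖ * ‖z‖ ^ (p - 1) = ‖z‖ ^ p := by
      rw [← Real.rpow_one_add' h0.le (by linarith)]
      congr 1
      ring
    rw [this]
    exact max_eq_right (Real.one_le_rpow h.le hp.le)

theorem be_be {p q : ℝ} (hq : 0 < q) (z : ℂ) : be p (be q z) = be (q * p) z := by
  have h0 : 0 < max 1 ‖z‖ := lt_of_lt_of_le one_pos (one_le_mx z)
  have h1 : be p (be q z) = be q z * ((max 1 ‖be q z‖ ^ (p - 1) : ℝ) : ℂ) := rfl
  rw [h1, max_be hq]
  unfold be
  rw [mul_assoc, ← Complex.ofReal_mul, ← Real.rpow_mul h0.le, ← Real.rpow_add h0]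
  congr 3
  ring

theorem be_one (z : ℂ) : be 1 z = z := by
  unfold be
  simp

theorem continuous_be_joint : Continuous fun p : ℝ × ℂ => be p.1 p.2 := by
  unfold be
  refine continuous_snd.mul (Complex.continuous_ofReal.comp ?_)
  refine Continuous.rpow (by fun_prop) (by fun_prop) ?_
  intro x
  left
  have := one_le_mx x.2
  positivity

/-- The radial homeomorphism. -/
noncomputable def beH (p : ℝ) (hp : 0 < p) : ℂ ≃ₜ ℂ where
  toFun := be p
  invFun := be p⁻¹
  left_inv z := by rw [be_be hp, mul_inv_cancel₀ hp.ne', be_one]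
  right_inv z := by rw [be_be (inv_pos.2 hp), inv_mul_cancel₀ hp.ne', be_one]
  continuous_toFun := continuous_be_joint.comp (by fun_prop : Continuous fun z : ℂ => (p, z))
  continuous_invFun := continuous_be_joint.comp (by fun_prop : Continuous fun z : ℂ => (p⁻¹, z))

/-- The homeomorphism `z ↦ z * max 1 ‖z‖` of the sphere. -/
noncomputable def Bq : RS ≃ₜ RS := ext (beH 2 two_pos)

theorem Bq_coe (z : ℂ) : Bq (z : RS) = (be 2 z : RS) := rfl
theorem Bq_infty : Bq ∞ = ∞ := rfl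
theorem Bq_inv_coe (z : ℂ) : Bq⁻¹ (z : RS) = (be 2⁻¹ z : RS) := rfl
theorem Bq_inv_infty : Bq⁻¹ ∞ = ∞ := rfl

theorem inIdComp_Bq : InIdComp Bq := by
  have hpos : ∀ t : I, (0 : ℝ) < 1 + t := fun t => by have := t.2.1; linarith
  have h := inIdComp_of_family (F := fun t : I => ext (beH (1 + t) (hpos t))) (by
    refine joint_cont (F := fun t : I => ext (beH (1 + t) (hpos t)))
      (φ := fun (t : I) (z : ℂ) => be (1 + t) z) ?_ (fun t z => rfl) (fun t => rfl) ?_
    · exact continuous_be_joint.comp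
        (by fun_prop : Continuous fun p : I × ℂ => ((1 : ℝ) + p.1, p.2))
    · intro t z
      rw [norm_be]
      have h1 : (1 : ℝ) ≤ max 1 ‖z‖ ^ ((1 : ℝ) + t - 1) :=
        Real.one_le_rpow (one_le_mx z) (by have := t.2.1; linarith)
      nlinarith [norm_nonneg z]) (by
      ext z
      induction z using OnePoint.rec with
      | infty => rfl
      | coe z =>
        show ((be (1 + (0 : I)) z : ℂ) : RS) = (z : RS)
        rw [Set.Icc.coe_zero, add_zero, be_one])
  have he : ext (beH (1 + ((1 : I) : ℝ)) (hpos 1)) = Bq := by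
    ext z
    induction z using OnePoint.rec with
    | infty => rfl
    | coe z =>
      show ((be (1 + (1 : I)) z : ℂ) : RS) = (be 2 z : RS)
      rw [Set.Icc.coe_one, one_add_one_eq_two]
  rw [he] at h
  exact h

theorem be_real {p t : ℝ} (ht : 1 ≤ t) (s : ℝ) (hs : |s| = 1) :
    be p ((s * t : ℝ) : ℂ) = ((s * t ^ p : ℝ) : ℂ) := by
  have h0 : 0 < t := by linarith
  have hn : ‖((s * t : ℝ) : ℂ)‖ = t := by
    rw [Complex.norm_real, Real.norm_eq_abs, abs_mul, hs, one_mul, abs_of_pos h0]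
  unfold be
  rw [hn, max_eq_right ht, ← Complex.ofReal_mul]
  congr 1
  have : t * t ^ (p - 1) = t ^ p := by
    have h1 := Real.rpow_add h0 1 (p - 1)
    rw [Real.rpow_one] at h1
    rw [← h1]
    congr 1
    ring
  rw [mul_assoc, this]

theorem Bq_pow (n : ℕ) (z : ℂ) : (Bq ^ n : RS ≃ₜ RS) (z : RS) = (be (2 ^ n) z : RS) := by
  induction n with
  | zero => rw [pow_zero, pow_zero, be_one]; rfl
  | succ n ih =>
    rw [pow_succ', Homeomorph.mul_apply, ih, Bq_coe, be_be (by positivity), pow_succ]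

theorem Bq_inv_pow (n : ℕ) (z : ℂ) :
    ((Bq⁻¹) ^ n : RS ≃ₜ RS) (z : RS) = (be ((2⁻¹) ^ n) z : RS) := by
  induction n with
  | zero => rw [pow_zero, pow_zero, be_one]; rfl
  | succ n ih =>
    rw [pow_succ', Homeomorph.mul_apply, ih, Bq_inv_coe, be_be (by positivity), pow_succ]

theorem tendsto_Bq_pow {x : ℂ} (hx : 1 < ‖x‖) :
    Tendsto (fun n : ℕ => (Bq ^ n : RS ≃ₜ RS) (x : RS)) atTop (𝓝 ∞) := by
  have h1 : Tendsto (fun n : ℕ => be (2 ^ n) x) atTop (coclosedCompact ℂ) := by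
    rw [coclosedCompact_eq_cocompact, ← Metric.cobounded_eq_cocompact,
      ← tendsto_norm_atTop_iff_cobounded]
    have h2 : ∀ n : ℕ, ‖x‖ ^ n ≤ ‖be (2 ^ n) x‖ := by
      intro n
      have hx0 : 0 < ‖x‖ := by linarith
      rw [norm_be, max_eq_right hx.le]
      have h3 : ‖x‖ * ‖x‖ ^ ((2 : ℝ) ^ n - 1) = ‖x‖ ^ ((2 : ℝ) ^ n) := by
        have h1 := Real.rpow_add hx0 1 ((2 : ℝ) ^ n - 1)
        rw [Real.rpow_one] at h1
        rw [← h1]
        congr 1
        ring
      rw [h3, ← Real.rpow_natCast]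
      apply Real.rpow_le_rpow_of_exponent_le hx.le
      exact_mod_cast Nat.lt_two_pow_self.le
    exact tendsto_atTop_mono h2 (tendsto_pow_atTop_atTop_of_one_lt hx)
  have h2 := (OnePoint.tendsto_coe_infty (X := ℂ)).comp h1
  refine h2.congr fun n => ?_
  rw [Bq_pow]
  rfl

theorem not_conj_inv (H : RS ≃ₜ RS) : H * Bq * H⁻¹ ≠ Bq⁻¹ := by
  intro hH
  have happ : ∀ z, H (Bq z) = Bq⁻¹ (H z) := by
    intro z
    rw [← hH]
    simp only [Homeomorph.mul_apply]
    rw [← Homeomorph.mul_apply H⁻¹ H, inv_mul_cancel, Homeomorph.one_apply]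
  have happn : ∀ (n : ℕ) z, H ((Bq ^ n : RS ≃ₜ RS) z) = ((Bq⁻¹) ^ n : RS ≃ₜ RS) (H z) := by
    intro n z
    induction n with
    | zero => rfl
    | succ n ih => rw [pow_succ', pow_succ', Homeomorph.mul_apply, Homeomorph.mul_apply, happ, ih]
  have key : ∀ s : ℝ, |s| = 1 →
      H ∞ ∈ ((fun t : ℝ => (((s * t : ℝ) : ℂ) : RS)) '' Icc 1 2) := by
    intro s hs
    obtain ⟨x, hx⟩ : ∃ x, H x = (((s * 2 : ℝ) : ℂ) : RS) := H.surjective _
    have hnf : Bq⁻¹ (H x) ≠ H x := by
      rw [hx, Bq_inv_coe, be_real one_le_two s hs, Ne, OnePoint.coe_eq_coe]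
      intro h
      have h1 : s * 2 ^ ((2 : ℝ)⁻¹) = s * 2 := by exact_mod_cast h
      have hs0 : s ≠ 0 := by
        rintro rfl
        simp at hs
      have h2 := mul_left_cancel₀ hs0 h1
      have h3 : (2 : ℝ) ^ ((2 : ℝ)⁻¹) < 2 ^ (1 : ℝ) :=
        Real.rpow_lt_rpow_of_exponent_lt one_lt_two (by norm_num)
      rw [h2, Real.rpow_one] at h3
      exact lt_irrefl _ h3
    rw [← happ] at hnf
    have hnf' : Bq x ≠ x := fun h => hnf (by rw [h])
    have hxi : x ≠ ∞ := by
      rintro rfl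
      exact hnf' rfl
    obtain ⟨y, rfl⟩ := OnePoint.ne_infty_iff_exists.1 hxi
    have hy : 1 < ‖y‖ := by
      by_contra hcon
      push Not at hcon
      apply hnf'
      rw [Bq_coe]
      unfold be
      rw [max_eq_left hcon, Real.one_rpow]
      simp
    have h4 : Tendsto (fun n : ℕ => H ((Bq ^ n : RS ≃ₜ RS) (y : RS))) atTop (𝓝 (H ∞)) :=
      (H.continuous.tendsto _).comp (tendsto_Bq_pow hy)
    have hcl : IsClosed ((fun t : ℝ => (((s * t : ℝ) : ℂ) : RS)) '' Icc 1 2) := by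
      have hc : Continuous (fun t : ℝ => (((s * t : ℝ) : ℂ) : RS)) :=
        OnePoint.continuous_coe.comp (by fun_prop)
      exact (isCompact_Icc.image hc).isClosed
    refine hcl.mem_of_tendsto h4 (Eventually.of_forall fun n => ?_)
    rw [happn, hx, Bq_inv_pow, be_real one_le_two s hs]
    refine ⟨2 ^ ((2 : ℝ)⁻¹ ^ n), ⟨?_, ?_⟩, rfl⟩
    · exact Real.one_le_rpow one_le_two (by positivity)
    · calc (2 : ℝ) ^ ((2 : ℝ)⁻¹ ^ n) ≤ 2 ^ (1 : ℝ) := by
            apply Real.rpow_le_rpow_of_exponent_le one_le_two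
            exact pow_le_one₀ (by norm_num) (by norm_num)
        _ = 2 := Real.rpow_one 2
  obtain ⟨t, ht, ht'⟩ := key 1 (by simp)
  obtain ⟨u, hu, hu'⟩ := key (-1) (by simp)
  have h5 := ht'.trans hu'.symm
  simp only [OnePoint.coe_eq_coe] at h5
  have h6 : 1 * t = -1 * u := by exact_mod_cast h5
  linarith [ht.1, hu.1]

theorem Bq_sq_ne_one : Bq * Bq ≠ 1 := by
  intro h
  have h1 := congrArg (fun f : RS ≃ₜ RS => f (((1 * 2 : ℝ) : ℂ) : RS)) h
  simp only [Homeomorph.mul_apply, Homeomorph.one_apply] at h1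
  rw [Bq_coe, Bq_coe, be_be two_pos, be_real one_le_two 1 (by simp), OnePoint.coe_eq_coe] at h1
  have h2 : (1 : ℝ) * 2 ^ ((2 : ℝ) * 2) = 1 * 2 := by exact_mod_cast h1
  have h3 : (2 : ℝ) ^ ((2 : ℝ) * 2) = 16 := by
    rw [show (2 : ℝ) * 2 = ((4 : ℕ) : ℝ) by norm_num, Real.rpow_natCast]
    norm_num
  rw [h3] at h2
  norm_num at h2

theorem Bq_ne_one : Bq ≠ 1 := by
  intro h
  apply Bq_sq_ne_one
  rw [h, one_mul]

/-- The rotation of order two. -/
noncomputable def An : RS ≃ₜ RS := scal (-1) (by norm_num)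

theorem An_sq : An * An = 1 := by
  ext z
  induction z using OnePoint.rec with
  | infty => rfl
  | coe z =>
    show (((-1) * ((-1) * z) : ℂ) : RS) = (z : RS)
    congr 1
    ring

theorem An_ne_one : An ≠ 1 := by
  intro h
  have h1 := congrArg (fun f : RS ≃ₜ RS => f ((1 : ℂ) : RS)) h
  have h2 : (((-1) * (1 : ℂ) : ℂ) : RS) = ((1 : ℂ) : RS) := h1
  rw [OnePoint.coe_eq_coe] at h2
  norm_num at h2

theorem not_one_conj (H : RS ≃ₜ RS) : Bq ≠ H * An * H⁻¹ := by
  intro h
  apply Bq_sq_ne_one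
  have h1 : Bq * Bq = H * (An * An) * H⁻¹ := by rw [h]; group
  rw [h1, An_sq]
  group

theorem not_two_conj (H₁ H₂ : RS ≃ₜ RS) : Bq ≠ (H₁ * An * H₁⁻¹) * (H₂ * An * H₂⁻¹) := by
  intro h
  have hA : An⁻¹ = An := inv_eq_of_mul_eq_one_left An_sq
  apply not_conj_inv (H₁ * An * H₁⁻¹)
  have h1 : Bq⁻¹ = (H₂ * An⁻¹ * H₂⁻¹) * (H₁ * An⁻¹ * H₁⁻¹) := by rw [h]; group
  rw [h1, h, hA]
  have h2 : H₁ * An * H₁⁻¹ * (H₁ * An * H₁⁻¹ * (H₂ * An * H₂⁻¹)) * (H₁ * An * H₁⁻¹)⁻¹ =
      H₁ * (An * An) * H₁⁻¹ * (H₂ * An * H₂⁻¹) * (H₁ * An⁻¹ * H₁⁻¹) := by group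
  rw [h2, An_sq, hA]
  group

end Pool.Agent.H44R3
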