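import Pool.Agent.H44R3.Comp

/-!
Normal form: after a conjugation, a nontrivial homeomorphism in the component of the identity and
its inverse are translations near `0`.
-/

open Set Filter Topology Metric
open scoped Real OnePoint

namespace Pool.Agent.H44R3

/-- `A` and `A⁻¹` are the translations by `a` and `b` near `0`. -/
def NForm (A : RS ≃ₜ RS) (a b : ℂ) : Prop :=
  (∀ᶠ z : ℂ in 𝓝 0, A (z : RS) = ((z + a : ℂ) : RS)) ∧
    ∀ᶠ z : ℂ in 𝓝 0, A⁻¹ (z : RS) = ((z + b : ℂ) : RS)

theorem trans_inv (c : ℂ) : (trans c)⁻¹ = trans (-c) := by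
  rw [inv_eq_iff_mul_eq_one]
  ext z
  rw [Homeomorph.mul_apply, Homeomorph.one_apply]
  induction z using OnePoint.rec with
  | infty => rfl
  | coe z => rw [trans_coe, trans_coe, neg_add_cancel_right]

theorem inv_apply_self' (A : RS ≃ₜ RS) (z : RS) : A⁻¹ (A z) = z := by
  rw [← Homeomorph.mul_apply, inv_mul_cancel]; rfl

theorem apply_inv_self' (A : RS ≃ₜ RS) (z : RS) : A (A⁻¹ z) = z := by
  rw [← Homeomorph.mul_apply, mul_inv_cancel]; rfl

theorem local_ext {h : RS ≃ₜ RS} {a b : ℂ} (hab : h (a : RS) = (b : RS)) (hL : Loc h (a : RS))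
    {r : ℝ} (hr : 0 < r) : ∃ K : RS ≃ₜ RS,
      (∀ᶠ z in 𝓝 (a : RS), K z = trans (a - b) (h z)) ∧
        ∀ z ∉ ((↑) '' closedBall a r : Set RS), K z = z := by
  unfold Loc at hL
  rw [hab, mv_coe, mv_coe, trans_inv, neg_neg] at hL
  have hV : ((↑) '' closedBall (0 : ℂ) r : Set RS) ∈ 𝓝 o := by
    rw [mem_nhds_o]
    exact ⟨r, hr, fun z hz => ⟨z, mem_closedBall_zero_iff.2 hz.le, rfl⟩⟩
  obtain ⟨κ, h1, h2⟩ := hL.2 _ hV
  refine ⟨trans a * κ * trans (-a), ?_, ?_⟩
  · have ht : Tendsto (trans (-a)) (𝓝 (a : RS)) (𝓝 o) := by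
      have := (trans (-a)).continuous.tendsto (a : RS)
      rwa [trans_coe, add_neg_cancel, ← o_def] at this
    filter_upwards [ht.eventually h1] with z hz
    rw [Homeomorph.mul_apply, Homeomorph.mul_apply, hz, Homeomorph.mul_apply,
      Homeomorph.mul_apply]
    have h3 : trans a (trans (-a) z) = z := by
      rw [← trans_inv, apply_inv_self']
    rw [h3]
    generalize h z = y
    induction y using OnePoint.rec with
    | infty => rfl
    | coe y =>
      rw [trans_coe, trans_coe, trans_coe]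
      congr 1
      ring
  · intro z hz
    rw [Homeomorph.mul_apply, Homeomorph.mul_apply, h2]
    · rw [← trans_inv, apply_inv_self']
    · rintro ⟨y, hy, hyz⟩
      apply hz
      refine ⟨y + a, ?_, ?_⟩
      · rw [mem_closedBall_zero_iff] at hy
        rw [mem_closedBall, dist_eq_norm, add_sub_cancel_right]
        exact hy
      · have h4 : trans a (trans (-a) z) = z := by
          rw [← trans_inv, apply_inv_self']
        rw [← h4, ← hyz, trans_coe]

theorem nform_aux {A κ : RS ≃ₜ RS} {x a b : ℂ}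
    (h0 : ∀ᶠ z in 𝓝 (x : RS), κ z = z)
    (h1 : ∀ᶠ z in 𝓝 (x : RS), κ (A z) = trans a z)
    (h2 : ∀ᶠ z in 𝓝 (x : RS), κ (A⁻¹ z) = trans b z) :
    NForm ((trans (-x) * κ) * A * (trans (-x) * κ)⁻¹) a b := by
  have ht : Tendsto (fun z : ℂ => ((z + x : ℂ) : RS)) (𝓝 0) (𝓝 (x : RS)) := by
    have h3 : Continuous (fun z : ℂ => ((z + x : ℂ) : RS)) :=
      OnePoint.continuous_coe.comp (by fun_prop)
    have := h3.tendsto 0
    rwa [zero_add] at this
  have hinv : ∀ z : ℂ, κ ((z + x : ℂ) : RS) = ((z + x : ℂ) : RS) →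
      (trans (-x) * κ)⁻¹ (z : RS) = ((z + x : ℂ) : RS) := by
    intro z hz
    have h5 : (trans (-x) * κ) ((z + x : ℂ) : RS) = (z : RS) := by
      rw [Homeomorph.mul_apply, hz, trans_coe, add_neg_cancel_right]
    rw [← h5, inv_apply_self']
  constructor
  · filter_upwards [ht.eventually h0, ht.eventually h1] with z hz0 hz1
    rw [Homeomorph.mul_apply, Homeomorph.mul_apply, hinv z hz0, Homeomorph.mul_apply, hz1,
      trans_coe, trans_coe]
    congr 1
    ring
  · have h6 : ((trans (-x) * κ) * A * (trans (-x) * κ)⁻¹)⁻¹ =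
        (trans (-x) * κ) * A⁻¹ * (trans (-x) * κ)⁻¹ := by group
    rw [h6]
    filter_upwards [ht.eventually h0, ht.eventually h2] with z hz0 hz2
    rw [Homeomorph.mul_apply, Homeomorph.mul_apply, hinv z hz0, Homeomorph.mul_apply, hz2,
      trans_coe, trans_coe]
    congr 1
    ring

theorem exists_generic {U : Set RS} (hU : IsOpen U) (hne : U.Nonempty) (F : Set RS)
    (hF : F.Finite) : ∃ p ∈ U, p ∉ F := by
  have hd : Dense (univ \ F) := dense_univ.sdiff_finite hF
  obtain ⟨p, hp1, hp2⟩ := hd.inter_open_nonempty U hU hne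
  exact ⟨p, hp1, hp2.2⟩

theorem eventually_id_of_support {K : RS ≃ₜ RS} {a : ℂ} {r : ℝ}
    (hK : ∀ z ∉ ((↑) '' closedBall a r : Set RS), K z = z) {x : ℂ} (hx : r < ‖x - a‖) :
    ∀ᶠ z in 𝓝 (x : RS), K z = z := by
  have hc : IsClosed ((↑) '' closedBall a r : Set RS) :=
    ((isCompact_closedBall a r).image OnePoint.continuous_coe).isClosed
  have hx' : (x : RS) ∉ ((↑) '' closedBall a r : Set RS) := by
    rintro ⟨y, hy, hyx⟩
    rw [OnePoint.coe_eq_coe] at hyx
    subst hyx
    rw [mem_closedBall, dist_eq_norm] at hy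
    linarith
  filter_upwards [hc.isOpen_compl.mem_nhds hx'] with z hz
  exact hK z hz

theorem exists_nform {A : RS ≃ₜ RS} (hA : ∀ p, Loc A p) (hne : A ≠ 1) :
    ∃ κ : RS ≃ₜ RS, ∃ a b : ℂ, a ≠ 0 ∧ b ≠ 0 ∧ NForm (κ * A * κ⁻¹) a b := by
  have hA' : ∀ p, Loc A⁻¹ p := by
    intro p
    have := (hA (A⁻¹ p)).inv
    rwa [apply_inv_self'] at this
  have hfin : ({∞, A⁻¹ ∞, A ∞} : Set RS).Finite := by simp
  by_cases hinv : A * A = 1
  · -- an involution
    have hAA : A⁻¹ = A := inv_eq_of_mul_eq_one_left hinv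
    have hU : IsOpen {p : RS | A p ≠ p} := isOpen_ne_fun A.continuous continuous_id
    have hUne : {p : RS | A p ≠ p}.Nonempty := by
      by_contra hcon
      rw [not_nonempty_iff_eq_empty] at hcon
      apply hne
      ext p
      by_contra h
      have : p ∈ {p : RS | A p ≠ p} := h
      rw [hcon] at this
      exact this
    obtain ⟨p, hp, hpF⟩ := exists_generic hU hUne _ hfin
    simp only [mem_insert_iff, mem_singleton_iff, not_or] at hpF
    obtain ⟨x, rfl⟩ := OnePoint.ne_infty_iff_exists.1 hpF.1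
    have hAx : A (x : RS) ≠ ∞ := by
      intro h
      apply hpF.2.1
      rw [← h, inv_apply_self']
    obtain ⟨y, hy⟩ := OnePoint.ne_infty_iff_exists.1 hAx
    have hxy : y ≠ x := by
      rintro rfl
      exact hp hy.symm
    have hyx : A⁻¹ (y : RS) = (x : RS) := by rw [hy, inv_apply_self']
    have hpos : 0 < ‖x - y‖ := norm_pos_iff.2 (sub_ne_zero.2 (Ne.symm hxy))
    obtain ⟨K, hK1, hK2⟩ := local_ext hyx (hA' _) (half_pos hpos)
    have hK3 := eventually_id_of_support hK2 (x := x) (by linarith)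
    have ht : Tendsto A (𝓝 (x : RS)) (𝓝 (y : RS)) := by
      have := A.continuous.tendsto (x : RS)
      rwa [← hy] at this
    have hK4 : ∀ᶠ z in 𝓝 (x : RS), K (A z) = trans (y - x) z := by
      filter_upwards [ht.eventually hK1] with z hz
      rw [hz, inv_apply_self']
    refine ⟨trans (-x) * K, y - x, y - x, sub_ne_zero.2 hxy, sub_ne_zero.2 hxy,
      nform_aux hK3 hK4 ?_⟩
    rw [hAA]
    exact hK4
  · have hU : IsOpen {p : RS | A (A p) ≠ p} :=
      isOpen_ne_fun (A.continuous.comp A.continuous) continuous_id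
    have hUne : {p : RS | A (A p) ≠ p}.Nonempty := by
      by_contra hcon
      rw [not_nonempty_iff_eq_empty] at hcon
      apply hinv
      ext p
      by_contra h
      have : p ∈ {p : RS | A (A p) ≠ p} := h
      rw [hcon] at this
      exact this
    obtain ⟨p, hp, hpF⟩ := exists_generic hU hUne _ hfin
    simp only [mem_insert_iff, mem_singleton_iff, not_or] at hpF
    obtain ⟨x, rfl⟩ := OnePoint.ne_infty_iff_exists.1 hpF.1
    have hAx : A (x : RS) ≠ ∞ := by
      intro h
      apply hpF.2.1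
      rw [← h, inv_apply_self']
    have hAx' : A⁻¹ (x : RS) ≠ ∞ := by
      intro h
      apply hpF.2.2
      rw [← h, apply_inv_self']
    obtain ⟨y, hy⟩ := OnePoint.ne_infty_iff_exists.1 hAx
    obtain ⟨w, hw⟩ := OnePoint.ne_infty_iff_exists.1 hAx'
    have hp' : A (A (x : RS)) ≠ (x : RS) := hp
    have hxy : y ≠ x := by
      rintro rfl
      apply hp'
      rw [← hy, ← hy]
    have hxw : w ≠ x := by
      rintro rfl
      have h1 : A (w : RS) = (w : RS) := by
        conv_lhs => rw [hw]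
        rw [apply_inv_self']
      apply hp'
      rw [h1, h1]
    have hyw : y ≠ w := by
      rintro rfl
      apply hp'
      rw [← hy, hw, apply_inv_self']
    have hyx : A⁻¹ (y : RS) = (x : RS) := by rw [hy, inv_apply_self']
    have hwx : A (w : RS) = (x : RS) := by rw [hw, apply_inv_self']
    have p1 : 0 < ‖x - y‖ := norm_pos_iff.2 (sub_ne_zero.2 (Ne.symm hxy))
    have p2 : 0 < ‖x - w‖ := norm_pos_iff.2 (sub_ne_zero.2 (Ne.symm hxw))
    have p3 : 0 < ‖y - w‖ := norm_pos_iff.2 (sub_ne_zero.2 hyw)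
    set r : ℝ := min (min ‖x - y‖ ‖x - w‖) ‖y - w‖ / 2 with hr
    have hm : 0 < min (min ‖x - y‖ ‖x - w‖) ‖y - w‖ := lt_min (lt_min p1 p2) p3
    have hr0 : 0 < r := half_pos hm
    have hr1 : r < ‖x - y‖ := by
      have : min (min ‖x - y‖ ‖x - w‖) ‖y - w‖ ≤ ‖x - y‖ :=
        (min_le_left _ _).trans (min_le_left _ _)
      linarith
    have hr2 : r < ‖x - w‖ := by
      have : min (min ‖x - y‖ ‖x - w‖) ‖y - w‖ ≤ ‖x - w‖ :=
        (min_le_left _ _).trans (min_le_right _ _)
      linarith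
    have hr3 : r < ‖y - w‖ := by
      have : min (min ‖x - y‖ ‖x - w‖) ‖y - w‖ ≤ ‖y - w‖ := min_le_right _ _
      linarith
    obtain ⟨K, hK1, hK2⟩ := local_ext hyx (hA' _) hr0
    obtain ⟨M, hM1, hM2⟩ := local_ext hwx (hA _) hr0
    have hKx := eventually_id_of_support hK2 (x := x) hr1
    have hKw := eventually_id_of_support hK2 (x := w) (by rw [norm_sub_rev]; exact hr3)
    have hMx := eventually_id_of_support hM2 (x := x) hr2
    have hMy := eventually_id_of_support hM2 (x := y) hr3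
    have ht : Tendsto A (𝓝 (x : RS)) (𝓝 (y : RS)) := by
      have := A.continuous.tendsto (x : RS)
      rwa [← hy] at this
    have ht' : Tendsto (A⁻¹ : RS ≃ₜ RS) (𝓝 (x : RS)) (𝓝 (w : RS)) := by
      have := (A⁻¹ : RS ≃ₜ RS).continuous.tendsto (x : RS)
      rwa [← hw] at this
    have htw : Tendsto (trans (w - x)) (𝓝 (x : RS)) (𝓝 (w : RS)) := by
      have := (trans (w - x)).continuous.tendsto (x : RS)
      rwa [trans_coe, add_sub_cancel] at this
    refine ⟨trans (-x) * (K * M), y - x, w - x, sub_ne_zero.2 hxy, sub_ne_zero.2 hxw,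
      nform_aux ?_ ?_ ?_⟩
    · filter_upwards [hKx, hMx] with z h1 h2
      rw [Homeomorph.mul_apply, h2, h1]
    · filter_upwards [ht.eventually hK1, ht.eventually hMy] with z h1 h2
      rw [Homeomorph.mul_apply, h2, h1, inv_apply_self']
    · filter_upwards [ht'.eventually hM1, htw.eventually hKw] with z h1 h2
      rw [Homeomorph.mul_apply, h1, apply_inv_self', h2]

end Pool.Agent.H44R3
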