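import Pool.Agent.H44R3.Cut

/-!
A homeomorphism fixing `0` and supported in a bounded set is a good germ at `0`.
-/

open Set Filter Topology Metric
open scoped OnePoint NNReal

namespace Pool.Agent.H44R3

theorem exists_expand {δ : ℝ} (hδ : 0 < δ) (R : ℝ) :
    ∃ θ : ℂ ≃ₜ ℂ, (∀ z, ‖z‖ ≤ δ → θ z = z) ∧ ∀ z, 2 * δ ≤ ‖z‖ → R ≤ ‖θ z‖ := by
  obtain ⟨κ, h1, h2⟩ := exists_cut (u := fun z => (4 / 5 : ℂ) * z) (η := 1 / 5) (δ := δ)
    (by norm_num) (by norm_num) hδ (by simp) (by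
      intro z w _ _
      have : (4 / 5 : ℂ) * z - z - (4 / 5 * w - w) = (-(1 / 5) : ℂ) * (z - w) := by ring
      rw [this, norm_mul]
      have h3 : ‖(-(1 / 5) : ℂ)‖ = 1 / 5 := by
        rw [norm_neg]
        simp
      rw [h3])
  have h54 : (5 / 4 : ℂ) ≠ 0 := by norm_num
  set τ : ℂ ≃ₜ ℂ := κ.trans (Homeomorph.mulLeft₀ (5 / 4 : ℂ) h54) with hτ
  have t1 : ∀ z, ‖z‖ ≤ δ → τ z = z := by
    intro z hz
    show (5 / 4 : ℂ) * κ z = z
    rw [h1 z hz]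
    ring
  have t2 : ∀ z, 2 * δ ≤ ‖z‖ → τ z = (5 / 4 : ℂ) * z := by
    intro z hz
    show (5 / 4 : ℂ) * κ z = _
    rw [h2 z hz]
  have key : ∀ n : ℕ, ∃ θ : ℂ ≃ₜ ℂ, (∀ z, ‖z‖ ≤ δ → θ z = z) ∧
      ∀ z, 2 * δ ≤ ‖z‖ → θ z = (5 / 4 : ℂ) ^ n * z := by
    intro n
    induction n with
    | zero => exact ⟨Homeomorph.refl ℂ, fun z _ => rfl, fun z _ => by simp⟩
    | succ n ih =>
      obtain ⟨θ, a1, a2⟩ := ih
      refine ⟨θ.trans τ, fun z hz => ?_, fun z hz => ?_⟩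
      · show τ (θ z) = z
        rw [a1 z hz, t1 z hz]
      · show τ (θ z) = _
        have h5 : (1 : ℝ) ≤ ‖(5 / 4 : ℂ) ^ n‖ := by
          rw [norm_pow]
          apply one_le_pow₀
          have : ‖(5 / 4 : ℂ)‖ = 5 / 4 := by simp
          rw [this]; norm_num
        rw [a2 z hz, t2 _ (by
          rw [norm_mul]
          nlinarith [norm_nonneg z]), pow_succ']
        ring
  obtain ⟨n, hn⟩ := pow_unbounded_of_one_lt (R / (2 * δ)) (show (1 : ℝ) < 5 / 4 by norm_num)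
  obtain ⟨θ, a1, a2⟩ := key n
  refine ⟨θ, a1, fun z hz => ?_⟩
  rw [a2 z hz, norm_mul, norm_pow]
  have : ‖(5 / 4 : ℂ)‖ = 5 / 4 := by simp
  rw [this]
  rw [div_lt_iff₀ (by positivity)] at hn
  calc R ≤ (5 / 4) ^ n * (2 * δ) := hn.le
    _ ≤ (5 / 4) ^ n * ‖z‖ := by gcongr

theorem germ_of_support {κ : RS ≃ₜ RS} {R : ℝ} (h0 : κ o = o)
    (hR : ∀ z : ℂ, R ≤ ‖z‖ → κ (z : RS) = (z : RS)) (hinf : κ ∞ = ∞) : Germ κ := by
  refine ⟨h0, fun V hV => ?_⟩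
  obtain ⟨s, hs, hsV⟩ := mem_nhds_o.1 hV
  obtain ⟨θ, a1, a2⟩ := exists_expand (show 0 < s / 2 by positivity) R
  refine ⟨(ext θ)⁻¹ * κ * ext θ, ?_, ?_⟩
  · have hc : Tendsto κ (𝓝 o) (𝓝 o) := by
      have := κ.continuous.tendsto o
      rwa [h0] at this
    have hb : ∀ᶠ z in 𝓝 o, ext θ z = z := by
      rw [eventually_o]
      filter_upwards [Metric.ball_mem_nhds (0 : ℂ) (show 0 < s / 2 by positivity)] with z hz
      rw [ext_coe, a1 z (mem_ball_zero_iff.1 hz).le]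
    filter_upwards [hb, hc.eventually hb] with z h1 h2
    rw [Homeomorph.mul_apply, Homeomorph.mul_apply, h1]
    calc ((ext θ)⁻¹ : RS ≃ₜ RS) (κ z) = ((ext θ)⁻¹ : RS ≃ₜ RS) (ext θ (κ z)) := by rw [h2]
      _ = κ z := by rw [← Homeomorph.mul_apply, inv_mul_cancel]; rfl
  · intro z hz
    rw [Homeomorph.mul_apply, Homeomorph.mul_apply]
    have h3 : κ (ext θ z) = ext θ z := by
      induction z using OnePoint.rec with
      | infty => rw [ext_infty, hinf]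
      | coe z =>
        rw [ext_coe]
        apply hR
        apply a2
        by_contra hcon
        push Not at hcon
        exact hz (hsV z (by linarith))
    rw [h3, ← Homeomorph.mul_apply, inv_mul_cancel]
    rfl

end Pool.Agent.H44R3
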