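import Pool.Agent.H44R3.Dyn

/-!
Upper bound: three conjugates suffice, for the Riemann sphere.
-/

open Set Filter Topology Metric
open scoped Real OnePoint

namespace Pool.Agent.H44R3

theorem NForm.symm {A : RS ≃ₜ RS} {a b : ℂ} (h : NForm A a b) : NForm A⁻¹ b a :=
  ⟨h.2, by rw [inv_inv]; exact h.1⟩

theorem group_aux {G : Type*} [Group G] {A B A₀ B₀ kA kB g₁ g₂ F₁ F₂ s : G}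
    (hA : kA * A * kA⁻¹ = A₀) (hB : kB * B * kB⁻¹ = B₀)
    (h1 : F₁ * (B₀ * (g₁ * A₀⁻¹ * g₁⁻¹)) * F₁⁻¹ = s)
    (h2 : F₂ * (A₀ * (g₂ * A₀ * g₂⁻¹)) * F₂⁻¹ = s) :
    ∃ H₁ H₂ H₃ : G, B = (H₁ * A * H₁⁻¹) * (H₂ * A * H₂⁻¹) * (H₃ * A * H₃⁻¹) := by
  refine ⟨kB⁻¹ * F₁⁻¹ * F₂ * kA, kB⁻¹ * F₁⁻¹ * F₂ * g₂ * kA, kB⁻¹ * g₁ * kA, ?_⟩
  have e1 : B = kB⁻¹ * B₀ * kB := by rw [← hB]; group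
  have e2 : B₀ = F₁⁻¹ * (F₁ * (B₀ * (g₁ * A₀⁻¹ * g₁⁻¹)) * F₁⁻¹) * F₁ * (g₁ * A₀ * g₁⁻¹) := by
    group
  rw [h1, ← h2] at e2
  rw [e1, e2, ← hA]
  group

theorem three_conj {A B : RS ≃ₜ RS} (hA : InIdComp A) (hB : InIdComp B) (hA1 : A ≠ 1)
    (hB1 : B ≠ 1) : ∃ H₁ H₂ H₃ : RS ≃ₜ RS,
      B = (H₁ * A * H₁⁻¹) * (H₂ * A * H₂⁻¹) * (H₃ * A * H₃⁻¹) := by
  obtain ⟨kA, a₁, a₂, ha₁, ha₂, hNA⟩ := exists_nform (loc_of_inIdComp hA) hA1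
  obtain ⟨kB, b₁, b₂, hb₁, hb₂, hNB⟩ := exists_nform (loc_of_inIdComp hB) hB1
  obtain ⟨μ₁, hμ₁, H1⟩ := north_south ha₂ ha₁ hb₁ hb₂ hNA.symm hNB
  obtain ⟨μ₂, hμ₂, H2⟩ := north_south ha₁ ha₂ ha₁ ha₂ hNA hNA
  obtain ⟨μ, hμ0, hμ⟩ := exists_between (lt_min hμ₁ hμ₂)
  have hne : ((μ : ℝ) : ℂ) ^ 2 ≠ 0 := pow_ne_zero 2 (by exact_mod_cast hμ0.ne')
  obtain ⟨g₁, F₁, e1⟩ := H1 μ hμ0 (hμ.trans_le (min_le_left _ _)) hne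
  obtain ⟨g₂, F₂, e2⟩ := H2 μ hμ0 (hμ.trans_le (min_le_right _ _)) hne
  exact group_aux (A₀ := kA * A * kA⁻¹) (B₀ := kB * B * kB⁻¹) rfl rfl e1 e2

end Pool.Agent.H44R3
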